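import Pool.Agent.H86.CN.Blocks
import Pool.Graph.R_seed8.Helper965.CN.MainC

/-!
Compressions and amplifications between tensor products of algebras of operators.
-/

set_option autoImplicit false
set_option linter.unusedSectionVars false

open Filter Topology Cardinal
open scoped InnerProductSpace TensorProduct ComplexOrder

namespace Pool.Agent.H86.CN

section

variable {E F M L : Type} [NormedAddCommGroup E] [InnerProductSpace ℂ E] [CompleteSpace E]
  [NormedAddCommGroup F] [InnerProductSpace ℂ F] [CompleteSpace F]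
  [NormedAddCommGroup M] [InnerProductSpace ℂ M] [CompleteSpace M]
  [NormedAddCommGroup L] [InnerProductSpace ℂ L] [CompleteSpace L]

/-- the adjoint of an isometry -/
noncomputable def adj (V : E →ₗᵢ[ℂ] M) : M →L[ℂ] E :=
  ContinuousLinearMap.adjoint V.toContinuousLinearMap

theorem adj_apply (V : E →ₗᵢ[ℂ] M) (x : E) : adj V (V x) = x :=
  congrArg (fun T : E →L[ℂ] E => T x) V.adjoint_comp_self

theorem adj_inner (V : E →ₗᵢ[ℂ] M) (x : E) (y : M) : ⟪x, adj V y⟫_ℂ = ⟪V x, y⟫_ℂ := by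
  unfold adj
  rw [ContinuousLinearMap.adjoint_inner_right]
  rfl

theorem adj_inner' (V : E →ₗᵢ[ℂ] M) (x : E) (y : M) : ⟪adj V y, x⟫_ℂ = ⟪y, V x⟫_ℂ := by
  unfold adj
  rw [ContinuousLinearMap.adjoint_inner_left]
  rfl

/-- the compression -/
noncomputable def cmp (V : E →ₗᵢ[ℂ] M) : (M →L[ℂ] M) →ₗ[ℂ] (E →L[ℂ] E) where
  toFun x := (adj V).comp (x.comp V.toContinuousLinearMap)
  map_add' x y := by ext z; simp
  map_smul' c x := by ext z; simp

/-- the amplification -/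
noncomputable def amp (V : E →ₗᵢ[ℂ] M) : (E →L[ℂ] E) →ₗ[ℂ] (M →L[ℂ] M) where
  toFun x := V.toContinuousLinearMap.comp (x.comp (adj V))
  map_add' x y := by ext z; simp
  map_smul' c x := by ext z; simp

theorem cmp_apply (V : E →ₗᵢ[ℂ] M) (x : M →L[ℂ] M) (z : E) : cmp V x z = adj V (x (V z)) := rfl

theorem amp_apply (V : E →ₗᵢ[ℂ] M) (x : E →L[ℂ] E) (z : M) : amp V x z = V (x (adj V z)) := rfl

theorem cmp_amp (V : E →ₗᵢ[ℂ] M) (x : E →L[ℂ] E) : cmp V (amp V x) = x := by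
  ext z
  rw [cmp_apply, amp_apply, adj_apply, adj_apply]

theorem cmp_one (V : E →ₗᵢ[ℂ] M) : cmp V 1 = 1 := by
  ext z
  rw [cmp_apply]
  exact adj_apply V z

theorem cmp_star (V : E →ₗᵢ[ℂ] M) (x : M →L[ℂ] M) : cmp V (star x) = star (cmp V x) := by
  ext z
  apply ext_inner_left ℂ
  intro v
  rw [cmp_apply, adj_inner, ContinuousLinearMap.star_eq_adjoint, ContinuousLinearMap.star_eq_adjoint,
    ContinuousLinearMap.adjoint_inner_right, ContinuousLinearMap.adjoint_inner_right, cmp_apply,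
    adj_inner']

theorem amp_star (V : E →ₗᵢ[ℂ] M) (x : E →L[ℂ] E) : amp V (star x) = star (amp V x) := by
  ext z
  apply ext_inner_left ℂ
  intro v
  rw [amp_apply, ContinuousLinearMap.star_eq_adjoint, ContinuousLinearMap.star_eq_adjoint,
    ContinuousLinearMap.adjoint_inner_right, amp_apply, ← adj_inner',
    ContinuousLinearMap.adjoint_inner_right, ← adj_inner]

theorem amp_mul (V : E →ₗᵢ[ℂ] M) (x y : E →L[ℂ] E) : amp V (x * y) = amp V x * amp V y := by
  ext z
  show V (x (y (adj V z))) = V (x (adj V (V (y (adj V z)))))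
  rw [adj_apply]

theorem cmp_mid (V : E →ₗᵢ[ℂ] M) (x y : M →L[ℂ] M) (t : E →L[ℂ] E) :
    cmp V (x * amp V t * y) = cmp V x * t * cmp V y := rfl

theorem amp_injective (V : E →ₗᵢ[ℂ] M) : Function.Injective (amp V) := by
  intro x y h
  rw [← cmp_amp V x, ← cmp_amp V y, h]

/-- compression of a tensor -/
noncomputable def cmp2 (V : E →ₗᵢ[ℂ] M) (W : F →ₗᵢ[ℂ] L) :
    (M →L[ℂ] M) ⊗[ℂ] (L →L[ℂ] L) →ₗ[ℂ] (E →L[ℂ] E) ⊗[ℂ] (F →L[ℂ] F) :=
  TensorProduct.map (cmp V) (cmp W)

/-- amplification of a tensor -/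
noncomputable def amp2 (V : E →ₗᵢ[ℂ] M) (W : F →ₗᵢ[ℂ] L) :
    (E →L[ℂ] E) ⊗[ℂ] (F →L[ℂ] F) →ₗ[ℂ] (M →L[ℂ] M) ⊗[ℂ] (L →L[ℂ] L) :=
  TensorProduct.map (amp V) (amp W)

variable (V : E →ₗᵢ[ℂ] M) (W : F →ₗᵢ[ℂ] L)

theorem cmp2_amp2 (t : (E →L[ℂ] E) ⊗[ℂ] (F →L[ℂ] F)) : cmp2 V W (amp2 V W t) = t := by
  induction t using TensorProduct.induction_on with
  | zero => simp
  | tmul x y =>
    show cmp V (amp V x) ⊗ₜ[ℂ] cmp W (amp W y) = _
    rw [cmp_amp, cmp_amp]
  | add s t hs ht => rw [map_add, map_add, hs, ht]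

theorem cmp2_one : cmp2 V W 1 = 1 := by
  show cmp V 1 ⊗ₜ[ℂ] cmp W 1 = _
  rw [cmp_one, cmp_one]
  rfl

theorem cmp2_star (t : (M →L[ℂ] M) ⊗[ℂ] (L →L[ℂ] L)) : cmp2 V W (star t) = star (cmp2 V W t) := by
  induction t using TensorProduct.induction_on with
  | zero => simp
  | tmul x y =>
    rw [TensorProduct.star_tmul]
    show cmp V (star x) ⊗ₜ[ℂ] cmp W (star y) = star (cmp V x ⊗ₜ[ℂ] cmp W y)
    rw [TensorProduct.star_tmul, cmp_star, cmp_star]
  | add s t hs ht => rw [star_add, map_add, map_add, hs, ht, star_add]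

theorem amp2_star (t : (E →L[ℂ] E) ⊗[ℂ] (F →L[ℂ] F)) : amp2 V W (star t) = star (amp2 V W t) := by
  induction t using TensorProduct.induction_on with
  | zero => simp
  | tmul x y =>
    rw [TensorProduct.star_tmul]
    show amp V (star x) ⊗ₜ[ℂ] amp W (star y) = star (amp V x ⊗ₜ[ℂ] amp W y)
    rw [TensorProduct.star_tmul, amp_star, amp_star]
  | add s t hs ht => rw [star_add, map_add, map_add, hs, ht, star_add]

theorem amp2_mul (s t : (E →L[ℂ] E) ⊗[ℂ] (F →L[ℂ] F)) :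
    amp2 V W (s * t) = amp2 V W s * amp2 V W t := by
  induction s using TensorProduct.induction_on with
  | zero => simp
  | add s s' hs hs' => rw [add_mul, map_add, map_add, hs, hs', add_mul]
  | tmul x y =>
    induction t using TensorProduct.induction_on with
    | zero => simp
    | add t t' ht ht' => rw [mul_add, map_add, map_add, ht, ht', mul_add]
    | tmul x' y' =>
      rw [Algebra.TensorProduct.tmul_mul_tmul]
      show amp V (x * x') ⊗ₜ[ℂ] amp W (y * y') = (amp V x ⊗ₜ[ℂ] amp W y) * (amp V x' ⊗ₜ[ℂ] amp W y')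
      rw [Algebra.TensorProduct.tmul_mul_tmul, amp_mul, amp_mul]

theorem cmp2_mid (s : (M →L[ℂ] M) ⊗[ℂ] (L →L[ℂ] L)) (t : (E →L[ℂ] E) ⊗[ℂ] (F →L[ℂ] F))
    (r : (M →L[ℂ] M) ⊗[ℂ] (L →L[ℂ] L)) :
    cmp2 V W (s * amp2 V W t * r) = cmp2 V W s * t * cmp2 V W r := by
  induction s using TensorProduct.induction_on with
  | zero => simp
  | add s s' hs hs' => rw [add_mul, add_mul, map_add, map_add, hs, hs', add_mul, add_mul]
  | tmul x y =>
    induction t using TensorProduct.induction_on with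
    | zero => simp
    | add t t' ht ht' => rw [map_add, mul_add, add_mul, map_add, ht, ht', mul_add, add_mul]
    | tmul x' y' =>
      induction r using TensorProduct.induction_on with
      | zero => simp
      | add r r' hr hr' => rw [mul_add, map_add, map_add, hr, hr', mul_add]
      | tmul x'' y'' =>
        show cmp2 V W ((x ⊗ₜ[ℂ] y) * (amp V x' ⊗ₜ[ℂ] amp W y') * (x'' ⊗ₜ[ℂ] y'')) =
          (cmp V x ⊗ₜ[ℂ] cmp W y) * (x' ⊗ₜ[ℂ] y') * (cmp V x'' ⊗ₜ[ℂ] cmp W y'')
        rw [Algebra.TensorProduct.tmul_mul_tmul, Algebra.TensorProduct.tmul_mul_tmul,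
          Algebra.TensorProduct.tmul_mul_tmul, Algebra.TensorProduct.tmul_mul_tmul]
        show cmp V (x * amp V x' * x'') ⊗ₜ[ℂ] cmp W (y * amp W y' * y'') = _
        rw [cmp_mid, cmp_mid]

theorem amp2_injective : Function.Injective (amp2 V W) := by
  intro s t h
  rw [← cmp2_amp2 V W s, ← cmp2_amp2 V W t, h]

/-- amplifications compose -/
theorem amp_comp {G : Type} [NormedAddCommGroup G] [InnerProductSpace ℂ G] [CompleteSpace G]
    (V : E →ₗᵢ[ℂ] M) (U : M →ₗᵢ[ℂ] G) (x : E →L[ℂ] E) :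
    amp (U.comp V) x = amp U (amp V x) := by
  have h : ∀ z, adj (U.comp V) z = adj V (adj U z) := by
    intro z
    apply ext_inner_left ℂ
    intro v
    rw [adj_inner, adj_inner, adj_inner]
    rfl
  ext z
  rw [amp_apply, amp_apply, amp_apply, h]
  rfl

end

end Pool.Agent.H86.CN
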