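import Pool.Agent.H86.CN.Glue

/-!
Simultaneous block diagonalization of finitely many operators on a nonseparable Hilbert space, with
separable blocks.
-/

set_option autoImplicit false
set_option linter.unusedSectionVars false

open Filter Topology Cardinal
open scoped InnerProductSpace

namespace Pool.Agent.H86.CN

/-- the classes of a relation with countable degrees are countable -/
theorem countable_class {X : Type} (N : X → Set X) (hN : ∀ x, (N x).Countable)
    (hsymm : ∀ x y, y ∈ N x → x ∈ N y) (x : X) :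
    {y | Relation.EqvGen (fun u v => v ∈ N u) x y}.Countable := by
  obtain ⟨B, hB0, hB1⟩ : ∃ B : ℕ → Set X, B 0 = {x} ∧ ∀ n, B (n + 1) = ⋃ z ∈ B n, N z :=
    ⟨fun n => Nat.rec {x} (fun _ s => ⋃ z ∈ s, N z) n, rfl, fun n => rfl⟩
  have hBc : ∀ n, (B n).Countable := by
    intro n
    induction n with
    | zero => rw [hB0]; exact Set.countable_singleton x
    | succ n ih => rw [hB1]; exact ih.biUnion fun z _ => hN z
  refine (Set.countable_iUnion hBc).mono ?_
  have key : ∀ u v, Relation.EqvGen (fun u v => v ∈ N u) u v → (u ∈ ⋃ n, B n ↔ v ∈ ⋃ n, B n) := by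
    intro u v h
    induction h with
    | rel u v h =>
      constructor
      · intro hu
        obtain ⟨n, hn⟩ := Set.mem_iUnion.1 hu
        refine Set.mem_iUnion.2 ⟨n + 1, ?_⟩
        rw [hB1]
        exact Set.mem_biUnion hn h
      · intro hu
        obtain ⟨n, hn⟩ := Set.mem_iUnion.1 hu
        refine Set.mem_iUnion.2 ⟨n + 1, ?_⟩
        rw [hB1]
        exact Set.mem_biUnion hn (hsymm _ _ h)
    | refl u => exact Iff.rfl
    | symm u v _ ih => exact ih.symm
    | trans u v w _ _ ih1 ih2 => exact ih1.trans ih2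
  intro y hy
  refine (key x y hy).1 (Set.mem_iUnion.2 ⟨0, ?_⟩)
  rw [hB0]
  exact Set.mem_singleton x

theorem exists_groups {X : Type} (hX : ℵ₀ < #X) (N : X → Set X) (hN : ∀ x, (N x).Countable)
    (hsymm : ∀ x y, y ∈ N x → x ∈ N y) :
    ∃ σ : X ≃ X × ℕ, ∀ x y, y ∈ N x → (σ x).1 = (σ y).1 := by
  classical
  let s : Setoid X := Relation.EqvGen.setoid (fun u v => v ∈ N u)
  let Q := Quotient s
  let π : X → Q := Quotient.mk s
  have hπ : Function.Surjective π := Quotient.mk_surjective
  have hfib : ∀ q : Q, (π ⁻¹' {q}).Countable := by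
    intro q
    obtain ⟨x, rfl⟩ := hπ q
    refine (countable_class N hN hsymm x).mono ?_
    intro y hy
    have h : π y = π x := hy
    exact (Quotient.exact h).symm
  have hXQ : #X ≤ #Q * ℵ₀ := by
    rw [Cardinal.mk_congr (Equiv.sigmaFiberEquiv π).symm, Cardinal.mk_sigma]
    calc Cardinal.sum (fun q => #{x // π x = q}) ≤ Cardinal.sum (fun _ : Q => ℵ₀) := by
          apply Cardinal.sum_le_sum
          intro q
          exact Cardinal.mk_le_aleph0_iff.2 (hfib q).to_subtype
      _ = #Q * ℵ₀ := by rw [Cardinal.sum_const']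
  have hQ : ℵ₀ < #Q := by
    by_contra h
    push Not at h
    have : #X ≤ ℵ₀ := hXQ.trans ((mul_le_mul' h le_rfl).trans (by rw [Cardinal.aleph0_mul_aleph0]))
    exact absurd hX (not_lt.2 this)
  have hQX : #Q = #X := by
    apply le_antisymm (Cardinal.mk_le_of_surjective hπ)
    rwa [Cardinal.mul_aleph0_eq hQ.le] at hXQ
  have hθ : #Q = #(Q × ℕ) := by
    rw [Cardinal.mk_prod, Cardinal.lift_id, Cardinal.lift_id, Cardinal.mk_nat,
      Cardinal.mul_aleph0_eq hQ.le]
  obtain ⟨θ⟩ := Cardinal.eq.1 hθ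
  obtain ⟨κ⟩ := Cardinal.eq.1 hQX
  let g : X → Q := fun x => (θ (π x)).1
  have hg : ∀ q : Q, Nonempty ({x // g x = q} ≃ ℕ) := by
    intro q
    have hc : {x | g x = q}.Countable := by
      have : {x | g x = q} ⊆ ⋃ m : ℕ, π ⁻¹' {θ.symm (q, m)} := by
        intro x hx
        refine Set.mem_iUnion.2 ⟨(θ (π x)).2, ?_⟩
        show π x = θ.symm (q, (θ (π x)).2)
        rw [Equiv.eq_symm_apply]
        exact Prod.ext hx rfl
      exact (Set.countable_iUnion fun m => hfib _).mono this
    have hi : Infinite {x // g x = q} := by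
      choose y hy using fun m : ℕ => hπ (θ.symm (q, m))
      refine Infinite.of_injective (fun m : ℕ => (⟨y m, ?_⟩ : {x // g x = q})) ?_
      · show (θ (π (y m))).1 = q
        rw [hy, Equiv.apply_symm_apply]
      · intro m m' h
        have h1 : y m = y m' := congrArg Subtype.val h
        have h2 : θ.symm (q, m) = θ.symm (q, m') := by rw [← hy m, ← hy m', h1]
        exact congrArg Prod.snd (θ.symm.injective h2)
    have : Countable {x // g x = q} := hc.to_subtype
    exact nonempty_equiv_of_countable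
  have G : ∀ q : Q, {x // g x = q} ≃ ℕ := fun q => (hg q).some
  let σ : X ≃ X × ℕ := (Equiv.sigmaFiberEquiv g).symm.trans
    ((Equiv.sigmaCongrRight G).trans ((Equiv.sigmaEquivProd Q ℕ).trans (κ.prodCongr (Equiv.refl ℕ))))
  refine ⟨σ, fun x y hxy => ?_⟩
  have h1 : π x = π y := Quotient.sound (Relation.EqvGen.rel _ _ hxy)
  show κ (g x) = κ (g y)
  simp only [g, h1]

section

variable {E H : Type} [NormedAddCommGroup E] [InnerProductSpace ℂ E] [CompleteSpace E]
  [NormedAddCommGroup H] [InnerProductSpace ℂ H] [CompleteSpace H]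

theorem exists_reindex {X Y : Type} (e : HilbertBasis X ℂ H) (σ : X ≃ Y) :
    ∃ b : HilbertBasis Y ℂ H, ∀ y, b y = e (σ.symm y) := by
  refine ⟨HilbertBasis.mk (v := fun y => e (σ.symm y)) (e.orthonormal.comp _ σ.symm.injective) ?_,
    fun y => by rw [HilbertBasis.coe_mk]⟩
  have h : Set.range (fun y => e (σ.symm y)) = Set.range e := by
    ext v
    constructor
    · rintro ⟨y, rfl⟩
      exact ⟨_, rfl⟩
    · rintro ⟨x, rfl⟩
      exact ⟨σ x, by simp⟩
  rw [h, e.dense_span]

theorem countable_inner {X : Type} (e : HilbertBasis X ℂ H) (v : H) :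
    {x | ⟪e x, v⟫_ℂ ≠ 0}.Countable := by
  have h1 := (e.orthonormal.inner_products_summable v).countable_support
  refine h1.mono ?_
  intro x hx
  rw [Function.mem_support]
  have : ‖⟪e x, v⟫_ℂ‖ ≠ 0 := norm_ne_zero_iff.2 hx
  exact pow_ne_zero 2 this

/-- the index of the blocks -/
theorem exists_blocks {X : Type} (e : HilbertBasis X ℂ H) (hX : ℵ₀ ≤ #X) :
    ∃ I : Type, #I ≤ #X ∧ ∀ (n : ℕ) (a : Fin n → H →L[ℂ] H), ∃ b : HilbertBasis (I × ℕ) ℂ H,
      ∀ k i m i' m', i ≠ i' → ⟪b (i, m), a k (b (i', m'))⟫_ℂ = 0 := by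
  classical
  rcases hX.eq_or_lt with hX | hX
  · refine ⟨Unit, ?_, fun n a => ?_⟩
    · rw [← hX]
      simp
    · have : #X = #(Unit × ℕ) := by
        rw [← hX]; simp
      obtain ⟨σ⟩ := Cardinal.eq.1 this
      obtain ⟨b, _⟩ := exists_reindex e σ
      exact ⟨b, fun k i m i' m' h => absurd (Subsingleton.elim i i') h⟩
  · refine ⟨X, le_rfl, fun n a => ?_⟩
    obtain ⟨σ, hσ⟩ := exists_groups hX
      (fun x => ⋃ k, ({y | ⟪e y, a k (e x)⟫_ℂ ≠ 0} ∪ {y | ⟪e y, star (a k) (e x)⟫_ℂ ≠ 0}))
      (fun x => Set.countable_iUnion fun k => (countable_inner e _).union (countable_inner e _))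
      (by
        intro x y hxy
        obtain ⟨k, hk⟩ := Set.mem_iUnion.1 hxy
        refine Set.mem_iUnion.2 ⟨k, ?_⟩
        rcases hk with hk | hk
        · refine Or.inr ?_
          intro h
          apply hk
          rw [ContinuousLinearMap.star_eq_adjoint, ContinuousLinearMap.adjoint_inner_right] at h
          rw [← inner_conj_symm, h, map_zero]
        · refine Or.inl ?_
          intro h
          apply hk
          rw [ContinuousLinearMap.star_eq_adjoint, ContinuousLinearMap.adjoint_inner_right,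
            ← inner_conj_symm, h, map_zero])
    obtain ⟨b, hb⟩ := exists_reindex e σ
    refine ⟨b, fun k i m i' m' hii' => ?_⟩
    rw [hb, hb]
    by_contra h
    apply hii'
    have h2 := hσ (σ.symm (i', m')) (σ.symm (i, m)) (Set.mem_iUnion.2 ⟨k, Or.inl h⟩)
    rw [Equiv.apply_symm_apply, Equiv.apply_symm_apply] at h2
    exact h2.symm

/-- the blocks as operators on the model space -/
theorem exists_compress {I : Type} {n : ℕ} (b : HilbertBasis (I × ℕ) ℂ H) (ε : HilbertBasis ℕ ℂ E)
    (a : Fin n → H →L[ℂ] H)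
    (hb : ∀ k i m i' m', i ≠ i' → ⟪b (i, m), a k (b (i', m'))⟫_ℂ = 0) :
    ∃ (ι : I → E →ₗᵢ[ℂ] H) (t : I → Fin n → E →L[ℂ] E), (∀ i m, ι i (ε m) = b (i, m)) ∧
      ∀ i k x, a k (ι i x) = ι i (t i k x) := by
  classical
  have h1 : ∀ i, ∃ U : E →ₗᵢ[ℂ] H, ∀ m, U (ε m) = b (i, m) := by
    intro i
    apply exists_isom ε
    constructor
    · intro m
      exact b.orthonormal.1 _
    · intro m m' hm
      exact b.orthonormal.2 (fun h => hm (congrArg Prod.snd h))
  choose ι hι using h1
  refine ⟨ι, fun i k => (ContinuousLinearMap.adjoint (ι i).toContinuousLinearMap).comp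
    ((a k).comp (ι i).toContinuousLinearMap), hι, fun i k x => ?_⟩
  have horth := isom_orth b ε ι hι
  have h2 : (a k).comp (ι i).toContinuousLinearMap = (ι i).toContinuousLinearMap.comp
      ((ContinuousLinearMap.adjoint (ι i).toContinuousLinearMap).comp
        ((a k).comp (ι i).toContinuousLinearMap)) := by
    apply clm_ext ε
    intro m
    apply b.repr.injective
    ext p
    rw [b.repr_apply_apply, b.repr_apply_apply]
    obtain ⟨i', m'⟩ := p
    by_cases hi : i' = i
    · subst hi
      show ⟪b (i', m'), a k (ι i' (ε m))⟫_ℂ = ⟪b (i', m'), ι i'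
        (ContinuousLinearMap.adjoint (ι i').toContinuousLinearMap (a k (ι i' (ε m))))⟫_ℂ
      rw [← hι i' m', LinearIsometry.inner_map_map, ContinuousLinearMap.adjoint_inner_right]
      rfl
    · show ⟪b (i', m'), a k (ι i (ε m))⟫_ℂ = ⟪b (i', m'), ι i _⟫_ℂ
      rw [← hι i' m', horth i' i _ _ hi, hι, hι, hb k i' m' i m hi]
  exact congrArg (fun L : E →L[ℂ] H => L x) h2

end

end Pool.Agent.H86.CN
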