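import Pool.Agent.H86.CN.Lev3

/-!
The Calkin algebra: levels.
-/

set_option autoImplicit false
set_option linter.unusedSectionVars false

open Filter Topology Cardinal
open scoped InnerProductSpace TensorProduct ComplexOrder

namespace Pool.Agent.H86.CN

open Pool.Agent.Helper965.CN

/-- a C*-seminorm descends to a C*-norm on the quotient by its kernel -/
theorem descend2 {C D : Type} [Ring C] [StarRing C] [Algebra ℂ C] [Ring D] [StarRing D]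
    [Algebra ℂ D] (π : C →ₗ[ℂ] D) (hπ : Function.Surjective π)
    (hπm : ∀ s t, π (s * t) = π s * π t) (hπs : ∀ s, π (star s) = star (π s)) (N : C → ℝ)
    (h0 : (∀ x, 0 ≤ N x) ∧ (∀ x y, N (x + y) ≤ N x + N y) ∧
      (∀ (c : ℂ) (x : C), N (c • x) = ‖c‖ * N x) ∧
      (∀ x y, N (x * y) ≤ N x * N y) ∧ (∀ x, N (star x) = N x) ∧
      (∀ x, N (star x * x) = N x ^ 2))
    (hker : ∀ s, N s = 0 ↔ π s = 0) :
    ∃ N' : D → ℝ, IsCStarNorm N' ∧ ∀ s, N' (π s) = N s := by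
  obtain ⟨hn, hadd, hsm, hmul, hstar, hcs⟩ := h0
  have hle : ∀ s t, π s = π t → N s ≤ N t := by
    intro s t h
    have h1 : N (s - t) = 0 := (hker _).2 (by rw [map_sub, h, sub_self])
    have h2 := hadd (s - t) t
    rw [sub_add_cancel, h1, zero_add] at h2
    exact h2
  have heq : ∀ s t, π s = π t → N s = N t := fun s t h => le_antisymm (hle s t h) (hle t s h.symm)
  have key : ∀ s, N (Function.surjInv hπ (π s)) = N s := fun s =>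
    heq _ _ (Function.surjInv_eq hπ (π s))
  refine ⟨fun x => N (Function.surjInv hπ x), ⟨?_, ?_, ?_, ?_, ?_, ?_, ?_⟩, key⟩
  · intro x; exact hn _
  · intro x hx
    obtain ⟨s, rfl⟩ := hπ x
    have hx' : N (Function.surjInv hπ (π s)) = 0 := hx
    rw [key] at hx'
    exact (hker s).1 hx'
  · intro x y
    obtain ⟨s, rfl⟩ := hπ x
    obtain ⟨t, rfl⟩ := hπ y
    show N (Function.surjInv hπ (π s + π t)) ≤
      N (Function.surjInv hπ (π s)) + N (Function.surjInv hπ (π t))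
    rw [← map_add, key, key, key]
    exact hadd s t
  · intro c x
    obtain ⟨s, rfl⟩ := hπ x
    show N (Function.surjInv hπ (c • π s)) = ‖c‖ * N (Function.surjInv hπ (π s))
    rw [← map_smul, key, key]
    exact hsm c s
  · intro x y
    obtain ⟨s, rfl⟩ := hπ x
    obtain ⟨t, rfl⟩ := hπ y
    show N (Function.surjInv hπ (π s * π t)) ≤
      N (Function.surjInv hπ (π s)) * N (Function.surjInv hπ (π t))
    rw [← hπm, key, key, key]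
    exact hmul s t
  · intro x
    obtain ⟨s, rfl⟩ := hπ x
    show N (Function.surjInv hπ (star (π s))) = N (Function.surjInv hπ (π s))
    rw [← hπs, key, key]
    exact hstar s
  · intro x
    obtain ⟨s, rfl⟩ := hπ x
    show N (Function.surjInv hπ (star (π s) * π s)) = N (Function.surjInv hπ (π s)) ^ 2
    rw [← hπs, ← hπm, key, key]
    exact hcs s

section

variable {H K M : Type} [NormedAddCommGroup H] [InnerProductSpace ℂ H] [CompleteSpace H]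
  [NormedAddCommGroup K] [InnerProductSpace ℂ K] [CompleteSpace K]
  [NormedAddCommGroup M] [InnerProductSpace ℂ M] [CompleteSpace M]

theorem Pi2_ker (φ : (H →L[ℂ] H) ⊗[ℂ] (K →L[ℂ] K) →ₗ[ℂ] ℂ)
    (hφ : ∀ (x : H →L[ℂ] H) (y : K →L[ℂ] K), IsCompactOperator y → φ (x ⊗ₜ y) = 0)
    (s : (H →L[ℂ] H) ⊗[ℂ] (K →L[ℂ] K)) (hs : Pi2 s = 0) : φ s = 0 := by
  have hex : Function.Exact (LinearMap.ker (calkinLin (H := K))).subtype (calkinLin (H := K)) :=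
    LinearMap.exact_subtype_ker_map _
  have h1 := lTensor_exact (H →L[ℂ] H) hex calkinLin_surjective
  have h2 : (LinearMap.lTensor (H →L[ℂ] H) (calkinLin (H := K))) s = 0 := hs
  obtain ⟨t, rfl⟩ := (h1 s).1 h2
  clear h2 hs
  induction t using TensorProduct.induction_on with
  | zero => simp
  | add a b ha hb => rw [map_add, map_add, ha, hb, add_zero]
  | tmul x y =>
    rw [LinearMap.lTensor_tmul]
    refine hφ x _ ?_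
    rw [← calkinMk_eq_zero]
    exact y.2

theorem b1_convHK (φ : (H →L[ℂ] H) ⊗[ℂ] (K →L[ℂ] K) →ₗ[ℂ] ℂ)
    (t w : (H →L[ℂ] H) ⊗[ℂ] (K →L[ℂ] K)) :
    (φ (star w * (star t * t) * w)).re = b1q φ (t * w) := b1_conv φ t w

/-- the base functionals -/
def baseQ (𝒱 : Ultrafilter ℕ) (V₁ : H →ₗᵢ[ℂ] M) (W₁ : K →ₗᵢ[ℂ] M) :
    Set ((H →L[ℂ] H) ⊗[ℂ] (K →L[ℂ] K) →ₗ[ℂ] ℂ) :=
  {ψ | ∃ χ ∈ limS (H := M) 𝒱, ψ = χ.comp (amp2 V₁ W₁)}

theorem Pi2_amp2 (V₁ : H →ₗᵢ[ℂ] M) (W₁ : K →ₗᵢ[ℂ] M) (s : (H →L[ℂ] H) ⊗[ℂ] (K →L[ℂ] K)) :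
    Pi (amp2 V₁ W₁ s) = 0 ↔ Pi2 s = 0 := by
  obtain ⟨q, hq⟩ := exists_calkinAmp W₁
  obtain ⟨hq1, hq2, hq3⟩ := calkinAmp_facts W₁ q hq
  obtain ⟨j, hj⟩ : ∃ j : (H →L[ℂ] H) ⊗[ℂ] Calkin K →ₗ[ℂ] (M →L[ℂ] M) ⊗[ℂ] Calkin M,
      j = TensorProduct.map (amp V₁) q := ⟨_, rfl⟩
  have hj3 : Function.Injective j := by
    rw [hj]
    exact TensorProduct.map_injective_of_flat_flat _ _ (amp_injective V₁) hq3
  have hjPi : ∀ s : (H →L[ℂ] H) ⊗[ℂ] (K →L[ℂ] K), j (Pi2 s) = Pi (amp2 V₁ W₁ s) := by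
    intro s
    induction s using TensorProduct.induction_on with
    | zero => simp
    | add s t hs ht => rw [map_add, map_add, map_add, map_add, hs, ht]
    | tmul x y =>
      rw [hj]
      show amp V₁ x ⊗ₜ[ℂ] q (calkinMk K y) = amp V₁ x ⊗ₜ[ℂ] calkinMk M (amp W₁ y)
      rw [hq]
  rw [← hjPi]
  constructor
  · intro h
    exact hj3 (by rw [h, map_zero])
  · intro h
    rw [h, map_zero]

theorem exists_norm_BQ2 (𝒱 : Ultrafilter ℕ) (h𝒱 : (𝒱 : Filter ℕ) ≤ atTop) (V₁ : H →ₗᵢ[ℂ] M)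
    (W₁ : K →ₗᵢ[ℂ] M) (Ψ : Set ((H →L[ℂ] H) ⊗[ℂ] (K →L[ℂ] K) →ₗ[ℂ] ℂ))
    (hadm : Adm (A := (H →L[ℂ] H) ⊗[ℂ] (K →L[ℂ] K)) (baseQ 𝒱 V₁ W₁ ∪ Ψ))
    (hcpt : ∀ ψ ∈ Ψ, ∀ (x : H →L[ℂ] H) (y : K →L[ℂ] K), IsCompactOperator y → ψ (x ⊗ₜ y) = 0) :
    ∃ N : (H →L[ℂ] H) ⊗[ℂ] Calkin K → ℝ, IsCStarNorm N ∧ ∀ s, N (Pi2 s) =
      cn (A := (H →L[ℂ] H) ⊗[ℂ] (K →L[ℂ] K)) (baseQ 𝒱 V₁ W₁ ∪ Ψ) s := by
  have hcpt' : ∀ ψ ∈ baseQ 𝒱 V₁ W₁ ∪ Ψ, ∀ (x : H →L[ℂ] H) (y : K →L[ℂ] K),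
      IsCompactOperator y → ψ (x ⊗ₜ y) = 0 := by
    rintro ψ (⟨χ, hχ, rfl⟩ | hψ) x y hy
    · rw [LinearMap.comp_apply]
      exact limS_compact h𝒱 hχ (amp V₁ x) (amp W₁ y) (amp_compact W₁ hy)
    · exact hcpt ψ hψ x y hy
  have hne : (baseQ 𝒱 V₁ W₁ ∪ Ψ).Nonempty := by
    obtain ⟨ψ, hψ⟩ := exists_lim (H := M) 𝒱 (fun _ => (0 : M) ⊗ₜ[ℂ] (0 : M)) 0 (fun n => by simp)
    exact ⟨_, Or.inl ⟨ψ, ⟨0, fun _ => 0, fun n => by simp, fun x => by simp, hψ⟩, rfl⟩⟩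
  refine descend2 (C := (H →L[ℂ] H) ⊗[ℂ] (K →L[ℂ] K)) (D := (H →L[ℂ] H) ⊗[ℂ] Calkin K)
    Pi2 Pi2_surjective Pi2_mul Pi2_star _ (cn_seminorm hadm hne) fun s => ?_
  constructor
  · intro hs
    by_contra hPi
    have hnot : amp2 V₁ W₁ s ∉ Submodule.span ℂ {t : (M →L[ℂ] M) ⊗[ℂ] (M →L[ℂ] M) |
        ∃ x y : M →L[ℂ] M, IsCompactOperator y ∧ t = x ⊗ₜ y} := by
      intro hmem
      apply hPi
      rw [← Pi2_amp2 V₁ W₁]
      have hle : Submodule.span ℂ {t : (M →L[ℂ] M) ⊗[ℂ] (M →L[ℂ] M) |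
          ∃ x y : M →L[ℂ] M, IsCompactOperator y ∧ t = x ⊗ₜ y} ≤ LinearMap.ker (Pi (H := M)) := by
        rw [Submodule.span_le]
        rintro _ ⟨x, y, hy, rfl⟩
        show Pi (x ⊗ₜ y) = 0
        rw [Pi_tmul, (calkinMk_eq_zero y).2 hy, TensorProduct.tmul_zero]
      exact hle hmem
    obtain ⟨ξ, η, hη, hw, hnt⟩ := sep_lim 𝒱 h𝒱 (amp2 V₁ W₁ s) hnot
    obtain ⟨ψ, hψ⟩ := exists_lim 𝒱 (fun n => ξ ⊗ₜ[ℂ] η n) ‖ξ‖ (fun n => by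
      rw [TensorProduct.norm_tmul]
      exact mul_le_of_le_one_right (norm_nonneg _) (hη n))
    have hmemS : ψ ∈ limS (H := M) 𝒱 := ⟨ξ, η, hη, hw, hψ⟩
    have hmem : ψ.comp (amp2 V₁ W₁) ∈ baseQ 𝒱 V₁ W₁ ∪ Ψ := Or.inl ⟨ψ, hmemS, rfl⟩
    apply hnt
    have h5 := limS_nf hψ (amp2 V₁ W₁ s)
    have h6 := le_cn hadm hmem s 1
    rw [hs, b1_convHK, mul_one, ← nf_sq (hadm.pos _ hmem), nf_amp2] at h6
    have h7 : nf ψ (amp2 V₁ W₁ s) = 0 := by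
      have h8 : nf ψ (amp2 V₁ W₁ s) ^ 2 ≤ 0 := by simpa using h6
      exact pow_eq_zero_iff two_ne_zero |>.1 (le_antisymm h8 (sq_nonneg _))
    rw [h7] at h5
    exact h5
  · intro hs
    refine le_antisymm ?_ (b1_nonneg (A := (H →L[ℂ] H) ⊗[ℂ] (K →L[ℂ] K)) _ _)
    refine cn_le hadm s 0 le_rfl fun ψ hψ w => ?_
    have h5 : ψ (star w * (star s * s) * w) = 0 := by
      apply Pi2_ker ψ (hcpt' ψ hψ)
      rw [Pi2_mul, Pi2_mul, Pi2_mul, hs]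
      have e1 : Pi2 (star s) * (0 : (H →L[ℂ] H) ⊗[ℂ] Calkin K) = 0 := mul_zero (Pi2 (star s))
      have e2 : Pi2 (star w) * (0 : (H →L[ℂ] H) ⊗[ℂ] Calkin K) = 0 := mul_zero (Pi2 (star w))
      have e3 : (0 : (H →L[ℂ] H) ⊗[ℂ] Calkin K) * Pi2 w = 0 := zero_mul (Pi2 w)
      exact (congrArg (fun u => Pi2 (star w) * u * Pi2 w) e1).trans
        ((congrArg (fun u => u * Pi2 w) e2).trans e3)
    rw [h5]
    simp

/-- norms on `B(H) ⊗ Q(K)` from functionals on `B(H) ⊗ B(K)` with levels -/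
theorem lower_of_functionals (β : Ordinal.{0}) (V₁ : H →ₗᵢ[ℂ] M) (W₁ : K →ₗᵢ[ℂ] M)
    (t : (ℕ → Bool) → (Order.succ β).ToType → (H →L[ℂ] H) ⊗[ℂ] (K →L[ℂ] K))
    (Φ : (ℕ → Bool) → (Order.succ β).ToType → ((H →L[ℂ] H) ⊗[ℂ] (K →L[ℂ] K) →ₗ[ℂ] ℂ))
    (hR : ∀ a γ (ζ : M ⊗[ℂ] M), ‖R (amp2 V₁ W₁ (t a γ)) ζ‖ ≤ (4 - 1 / 10 ^ 12) * ‖ζ‖)
    (hpos : ∀ a γ w, 0 ≤ Φ a γ (star w * w)) (hone : ∀ a γ, Φ a γ 1 = 1)
    (hval : ∀ a γ γ', γ ≤ γ' → Φ a γ (t a γ') = 4)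
    (hup : ∀ a c γ γ', (a ≠ c ∨ γ' < γ) → ∀ w, nf (Φ a γ) (t c γ' * w)
        ≤ (4 - 1 / 10 ^ 12) * nf (Φ a γ) w)
    (hcpt : ∀ a γ (x : H →L[ℂ] H) (y : K →L[ℂ] K), IsCompactOperator y → Φ a γ (x ⊗ₜ y) = 0) :
    (β.card + 1) ^ 𝔠 ≤ #{N : (H →L[ℂ] H) ⊗[ℂ] Calkin K → ℝ // IsCStarNorm N} := by
  obtain ⟨𝒱, h𝒱, _⟩ := exists_ultra Set.univ Set.infinite_univ
  obtain ⟨hadm, hlow, hupp⟩ := cn_levels (Φ₀ := baseQ 𝒱 V₁ W₁)
    (by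
      rintro _ ⟨χ, hχ, rfl⟩ w
      rw [LinearMap.comp_apply, amp2_mul, amp2_star]
      exact limS_pos hχ _) t Φ
    (by
      rintro _ ⟨χ, hχ, rfl⟩ a γ w
      rw [nf_amp2, nf_amp2, amp2_mul]
      exact limS_bound hχ _ _ (hR a γ) _) hpos hone hval hup
  choose N hN hNs using fun h : (ℕ → Bool) → (Order.succ β).ToType =>
    exists_norm_BQ2 𝒱 h𝒱 V₁ W₁ (Set.range fun a => Φ a (h a)) (hadm h)
      (by rintro _ ⟨a, rfl⟩ x y hy; exact hcpt a _ x y hy)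
  have hinj : Function.Injective N := inj_of_levels N (fun a γ => Pi2 (t a γ))
    (fun h a γ ha => by rw [hNs]; exact hlow h a γ ha)
    (fun h a γ ha => by rw [hNs]; exact hupp h a γ ha)
  refine lower_of_levels β (fun h => (⟨N h, hN h⟩ :
    {N : (H →L[ℂ] H) ⊗[ℂ] Calkin K → ℝ // IsCStarNorm N})) ?_
  intro h h' hh
  exact hinj (congrArg Subtype.val hh)

theorem lower_lev_BQ {X Y : Type} [Infinite X] (e : HilbertBasis X ℂ H)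
    (f : HilbertBasis Y ℂ K) (β : Ordinal.{0}) (hY : #Y = ℵ_ β) :
    (β.card + 1) ^ 𝔠 ≤ #{N : (H →L[ℂ] H) ⊗[ℂ] Calkin K → ℝ // IsCStarNorm N} := by
  have hYinf : Infinite Y := by
    rw [Cardinal.infinite_iff, hY]
    exact Cardinal.aleph0_le_aleph β
  obtain ⟨M, E, _, _, _, _, _, _, _, ε, V₁, W₁, V₀, _, _⟩ := exists_embeddings e f
  obtain ⟨g, W, hW⟩ := exists_block_basis f ε
  obtain ⟨s, G, D, Φ, hG1, hG2, hmin, hpos, hone, hval, hup, hcpt, _⟩ :=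
    exists_level_states e g ε W hW V₀ β hY
  obtain ⟨t, ht⟩ : ∃ t : (ℕ → Bool) → (Order.succ β).ToType → (H →L[ℂ] H) ⊗[ℂ] (K →L[ℂ] K),
      ∀ a γ, t a γ = TensorProduct.map (amp V₀) (G γ) (s a) := ⟨_, fun _ _ => rfl⟩
  simp only [← ht] at hval hup
  refine lower_of_functionals β V₁ W₁ t Φ ?_ hpos hone hval hup hcpt
  intro a γ ζ
  rw [ht, amp2_map]
  exact R_diag_le g ε W hW (D γ) (G γ) (hG1 γ) (hG2 γ) (V₁.comp V₀) W₁ (s a) _ (by norm_num)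
    (hmin a) ζ

end

end Pool.Agent.H86.CN
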