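import Pool.Agent.H86.CN.CalkinLev

/-!
The Calkin algebra: levels of the first factor.
-/

set_option autoImplicit false
set_option linter.unusedSectionVars false

open Filter Topology Cardinal
open scoped InnerProductSpace TensorProduct ComplexOrder

namespace Pool.Agent.H86.CN

open Pool.Agent.Helper965.CN

section

variable {E H K M : Type} [NormedAddCommGroup E] [InnerProductSpace ℂ E] [CompleteSpace E]
  [NormedAddCommGroup H] [InnerProductSpace ℂ H] [CompleteSpace H]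
  [NormedAddCommGroup K] [InnerProductSpace ℂ K] [CompleteSpace K]
  [NormedAddCommGroup M] [InnerProductSpace ℂ M] [CompleteSpace M]

/-- the flip of the factors -/
noncomputable def sw : (H →L[ℂ] H) ⊗[ℂ] (K →L[ℂ] K) →ₗ[ℂ] (K →L[ℂ] K) ⊗[ℂ] (H →L[ℂ] H) :=
  (TensorProduct.comm ℂ _ _).toLinearMap

theorem sw_tmul (x : H →L[ℂ] H) (y : K →L[ℂ] K) : sw (x ⊗ₜ[ℂ] y) = y ⊗ₜ[ℂ] x := rfl

theorem sw_mul (s t : (H →L[ℂ] H) ⊗[ℂ] (K →L[ℂ] K)) : sw (s * t) = sw s * sw t := by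
  induction s using TensorProduct.induction_on with
  | zero => simp
  | add s s' hs hs' => rw [add_mul, map_add, map_add, hs, hs', add_mul]
  | tmul x y =>
    induction t using TensorProduct.induction_on with
    | zero => simp
    | add t t' ht ht' => rw [mul_add, map_add, map_add, ht, ht', mul_add]
    | tmul x' y' =>
      rw [Algebra.TensorProduct.tmul_mul_tmul, sw_tmul, sw_tmul, sw_tmul,
        Algebra.TensorProduct.tmul_mul_tmul]

theorem sw_star (s : (H →L[ℂ] H) ⊗[ℂ] (K →L[ℂ] K)) : sw (star s) = star (sw s) := by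
  induction s using TensorProduct.induction_on with
  | zero => simp
  | add s s' hs hs' => rw [star_add, map_add, map_add, hs, hs', star_add]
  | tmul x y => rw [TensorProduct.star_tmul, sw_tmul, sw_tmul, TensorProduct.star_tmul]

theorem sw_sw (s : (H →L[ℂ] H) ⊗[ℂ] (K →L[ℂ] K)) : sw (sw s) = s := by
  induction s using TensorProduct.induction_on with
  | zero => simp
  | add s s' hs hs' => rw [map_add, map_add, hs, hs']
  | tmul x y => rw [sw_tmul, sw_tmul]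

theorem nf_sw (φ : (K →L[ℂ] K) ⊗[ℂ] (H →L[ℂ] H) →ₗ[ℂ] ℂ) (s : (H →L[ℂ] H) ⊗[ℂ] (K →L[ℂ] K)) :
    nf (φ.comp sw) s = nf φ (sw s) := by
  unfold nf b1q
  rw [LinearMap.comp_apply, sw_mul, sw_star]

theorem amp2_sw (V₁ : H →ₗᵢ[ℂ] M) (W₁ : K →ₗᵢ[ℂ] M) (t : (K →L[ℂ] K) ⊗[ℂ] (H →L[ℂ] H)) :
    amp2 V₁ W₁ (sw t) = sw (amp2 W₁ V₁ t) := by
  induction t using TensorProduct.induction_on with
  | zero => simp
  | add s s' hs hs' => rw [map_add, map_add, map_add, map_add, hs, hs']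
  | tmul x y => rfl

theorem R_sw (a : (M →L[ℂ] M) ⊗[ℂ] (M →L[ℂ] M)) (ζ : M ⊗[ℂ] M) :
    R (sw a) ζ = TensorProduct.comm ℂ M M (R a (TensorProduct.comm ℂ M M ζ)) := by
  induction a using TensorProduct.induction_on with
  | zero => simp
  | add s s' hs hs' =>
    rw [map_add, map_add, map_add, LinearMap.add_apply, LinearMap.add_apply, hs, hs', map_add]
  | tmul x y =>
    induction ζ using TensorProduct.induction_on with
    | zero => simp
    | add ζ ζ' h h' => rw [map_add, h, h', map_add, map_add, map_add]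
    | tmul p q =>
      rw [sw_tmul, R_tmul, R_tmul]
      rfl

theorem norm_R_sw (a : (M →L[ℂ] M) ⊗[ℂ] (M →L[ℂ] M)) (C : ℝ)
    (h : ∀ ζ : M ⊗[ℂ] M, ‖R a ζ‖ ≤ C * ‖ζ‖) (ζ : M ⊗[ℂ] M) : ‖R (sw a) ζ‖ ≤ C * ‖ζ‖ := by
  rw [R_sw, TensorProduct.norm_comm]
  refine (h _).trans ?_
  rw [TensorProduct.norm_comm]

theorem lower_lev_BQ' {X Y : Type} [Infinite Y] (e : HilbertBasis X ℂ H)
    (f : HilbertBasis Y ℂ K) (α : Ordinal.{0}) (hX : #X = ℵ_ α) :
    (α.card + 1) ^ 𝔠 ≤ #{N : (H →L[ℂ] H) ⊗[ℂ] Calkin K → ℝ // IsCStarNorm N} := by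
  have hXinf : Infinite X := by
    rw [Cardinal.infinite_iff, hX]
    exact Cardinal.aleph0_le_aleph α
  obtain ⟨M, E, _, _, _, _, _, _, _, ε, V₁, W₁, _, W₀, _⟩ := exists_embeddings e f
  obtain ⟨g, W, hW⟩ := exists_block_basis e ε
  obtain ⟨s, G, D, Φ, hG1, hG2, hmin, hpos, hone, hval, hup, _, hcpt⟩ :=
    exists_level_states f g ε W hW W₀ α hX
  obtain ⟨t, ht⟩ : ∃ t : (ℕ → Bool) → (Order.succ α).ToType → (K →L[ℂ] K) ⊗[ℂ] (H →L[ℂ] H),
      ∀ a γ, t a γ = TensorProduct.map (amp W₀) (G γ) (s a) := ⟨_, fun _ _ => rfl⟩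
  simp only [← ht] at hval hup
  refine lower_of_functionals α V₁ W₁ (fun a γ => sw (t a γ)) (fun a γ => (Φ a γ).comp sw)
    ?_ ?_ ?_ ?_ ?_ ?_
  · intro a γ ζ
    rw [amp2_sw]
    apply norm_R_sw
    intro ζ
    rw [ht, amp2_map]
    exact R_diag_le g ε W hW (D γ) (G γ) (hG1 γ) (hG2 γ) (W₁.comp W₀) V₁ (s a) _ (by norm_num)
      (hmin a) ζ
  · intro a γ w
    rw [LinearMap.comp_apply, sw_mul, sw_star]
    exact hpos a γ _
  · intro a γ
    exact hone a γ
  · intro a γ γ' h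
    rw [LinearMap.comp_apply, sw_sw]
    exact hval a γ γ' h
  · intro a c γ γ' h w
    rw [nf_sw, nf_sw, sw_mul, sw_sw]
    exact hup a c γ γ' h _
  · intro a γ x y hy
    rw [LinearMap.comp_apply, sw_tmul]
    exact hcpt a γ y x hy

end

end Pool.Agent.H86.CN
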