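import Mathlib

/-!
Injective choice from countably many uncountable sets.
-/

set_option autoImplicit false

open Cardinal Set Ordinal

namespace Pool.Agent.H86.CN

/-- Injective choice: the demand `p` has the colour `c p`, there are countably many colours, the set
`A (c p)` of admissible values is uncountable and at least as large as the set of the demands of
the colour. -/
theorem exists_inj_choice {P C Y : Type} [Countable C] (c : P → C) (A : C → Set Y)
    (h1 : ∀ p, ℵ₀ < #(A (c p))) (h2 : ∀ p, #{q // c q = c p} ≤ #(A (c p))) :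
    ∃ f : P → Y, Function.Injective f ∧ ∀ p, f p ∈ A (c p) := by
  classical
  -- a well-order of each fibre
  have hw : ∀ p : P, ∃ ξ : {q // c q = c p} → Ordinal.{0}, Function.Injective ξ ∧
      ∀ q, (ξ q).card < #(A (c p)) := by
    intro p
    obtain ⟨r, wo, hr⟩ := Cardinal.exists_ord_eq {q // c q = c p}
    refine ⟨fun q => Ordinal.typein r q, fun q q' h => Ordinal.typein_injective r h, fun q => ?_⟩
    have : Ordinal.typein r q < (#{q // c q = c p}).ord := by
      rw [hr]; exact Ordinal.typein_lt_type r q
    rw [Cardinal.lt_ord] at this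
    exact this.trans_le (h2 p)
  have hw' : ∀ d : C, ∃ ξ : P → Ordinal.{0}, (∀ q q', c q = d → c q' = d → ξ q = ξ q' → q = q') ∧
      ∀ q, c q = d → (ξ q).card < #(A d) := by
    intro d
    by_cases hd : ∃ p, c p = d
    · obtain ⟨p, rfl⟩ := hd
      obtain ⟨ξ, hξ1, hξ2⟩ := hw p
      refine ⟨fun q => if h : c q = c p then ξ ⟨q, h⟩ else 0, ?_, ?_⟩
      · intro q q' hq hq' h
        simp only [dif_pos hq, dif_pos hq'] at h
        exact congrArg Subtype.val (hξ1 h)
      · intro q hq
        simp only [dif_pos hq]
        exact hξ2 _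
    · push Not at hd
      exact ⟨fun _ => 0, fun q _ hq => absurd hq (hd q), fun q hq => absurd hq (hd q)⟩
  choose ξ hξ1 hξ2 using hw'
  obtain ⟨k, hk⟩ := Countable.exists_injective_nat C
  let rank : P → Ordinal.{0} ×ₗ ℕ := fun p => toLex (ξ (c p) p, k (c p))
  have hrank : Function.Injective rank := by
    intro p q h
    have h' : ξ (c p) p = ξ (c q) q ∧ k (c p) = k (c q) := by
      have := congrArg ofLex h
      simpa [rank] using this
    have hc := hk h'.2
    exact hξ1 (c p) p q rfl hc.symm (by rw [h'.1, hc])
  -- initial segments are small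
  have hseg : ∀ p, #{q // rank q < rank p} < #(A (c p)) := by
    intro p
    have hinj : Function.Injective (fun q : {q // rank q < rank p} =>
        ((⟨ξ (c q.1) q.1, by
          have h := q.2
          rw [Prod.Lex.toLex_lt_toLex] at h
          rcases h with h | h
          · exact Order.lt_succ_of_le h.le
          · exact Order.lt_succ_of_le (le_of_eq h.1)⟩, k (c q.1)) :
          Set.Iio (Order.succ (ξ (c p) p)) × ℕ)) := by
      intro q q' h
      apply Subtype.ext
      apply hrank
      have h1 := congrArg Prod.fst h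
      have h2 := congrArg Prod.snd h
      simp only [Subtype.mk.injEq] at h1
      simp only at h2
      show toLex (_, _) = toLex (_, _)
      rw [h1, h2]
    have h3 := Cardinal.lift_mk_le_lift_mk_of_injective hinj
    rw [Cardinal.mk_prod, Cardinal.mk_Iio_ordinal] at h3
    simp only [Cardinal.mk_nat, Cardinal.lift_aleph0, Cardinal.lift_uzero, Cardinal.lift_id] at h3
    have h4 : Cardinal.lift.{1} #{q // rank q < rank p} ≤
        Cardinal.lift.{1} ((Order.succ (ξ (c p) p)).card * ℵ₀) := by
      rw [Cardinal.lift_mul, Cardinal.lift_aleph0]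
      simpa using h3
    rw [Cardinal.lift_le] at h4
    refine h4.trans_lt ?_
    rw [Ordinal.card_succ]
    apply Cardinal.mul_lt_of_lt (h1 p).le _ (h1 p)
    exact Cardinal.add_lt_of_lt (h1 p).le (hξ2 (c p) p rfl)
      (Cardinal.one_lt_aleph0.trans (h1 p))
  have hwf : WellFounded (fun p q : P => rank p < rank q) := InvImage.wf rank wellFounded_lt
  have key : ∀ (p : P) (g : (q : P) → rank q < rank p → Y),
      ∃ y ∈ A (c p), ∀ q h, g q h ≠ y := by
    intro p g
    by_contra hcon
    push Not at hcon
    have hle : #(A (c p)) ≤ #{q // rank q < rank p} := by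
      choose q hq1 hq2 using hcon
      refine Cardinal.mk_le_of_injective (f := fun y : A (c p) =>
        (⟨q y.1 y.2, hq1 y.1 y.2⟩ : {q // rank q < rank p})) ?_
      intro y y' h
      apply Subtype.ext
      have e1 := hq2 y.1 y.2
      have e2 := hq2 y'.1 y'.2
      have e3 : q y.1 y.2 = q y'.1 y'.2 := congrArg Subtype.val h
      rw [← e1, ← e2]
      congr 1
    exact absurd hle (not_le.2 (hseg p))
  let f : P → Y := hwf.fix fun p g => (key p g).choose
  have hf : ∀ p, f p ∈ A (c p) ∧ ∀ q, rank q < rank p → f q ≠ f p := by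
    intro p
    have e : f p = (key p fun q _ => f q).choose := hwf.fix_eq _ p
    have h5 := (key p fun q _ => f q).choose_spec
    rw [← e] at h5
    exact ⟨h5.1, fun q hq => h5.2 q hq⟩
  refine ⟨f, ?_, fun p => (hf p).1⟩
  intro p q h
  by_contra hne
  rcases lt_or_gt_of_ne (fun e => hne (hrank e)) with hlt | hlt
  · exact (hf q).2 p hlt h
  · exact (hf p).2 q hlt h.symm

end Pool.Agent.H86.CN
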