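import Pool.Agent.H86.CN.Quasi

/-!
Diagonal square partitions of unity which almost commute with finitely many operators.
-/

set_option autoImplicit false
set_option linter.unusedSectionVars false

open Filter Topology
open scoped InnerProductSpace

namespace Pool.Agent.H86.CN

section

variable {E : Type} [NormedAddCommGroup E] [InnerProductSpace ℂ E] [CompleteSpace E]
  (ε : HilbertBasis ℕ ℂ E)

/-- the projection on the first `n` basis vectors -/
noncomputable def Pn (n : ℕ) : E →L[ℂ] E :=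
  ∑ m ∈ Finset.range n, (innerSL ℂ (ε m)).smulRight (ε m)

theorem Pn_apply (n : ℕ) (x : E) : Pn ε n x = ∑ m ∈ Finset.range n, ⟪ε m, x⟫_ℂ • ε m := by
  unfold Pn
  simp [ContinuousLinearMap.sum_apply]

theorem Pn_basis (n m : ℕ) : Pn ε n (ε m) = if m < n then ε m else 0 := by
  rw [Pn_apply]
  have h : ∀ j ∈ Finset.range n, ⟪ε j, ε m⟫_ℂ • ε j = if j = m then ε m else 0 := by
    intro j _
    rw [orthonormal_iff_ite.mp ε.orthonormal]
    split_ifs with h
    · rw [one_smul, h]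
    · rw [zero_smul]
  rw [Finset.sum_congr rfl h, Finset.sum_ite_eq']
  simp

theorem Pn_zero : Pn ε 0 = 0 := by
  simp [Pn]

theorem Pn_mul (m n : ℕ) : Pn ε m * Pn ε n = Pn ε (min m n) := by
  apply clm_ext ε
  intro j
  show Pn ε m (Pn ε n (ε j)) = _
  rw [Pn_basis, Pn_basis]
  by_cases h1 : j < n
  · rw [if_pos h1, Pn_basis]
    by_cases h2 : j < m
    · rw [if_pos h2, if_pos (lt_min h2 h1)]
    · rw [if_neg h2, if_neg (fun h => h2 (h.trans_le (min_le_left _ _)))]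
  · rw [if_neg h1, map_zero, if_neg (fun h => h1 (h.trans_le (min_le_right _ _)))]

theorem vext {x y : E} (h : ∀ j, ⟪ε j, x⟫_ℂ = ⟪ε j, y⟫_ℂ) : x = y := by
  apply ε.repr.injective
  ext j
  rw [ε.repr_apply_apply, ε.repr_apply_apply]
  exact h j

theorem Pn_star (n : ℕ) : star (Pn ε n) = Pn ε n := by
  apply clm_ext ε
  intro j
  apply vext ε
  intro i
  rw [← star_inner, Pn_basis, Pn_basis]
  split_ifs with h1 h2 h2
  · rfl
  · rw [inner_zero_right, ε.orthonormal.2]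
    rintro rfl
    exact h2 h1
  · rw [inner_zero_left, ε.orthonormal.2]
    rintro rfl
    exact h1 h2
  · rw [inner_zero_left, inner_zero_right]

theorem Pn_tendsto (x : E) : Tendsto (fun n => Pn ε n x) atTop (𝓝 x) := by
  have h := (ε.hasSum_repr x).tendsto_sum_nat
  refine h.congr fun n => ?_
  rw [Pn_apply]
  exact Finset.sum_congr rfl fun m _ => by rw [ε.repr_apply_apply]

theorem Pn_left (t : E →L[ℂ] E) (m : ℕ) :
    Tendsto (fun n => ‖(1 - Pn ε n) * t * Pn ε m‖) atTop (𝓝 0) := by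
  have h1 : ∀ n, ‖(1 - Pn ε n) * t * Pn ε m‖ ≤
      ∑ j ∈ Finset.range m, ‖t (ε j) - Pn ε n (t (ε j))‖ := by
    intro n
    apply ContinuousLinearMap.opNorm_le_bound _ (by positivity)
    intro x
    have e1 : ((1 - Pn ε n) * t * Pn ε m) x =
        ∑ j ∈ Finset.range m, ⟪ε j, x⟫_ℂ • (t (ε j) - Pn ε n (t (ε j))) := by
      show (1 - Pn ε n) (t (Pn ε m x)) = _
      rw [Pn_apply ε m, map_sum, map_sum]
      refine Finset.sum_congr rfl fun j _ => ?_
      rw [map_smul, map_smul]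
      rfl
    rw [e1, Finset.sum_mul]
    refine (norm_sum_le _ _).trans (Finset.sum_le_sum fun j _ => ?_)
    rw [norm_smul, mul_comm]
    gcongr
    refine (norm_inner_le_norm _ _).trans ?_
    rw [ε.orthonormal.1, one_mul]
  refine squeeze_zero (fun _ => norm_nonneg _) h1 ?_
  rw [show (0 : ℝ) = ∑ j ∈ Finset.range m, (0 : ℝ) by simp]
  apply tendsto_finset_sum
  intro j _
  have h2 := (tendsto_const_nhds (x := t (ε j))).sub (Pn_tendsto ε (t (ε j)))
  rw [sub_self] at h2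
  have h3 := h2.norm
  rwa [norm_zero] at h3

theorem Pn_right (t : E →L[ℂ] E) (m : ℕ) :
    Tendsto (fun n => ‖Pn ε m * t * (1 - Pn ε n)‖) atTop (𝓝 0) := by
  refine (Pn_left ε (star t) m).congr fun n => ?_
  rw [← norm_star]
  congr 1
  rw [star_mul, star_mul, star_star, star_sub, star_one, Pn_star, Pn_star, mul_assoc]

theorem exists_split (g : ℕ → ℕ) (hg : Monotone g) (M m : ℕ) :
    ∃ s ≤ M, ∀ r < M, (m < g (r + 1) ↔ s ≤ r) := by
  classical
  have hex : ∃ r, M ≤ r ∨ m < g (r + 1) := ⟨M, Or.inl le_rfl⟩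
  refine ⟨Nat.find hex, Nat.find_min' hex (Or.inl le_rfl), fun r hr => ⟨fun h => ?_, fun h => ?_⟩⟩
  · exact Nat.find_min' hex (Or.inr h)
  · rcases Nat.find_spec hex with h' | h'
    · omega
    · exact h'.trans_le (hg (by omega))

theorem tele (φ : ℕ → ℝ) (s : ℕ) : ∀ M, s ≤ M →
    ∑ r ∈ Finset.range M, (if s ≤ r then φ r - φ (r + 1) else 0) = φ s - φ M := by
  intro M
  induction M with
  | zero =>
    intro h
    have : s = 0 := by omega
    simp [this]
  | succ M ih =>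
    intro h
    rw [Finset.sum_range_succ]
    rcases Nat.lt_or_ge M s with h1 | h1
    · have h2 : s = M + 1 := by omega
      rw [if_neg (by omega), add_zero, h2, sub_self]
      apply Finset.sum_eq_zero
      intro r hr
      rw [Finset.mem_range] at hr
      rw [if_neg (by omega)]
    · rw [ih h1, if_pos h1]
      ring

theorem sqrt_step (x h : ℝ) (hx : 0 ≤ x) (hh : 0 ≤ h) : |√(x + h) - √x| ≤ √h := by
  rw [abs_of_nonneg (sub_nonneg.2 (Real.sqrt_le_sqrt (by linarith)))]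
  have h1 : √(x + h) ≤ √x + √h := by
    rw [Real.sqrt_le_left (by positivity)]
    have a1 := Real.sq_sqrt hx
    have a2 := Real.sq_sqrt hh
    have a3 := mul_nonneg (Real.sqrt_nonneg x) (Real.sqrt_nonneg h)
    nlinarith
  linarith

/-- Lemma U -/
theorem lemmaU {n : ℕ} (t : Fin n → E →L[ℂ] E) (N : ℕ) (ρ : ℝ) (hρ : 0 < ρ) :
    ∃ (u : ℕ → ℝ) (A B : E →L[ℂ] E) (N' : ℕ), (∀ m, 0 ≤ u m ∧ u m ≤ 1) ∧ (∀ m < N, u m = 1) ∧
      (∀ m, N' ≤ m → u m = 0) ∧ (∀ m, A (ε m) = ((√(u m) : ℝ) : ℂ) • ε m) ∧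
      (∀ m, B (ε m) = ((√(1 - u m) : ℝ) : ℂ) • ε m) ∧
      ∀ k, ‖A * t k - t k * A‖ ≤ ρ ∧ ‖B * t k - t k * B‖ ≤ ρ := by
  classical
  set C : ℝ := 1 + ∑ k, ‖t k‖ with hC
  have hCpos : 0 < C := by positivity
  have hCk : ∀ k, ‖t k‖ ≤ C := fun k => by
    have := Finset.single_le_sum (f := fun k => ‖t k‖) (fun i _ => norm_nonneg _)
      (Finset.mem_univ k)
    linarith
  obtain ⟨M, hM⟩ := exists_nat_ge (max 1 ((4 * C / ρ) ^ 2))
  have hM1 : (1 : ℝ) ≤ M := (le_max_left _ _).trans hM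
  have hM2 : (4 * C / ρ) ^ 2 ≤ M := (le_max_right _ _).trans hM
  have hMpos : (0 : ℝ) < M := by linarith
  set η : ℝ := √(1 / M) with hη
  have hη0 : 0 ≤ η := Real.sqrt_nonneg _
  have hη1 : η ≤ 1 := by
    rw [hη, Real.sqrt_le_one]
    rw [div_le_one hMpos]; exact hM1
  have hη2 : 2 * η * C ≤ ρ / 2 := by
    have h1 : η * (4 * C / ρ) ≤ 1 := by
      have h2 : η * (4 * C / ρ) ≤ √(1 / M) * √M := by
        apply mul_le_mul le_rfl _ (by positivity) hη0
        rw [← Real.sqrt_sq (show 0 ≤ 4 * C / ρ by positivity)]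
        exact Real.sqrt_le_sqrt hM2
      rw [← Real.sqrt_mul (by positivity), one_div, inv_mul_cancel₀ hMpos.ne', Real.sqrt_one] at h2
      exact h2
    have h3 : η * (4 * C) ≤ ρ := by
      have := mul_le_mul_of_nonneg_right h1 hρ.le
      rw [one_mul, mul_assoc, div_mul_cancel₀ _ hρ.ne'] at this
      exact this
    linarith
  set δ : ℝ := ρ / (8 * M) with hδ
  have hδpos : 0 < δ := by positivity
  -- the sequence
  have hstep : ∀ N0 : ℕ, ∃ N1, N0 ≤ N1 ∧ ∀ k, ‖(1 - Pn ε N1) * t k * Pn ε N0‖ ≤ δ ∧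
      ‖Pn ε N0 * t k * (1 - Pn ε N1)‖ ≤ δ := by
    intro N0
    have h1 : ∀ᶠ N1 in atTop, ∀ k, ‖(1 - Pn ε N1) * t k * Pn ε N0‖ ≤ δ := by
      rw [eventually_all]
      intro k
      exact ((Pn_left ε (t k) N0).eventually_lt_const hδpos).mono fun _ h => h.le
    have h2 : ∀ᶠ N1 in atTop, ∀ k, ‖Pn ε N0 * t k * (1 - Pn ε N1)‖ ≤ δ := by
      rw [eventually_all]
      intro k
      exact ((Pn_right ε (t k) N0).eventually_lt_const hδpos).mono fun _ h => h.le
    obtain ⟨N1, h3, h4, h5⟩ := (h1.and (h2.and (eventually_ge_atTop N0))).exists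
    exact ⟨N1, h5, fun k => ⟨h3 k, h4 k⟩⟩
  choose nx hnx1 hnx2 using hstep
  obtain ⟨g, hg0, hg1, hg2⟩ : ∃ g : ℕ → ℕ, g 0 = 0 ∧ g 1 = N ∧ ∀ r, g (r + 2) = nx (g (r + 1)) := by
    refine ⟨fun r => Nat.rec 0 (fun r x => if r = 0 then N else nx x) r, rfl, ?_, ?_⟩
    · simp
    · intro r
      simp
  have hgm : Monotone g := by
    apply monotone_nat_of_le_succ
    intro r
    rcases r with _ | r
    · rw [hg0]; exact Nat.zero_le _
    · show g (r + 1) ≤ g (r + 2)
      rw [hg2]; exact hnx1 _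
  have hd1 : ∀ k r, ‖Pn ε (g r) * t k * (1 - Pn ε (g (r + 1)))‖ ≤ δ := by
    intro k r
    rcases r with _ | r
    · rw [hg0, Pn_zero, zero_mul, zero_mul, norm_zero]; exact hδpos.le
    · show ‖Pn ε (g (r + 1)) * t k * (1 - Pn ε (g (r + 2)))‖ ≤ δ
      rw [hg2]; exact (hnx2 _ k).2
  have hd2 : ∀ k r, ‖(1 - Pn ε (g (r + 1))) * t k * Pn ε (g r)‖ ≤ δ := by
    intro k r
    rcases r with _ | r
    · rw [hg0, Pn_zero, mul_zero, norm_zero]; exact hδpos.le
    · show ‖(1 - Pn ε (g (r + 2))) * t k * Pn ε (g (r + 1))‖ ≤ δ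
      rw [hg2]; exact (hnx2 _ k).1
  choose s hs1 hs2 using fun m => exists_split g hgm M m
  -- the layer operators
  have hlayer : ∀ φ : ℕ → ℝ, (∀ r < M, |φ r - φ (r + 1)| ≤ η) → ∃ G : E →L[ℂ] E,
      (∀ m, G (ε m) = ((φ (s m) : ℝ) : ℂ) • ε m) ∧ ∀ k, ‖G * t k - t k * G‖ ≤ ρ := by
    intro φ hφ
    obtain ⟨d, hd⟩ : ∃ d : ℕ → ℝ, ∀ r, d r = if r < M then φ r - φ (r + 1) else 0 :=
      ⟨_, fun _ => rfl⟩
    have hdle : ∀ r, |d r| ≤ η := by
      intro r
      rw [hd]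
      split_ifs with h
      · exact hφ r h
      · rw [abs_zero]; exact hη0
    refine ⟨((φ M : ℝ) : ℂ) • (1 : E →L[ℂ] E) +
      ∑ r ∈ Finset.range M, ((d r : ℝ) : ℂ) • Pn ε (g (r + 1)), ?_, ?_⟩
    · intro m
      have e1 : (∑ r ∈ Finset.range M, ((d r : ℝ) : ℂ) • Pn ε (g (r + 1))) (ε m) =
          (((∑ r ∈ Finset.range M, (if s m ≤ r then φ r - φ (r + 1) else 0) : ℝ)) : ℂ) • ε m := by
        rw [ContinuousLinearMap.sum_apply]
        push_cast
        rw [Finset.sum_smul]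
        refine Finset.sum_congr rfl fun r hr => ?_
        rw [Finset.mem_range] at hr
        show ((d r : ℝ) : ℂ) • (Pn ε (g (r + 1)) (ε m)) = _
        rw [Pn_basis, hd, if_pos hr]
        by_cases h : s m ≤ r
        · rw [if_pos ((hs2 m r hr).2 h), if_pos h]
        · rw [if_neg (fun h' => h ((hs2 m r hr).1 h')), if_neg h]
          simp
      rw [ContinuousLinearMap.add_apply, e1, tele φ (s m) M (hs1 m),
        ContinuousLinearMap.smul_apply]
      show ((φ M : ℝ) : ℂ) • ε m + _ = _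
      rw [← add_smul]
      congr 1
      push_cast
      ring
    · intro k
      have e2 : (((φ M : ℝ) : ℂ) • (1 : E →L[ℂ] E) +
          ∑ r ∈ Finset.range M, ((d r : ℝ) : ℂ) • Pn ε (g (r + 1))) * t k -
          t k * (((φ M : ℝ) : ℂ) • (1 : E →L[ℂ] E) +
          ∑ r ∈ Finset.range M, ((d r : ℝ) : ℂ) • Pn ε (g (r + 1))) =
          ∑ r ∈ Finset.range M, ((d r : ℝ) : ℂ) •
            (Pn ε (g (r + 1)) * t k - t k * Pn ε (g (r + 1))) := by
        rw [add_mul, mul_add, smul_mul_assoc, one_mul, mul_smul_comm, mul_one, add_sub_add_left_eq_sub,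
          Finset.sum_mul, Finset.mul_sum, ← Finset.sum_sub_distrib]
        refine Finset.sum_congr rfl fun r _ => ?_
        rw [smul_mul_assoc, mul_smul_comm, smul_sub]
      rw [e2]
      have h1 := lemmaC (fun r => Pn ε (g r)) (by rw [hg0, Pn_zero]) (fun r => Pn_star ε _)
        (fun a b hab => by rw [Pn_mul, min_eq_left (hgm hab)])
        (fun a b hab => by rw [Pn_mul, min_eq_right (hgm hab)]) (t k) δ (hd1 k) (hd2 k) η
        hη0 d hdle M
      refine h1.trans ?_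
      have h2 : 2 * η * ‖t k‖ ≤ ρ / 2 := by
        refine le_trans ?_ hη2
        gcongr
        exact hCk k
      have h3 : 4 * (M : ℝ) * η * δ ≤ ρ / 2 := by
        calc 4 * (M : ℝ) * η * δ ≤ 4 * M * 1 * δ := by gcongr
          _ = ρ / 2 := by
            rw [hδ]; field_simp; norm_num
      linarith
  have hstepA : ∀ r < M, |√(((M : ℝ) - (r : ℕ)) / M) - √(((M : ℝ) - ((r + 1 : ℕ) : ℝ)) / M)| ≤ η := by
    intro r hr
    have hr' : (r : ℝ) + 1 ≤ M := by exact_mod_cast hr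
    have := sqrt_step (((M : ℝ) - ((r + 1 : ℕ) : ℝ)) / M) (1 / M)
      (div_nonneg (by push_cast; linarith) hMpos.le) (by positivity)
    rw [show ((M : ℝ) - ((r + 1 : ℕ) : ℝ)) / M + 1 / M = ((M : ℝ) - (r : ℕ)) / M by
      push_cast; ring] at this
    exact this
  have hstepB : ∀ r < M, |√((r : ℝ) / M) - √(((r + 1 : ℕ) : ℝ) / M)| ≤ η := by
    intro r _
    have := sqrt_step ((r : ℝ) / M) (1 / M) (by positivity) (by positivity)
    rw [show (r : ℝ) / M + 1 / M = ((r + 1 : ℕ) : ℝ) / M by push_cast; ring, abs_sub_comm] at this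
    exact this
  obtain ⟨A, hA1, hA2⟩ := hlayer (fun r => √(((M : ℝ) - (r : ℕ)) / M)) hstepA
  obtain ⟨B, hB1, hB2⟩ := hlayer (fun r => √((r : ℝ) / M)) hstepB
  refine ⟨fun m => ((M : ℝ) - (s m : ℕ)) / M, A, B, g M, ?_, ?_, ?_, hA1, ?_,
    fun k => ⟨hA2 k, hB2 k⟩⟩
  · intro m
    have : (s m : ℝ) ≤ M := by exact_mod_cast hs1 m
    constructor
    · exact div_nonneg (by linarith) hMpos.le
    · rw [div_le_one hMpos]
      have : (0 : ℝ) ≤ s m := Nat.cast_nonneg _
      linarith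
  · intro m hm
    have hM0 : 0 < M := by exact_mod_cast hMpos
    have : s m ≤ 0 := (hs2 m 0 hM0).1 (by rw [zero_add, hg1]; exact hm)
    have h0 : s m = 0 := by omega
    simp only [h0]
    rw [Nat.cast_zero, sub_zero, div_self hMpos.ne']
  · intro m hm
    have h1 : s m = M := by
      by_contra hne
      have hlt : s m < M := lt_of_le_of_ne (hs1 m) hne
      have h2 := (hs2 m (s m) hlt).2 le_rfl
      have h3 : g (s m + 1) ≤ g M := hgm (by omega)
      omega
    simp only [h1]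
    rw [sub_self, zero_div]
  · intro m
    rw [hB1]
    congr 3
    field_simp
    ring_nf

/-- Lemma Seq: a partition of unity -/
theorem lemmaSeq {n : ℕ} (t : Fin n → E →L[ℂ] E) (ρ : ℝ) (hρ : 0 < ρ) :
    ∃ (f : ℕ → ℕ → ℝ) (F : ℕ → E →L[ℂ] E) (R : ℕ → ℕ),
      (∀ l m, F l (ε m) = ((f l m : ℝ) : ℂ) • ε m) ∧ (∀ l m, R l ≤ m → f l m = 0) ∧
      (∀ m L, m < L → ∑ l ∈ Finset.range L, f l m ^ 2 = 1) ∧
      ∀ l k, ‖F l * t k - t k * F l‖ ≤ ρ * (1 / 2) ^ l := by
  have hU : ∀ (l N : ℕ), ∃ (u : ℕ → ℝ) (A B : E →L[ℂ] E) (N' : ℕ), (∀ m, 0 ≤ u m ∧ u m ≤ 1) ∧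
      (∀ m < N, u m = 1) ∧
      (∀ m, N' ≤ m → u m = 0) ∧ (∀ m, A (ε m) = ((√(u m) : ℝ) : ℂ) • ε m) ∧
      (∀ m, B (ε m) = ((√(1 - u m) : ℝ) : ℂ) • ε m) ∧
      ∀ k, ‖A * t k - t k * A‖ ≤ ρ / 4 * (1 / 2) ^ l ∧ ‖B * t k - t k * B‖ ≤ ρ / 4 * (1 / 2) ^ l :=
    fun l N => lemmaU ε t N _ (by positivity)
  choose u A B N' h1 h2 h3 h4 h5 h6 using hU
  obtain ⟨g, hg0, hg1⟩ : ∃ g : ℕ → ℕ, g 0 = 1 ∧ ∀ l, g (l + 1) = max (N' l (g l)) (l + 2) :=
    ⟨fun l => Nat.rec 1 (fun l x => max (N' l x) (l + 2)) l, rfl, fun l => rfl⟩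
  have hgl : ∀ l, l + 1 ≤ g l := by
    intro l
    rcases l with _ | l
    · rw [hg0]
    · rw [hg1]; exact le_max_right _ _
  let f : ℕ → ℕ → ℝ := fun l m => match l with
    | 0 => √(u 0 (g 0) m)
    | l + 1 => √(u (l + 1) (g (l + 1)) m) + √(1 - u l (g l) m) - 1
  let F : ℕ → E →L[ℂ] E := fun l => match l with
    | 0 => A 0 (g 0)
    | l + 1 => A (l + 1) (g (l + 1)) + B l (g l) - 1
  have hsq : ∀ L m, ∑ l ∈ Finset.range (L + 1), f l m ^ 2 = u L (g L) m := by
    intro L m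
    induction L with
    | zero =>
      rw [Finset.sum_range_one]
      exact Real.sq_sqrt (h1 _ _ _).1
    | succ L ih =>
      rw [Finset.sum_range_succ, ih]
      show _ + (√(u (L + 1) (g (L + 1)) m) + √(1 - u L (g L) m) - 1) ^ 2 = _
      rcases Nat.lt_or_ge m (g (L + 1)) with h | h
      · rw [h2 _ _ m h, Real.sqrt_one, add_sub_cancel_left,
          Real.sq_sqrt (sub_nonneg.2 (h1 _ _ _).2)]
        ring
      · have h7 : u L (g L) m = 0 := h3 _ _ _ (by
          rw [hg1] at h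
          exact (le_max_left _ _).trans h)
        rw [h7, sub_zero, Real.sqrt_one, add_sub_cancel_right, Real.sq_sqrt (h1 _ _ _).1, zero_add]
  refine ⟨f, F, fun l => match l with
    | 0 => N' 0 (g 0)
    | l + 1 => max (N' (l + 1) (g (l + 1))) (N' l (g l)), ?_, ?_, ?_, ?_⟩
  · intro l m
    rcases l with _ | l
    · exact h4 _ _ _
    · show (A (l + 1) (g (l + 1)) + B l (g l) - 1) (ε m) =
        ((√(u (l + 1) (g (l + 1)) m) + √(1 - u l (g l) m) - 1 : ℝ) : ℂ) • ε m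
      rw [ContinuousLinearMap.sub_apply, ContinuousLinearMap.add_apply, h4, h5]
      push_cast
      rw [sub_smul, add_smul, one_smul]
      rfl
  · intro l m hm
    rcases l with _ | l
    · show √(u 0 (g 0) m) = 0
      rw [h3 _ _ _ hm, Real.sqrt_zero]
    · show √(u (l + 1) (g (l + 1)) m) + √(1 - u l (g l) m) - 1 = 0
      have hm' : max (N' (l + 1) (g (l + 1))) (N' l (g l)) ≤ m := hm
      rw [h3 _ _ _ ((le_max_left _ _).trans hm'), h3 _ _ _ ((le_max_right _ _).trans hm')]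
      simp
  · intro m L hmL
    obtain ⟨L', rfl⟩ : ∃ L', L = L' + 1 := ⟨L - 1, by omega⟩
    rw [hsq]
    apply h2
    have := hgl L'
    omega
  · intro l k
    rcases l with _ | l
    · refine (h6 _ _ k).1.trans ?_
      simp only [pow_zero, mul_one]
      linarith
    · show ‖(A (l + 1) (g (l + 1)) + B l (g l) - 1) * t k -
        t k * (A (l + 1) (g (l + 1)) + B l (g l) - 1)‖ ≤ _
      have e : (A (l + 1) (g (l + 1)) + B l (g l) - 1) * t k -
        t k * (A (l + 1) (g (l + 1)) + B l (g l) - 1) =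
        (A (l + 1) (g (l + 1)) * t k - t k * A (l + 1) (g (l + 1))) +
        (B l (g l) * t k - t k * B l (g l)) := by noncomm_ring
      rw [e]
      refine (norm_add_le _ _).trans ?_
      have a1 := (h6 (l + 1) (g (l + 1)) k).1
      have a2 := (h6 l (g l) k).2
      have a3 : (0 : ℝ) < (1 / 2) ^ l := by positivity
      rw [pow_succ] at a1 ⊢
      nlinarith

end

end Pool.Agent.H86.CN
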