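import Pool.Agent.H86.CN.Blocks
import Pool.Agent.H86.CN.Weights
import Pool.Agent.H86.CN.Sdr

/-!
Tuples with the same multiplicities of blocks are approximately intertwined.
-/

set_option autoImplicit false
set_option linter.unusedSectionVars false

open Filter Topology Cardinal
open scoped InnerProductSpace

namespace Pool.Agent.H86.CN

/-- the indices with few close neighbours -/
def Ex {I Z : Type} [TopologicalSpace Z] [SecondCountableTopology Z] (τ : I → Z) : Set I :=
  {i | ∃ U ∈ TopologicalSpace.countableBasis Z, τ i ∈ U ∧ #{i // τ i ∈ U} ≤ ℵ₀}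

theorem Ex_countable {I Z : Type} [TopologicalSpace Z] [SecondCountableTopology Z] (τ : I → Z) :
    (Ex τ).Countable := by
  have h1 : ({U ∈ TopologicalSpace.countableBasis Z | #{i // τ i ∈ U} ≤ ℵ₀}).Countable :=
    (TopologicalSpace.countable_countableBasis Z).mono (Set.sep_subset _ _)
  refine (h1.biUnion (t := fun U _ => {i | τ i ∈ U}) fun U hU => ?_).mono ?_
  · have h2 : #{i // τ i ∈ U} ≤ ℵ₀ := hU.2
    exact Set.countable_coe_iff.1 (Cardinal.mk_le_aleph0_iff.1 h2)
  · rintro i ⟨U, hU, hi, hc⟩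
    exact Set.mem_biUnion (show U ∈ {U ∈ TopologicalSpace.countableBasis Z | _} from ⟨hU, hc⟩) hi

section

variable {E H : Type} [NormedAddCommGroup E] [InnerProductSpace ℂ E] [CompleteSpace E]
  [SecondCountableTopology E]
  [NormedAddCommGroup H] [InnerProductSpace ℂ H] [CompleteSpace H]

theorem norm_le_finite (ε : HilbertBasis ℕ ℂ E) (G : E →L[ℂ] H) (R : ℕ)
    (hG : ∀ m, R ≤ m → G (ε m) = 0) (c : ℝ) (hc : 0 ≤ c) (h : ∀ m < R, ‖G (ε m)‖ ≤ c) :
    ‖G‖ ≤ R * c := by
  have e : G = ∑ m ∈ Finset.range R, (innerSL ℂ (ε m)).smulRight (G (ε m)) := by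
    apply clm_ext ε
    intro j
    rw [ContinuousLinearMap.sum_apply]
    have h1 : ∀ m ∈ Finset.range R, ((innerSL ℂ (ε m)).smulRight (G (ε m))) (ε j) =
        if m = j then G (ε j) else 0 := by
      intro m _
      show ⟪ε m, ε j⟫_ℂ • G (ε m) = _
      rw [orthonormal_iff_ite.mp ε.orthonormal]
      split_ifs with h
      · rw [one_smul, h]
      · rw [zero_smul]
    rw [Finset.sum_congr rfl h1, Finset.sum_ite_eq']
    split_ifs with hj
    · rfl
    · rw [Finset.mem_range] at hj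
      exact hG j (by omega)
  rw [e]
  refine (norm_sum_le _ _).trans ?_
  calc ∑ m ∈ Finset.range R, ‖(innerSL ℂ (ε m)).smulRight (G (ε m))‖
      ≤ ∑ _m ∈ Finset.range R, c := by
        refine Finset.sum_le_sum fun m hm => ?_
        rw [ContinuousLinearMap.norm_smulRight_apply, innerSL_apply_norm, ε.orthonormal.1, one_mul]
        exact h m (Finset.mem_range.1 hm)
    _ = R * c := by simp

theorem class_le {I : Type} {n : ℕ} (b b' : HilbertBasis (I × ℕ) ℂ H) (ε : HilbertBasis ℕ ℂ E)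
    (ι ι' : I → E →ₗᵢ[ℂ] H) (hι : ∀ i m, ι i (ε m) = b (i, m))
    (hι' : ∀ i m, ι' i (ε m) = b' (i, m))
    (t t' : I → Fin n → E →L[ℂ] E) (a a' : Fin n → H →L[ℂ] H)
    (ha : ∀ i k x, a k (ι i x) = ι i (t i k x)) (ha' : ∀ i k x, a' k (ι' i x) = ι' i (t' i k x))
    (τ τ' : I → Fin n → ℕ → E) (hτ : ∀ i k m, τ i k m = t i k (ε m))
    (hτ' : ∀ i k m, τ' i k m = t' i k (ε m))
    (hμ : ∀ U ∈ TopologicalSpace.countableBasis (Fin n → ℕ → E), ℵ₀ < #{i // τ i ∈ U} →
      #{i // τ i ∈ U} ≤ #{i // τ' i ∈ U})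
    (β : Ex τ → Ex τ') (hβ : Function.Injective β) (hβτ : ∀ i, τ' (β i) = τ i)
    (δ : ℝ) (hδ : 0 < δ) :
    ∃ V : H →L[ℂ] H, star V * V = 1 ∧ ∀ k, ‖V * a k - a' k * V‖ ≤ δ := by
  classical
  obtain ⟨ρ, hρ⟩ : ∃ ρ, ρ = δ / 4 := ⟨_, rfl⟩
  have hρ0 : 0 < ρ := by rw [hρ]; positivity
  choose f F R h1 h2 h3 h4 using fun i => lemmaSeq ε (t i) ρ hρ0
  obtain ⟨κ, hκ⟩ : ∃ κ : I → ℕ → ℝ, ∀ i l, κ i l = ρ * (1 / 2) ^ l / (R i l + 1) :=
    ⟨_, fun _ _ => rfl⟩
  have hκ0 : ∀ i l, 0 < κ i l := by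
    intro i l
    rw [hκ]
    positivity
  have hW : ∀ i l, ∃ U ∈ TopologicalSpace.countableBasis (Fin n → ℕ → E), τ i ∈ U ∧
      ∀ z ∈ U, ∀ k, ∀ m < R i l, ‖z k m - τ i k m‖ < κ i l := by
    intro i l
    have hopen : IsOpen (⋂ k : Fin n, ⋂ m ∈ Finset.range (R i l),
        {z : Fin n → ℕ → E | ‖z k m - τ i k m‖ < κ i l}) := by
      apply isOpen_iInter_of_finite
      intro k
      apply isOpen_biInter_finset
      intro m _
      exact isOpen_lt (by fun_prop) continuous_const
    obtain ⟨U, hU, hiU, hUW⟩ := (TopologicalSpace.isBasis_countableBasis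
      (Fin n → ℕ → E)).exists_subset_of_mem_open (a := τ i) (by
        simp only [Set.mem_iInter, Set.mem_setOf_eq, sub_self, norm_zero]
        intro _ _ _
        exact hκ0 i l) hopen
    refine ⟨U, hU, hiU, fun z hz k m hm => ?_⟩
    have := hUW hz
    simp only [Set.mem_iInter, Set.mem_setOf_eq] at this
    exact this k m (Finset.mem_range.2 hm)
  choose U hU hiU hUW using hW
  -- the injective choice
  have hcount : Countable (TopologicalSpace.countableBasis (Fin n → ℕ → E)) :=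
    (TopologicalSpace.countable_countableBasis _).to_subtype
  have hbig : ∀ V ∈ TopologicalSpace.countableBasis (Fin n → ℕ → E), ℵ₀ < #{i // τ i ∈ V} →
      #{i // τ i ∈ V} ≤ #{j : I | τ' j ∈ V ∧ j ∉ Ex τ'} := by
    intro V hV hlt
    have e1 := hμ V hV hlt
    have e2 : #{i // τ' i ∈ V} ≤ #{j : I | τ' j ∈ V ∧ j ∉ Ex τ'} + ℵ₀ := by
      have e3 : {i | τ' i ∈ V} ⊆ {j : I | τ' j ∈ V ∧ j ∉ Ex τ'} ∪ Ex τ' := by
        intro i hi
        by_cases hx : i ∈ Ex τ'
        · exact Or.inr hx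
        · exact Or.inl ⟨hi, hx⟩
      calc #{i // τ' i ∈ V} ≤ #({j : I | τ' j ∈ V ∧ j ∉ Ex τ'} ∪ Ex τ' : Set I) :=
            Cardinal.mk_le_mk_of_subset e3
        _ ≤ #{j : I | τ' j ∈ V ∧ j ∉ Ex τ'} + #(Ex τ') := Cardinal.mk_union_le _ _
        _ ≤ _ := add_le_add le_rfl (Cardinal.mk_le_aleph0_iff.2 (Ex_countable τ').to_subtype)
    replace e2 := e1.trans e2
    rcases le_total ℵ₀ (#{j : I | τ' j ∈ V ∧ j ∉ Ex τ'}) with h | h
    · rwa [Cardinal.add_eq_left h h] at e2
    · exfalso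
      have : #{i // τ i ∈ V} ≤ ℵ₀ := e2.trans ((add_le_add h le_rfl).trans
        (by rw [Cardinal.aleph0_add_aleph0]))
      exact absurd hlt (not_lt.2 this)
  have hreg : ∀ i, i ∉ Ex τ → ∀ l, ℵ₀ < #{i' // τ i' ∈ U i l} := by
    intro i hi l
    by_contra h
    exact hi ⟨U i l, hU i l, hiU i l, not_lt.1 h⟩
  obtain ⟨g, hg1, hg2⟩ := exists_inj_choice (P := {i // i ∉ Ex τ} × ℕ) (Y := I)
    (fun p => (⟨U p.1 p.2, hU _ _⟩ : TopologicalSpace.countableBasis (Fin n → ℕ → E)))
    (fun V => {j : I | τ' j ∈ V.1 ∧ j ∉ Ex τ'})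
    (fun p => (hreg p.1.1 p.1.2 p.2).trans_le (hbig _ (hU _ _) (hreg p.1.1 p.1.2 p.2)))
    (by
      intro p
      refine le_trans ?_ (hbig _ (hU _ _) (hreg p.1.1 p.1.2 p.2))
      have hinj : Function.Injective (fun q : {q : {i // i ∉ Ex τ} × ℕ //
          (⟨U q.1 q.2, hU _ _⟩ : TopologicalSpace.countableBasis (Fin n → ℕ → E)) =
          ⟨U p.1 p.2, hU _ _⟩} =>
          ((⟨q.1.1.1, (congrArg Subtype.val q.2).subset (hiU _ _)⟩, q.1.2) :
            {i' // τ i' ∈ U p.1 p.2} × ℕ)) := by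
        rintro ⟨⟨⟨i, hi⟩, l⟩, hq⟩ ⟨⟨⟨i', hi'⟩, l'⟩, hq'⟩ h
        simp only [Prod.mk.injEq, Subtype.mk.injEq] at h
        obtain ⟨rfl, rfl⟩ := h
        rfl
      refine (Cardinal.mk_le_of_injective hinj).trans ?_
      rw [Cardinal.mk_prod, Cardinal.lift_id, Cardinal.lift_id, Cardinal.mk_nat,
        Cardinal.mul_aleph0_eq (hreg p.1.1 p.1.2 p.2).le])
  have hf1 : ∀ i l m, f i l m ^ 2 ≤ 1 := by
    intro i l m
    have := h3 i m (max l m + 1) (by omega)
    rw [← this]
    exact Finset.single_le_sum (f := fun l => f i l m ^ 2) (fun l _ => sq_nonneg _)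
      (Finset.mem_range.2 (by omega))
  have hz : ∀ k i i' , τ' i' = τ i → t' i' k = t i k := by
    intro k i i' h
    apply clm_ext ε
    intro m
    rw [← hτ, ← hτ', h]
  refine glue b b' ε ι ι' hι hι' t t' a a' ha ha'
    (fun i l m => if i ∈ Ex τ then (if l = 0 then 1 else 0) else f i l m)
    (fun i l => if i ∈ Ex τ then (if l = 0 then 1 else 0) else F i l)
    (fun i l => if h : i ∈ Ex τ then β ⟨i, h⟩ else g (⟨i, h⟩, l)) ?_ ?_ ?_ δ hδ.le ?_
  · intro i l m
    by_cases h : i ∈ Ex τ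
    · simp only [if_pos h]
      by_cases hl : l = 0
      · simp only [if_pos hl]
        simp
      · simp only [if_neg hl]
        simp
    · simp only [if_neg h]
      exact h1 i l m
  · intro i m L hmL
    by_cases h : i ∈ Ex τ
    · simp only [if_pos h]
      rw [Finset.sum_eq_single 0]
      · simp
      · intro l _ hl
        simp [hl]
      · intro hh
        exact absurd (Finset.mem_range.2 (by omega)) hh
    · simp only [if_neg h]
      exact h3 i m L hmL
  · intro i l i' l' m m' hne hne' hjj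
    by_cases h : i ∈ Ex τ
    · simp only [if_pos h] at hne
      simp only [dif_pos h] at hjj
      have hl : l = 0 := by
        by_contra hl
        exact hne (if_neg hl)
      by_cases h' : i' ∈ Ex τ
      · simp only [if_pos h'] at hne'
        simp only [dif_pos h'] at hjj
        have hl' : l' = 0 := by
          by_contra hl
          exact hne' (if_neg hl)
        refine ⟨?_, by rw [hl, hl']⟩
        have := hβ (Subtype.ext hjj)
        exact congrArg Subtype.val this
      · simp only [dif_neg h'] at hjj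
        exfalso
        exact (hg2 (⟨i', h'⟩, l')).2 (hjj ▸ (β ⟨i, h⟩).2)
    · simp only [dif_neg h] at hjj
      by_cases h' : i' ∈ Ex τ
      · simp only [dif_pos h'] at hjj
        exfalso
        exact (hg2 (⟨i, h⟩, l)).2 (hjj ▸ (β ⟨i', h'⟩).2)
      · simp only [dif_neg h'] at hjj
        have := hg1 hjj
        simp only [Prod.mk.injEq, Subtype.mk.injEq] at this
        exact this
  · intro i L k
    by_cases h : i ∈ Ex τ
    · simp only [if_pos h, dif_pos h]
      refine le_trans (le_of_eq ?_) hδ.le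
      refine Finset.sum_eq_zero fun l _ => ?_
      by_cases hl : l = 0
      · simp only [if_pos hl]
        rw [one_mul, mul_one, hz k i _ (hβτ ⟨i, h⟩), sub_self, norm_zero]
      · simp only [if_neg hl]
        rw [zero_mul, mul_zero, sub_self, norm_zero]
    · simp only [if_neg h, dif_neg h]
      have hterm : ∀ l, ‖F i l * t i k - t' (g (⟨i, h⟩, l)) k * F i l‖ ≤ 2 * ρ * (1 / 2) ^ l := by
        intro l
        have e1 : F i l * t i k - t' (g (⟨i, h⟩, l)) k * F i l =
            (F i l * t i k - t i k * F i l) + (t i k - t' (g (⟨i, h⟩, l)) k) * F i l := by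
          rw [sub_mul]; abel
        rw [e1]
        refine (norm_add_le _ _).trans ?_
        have e2 : ‖(t i k - t' (g (⟨i, h⟩, l)) k) * F i l‖ ≤ R i l * κ i l := by
          refine norm_le_finite ε _ _ ?_ _ (hκ0 i l).le ?_
          · intro m hm
            show (t i k - t' (g (⟨i, h⟩, l)) k) (F i l (ε m)) = 0
            rw [h1, h2 i l m hm]
            simp
          · show ∀ m < R i l, ‖(t i k - t' (g (⟨i, h⟩, l)) k) (F i l (ε m))‖ ≤ κ i l
            intro m hm
            have e3 := hUW i l _ (hg2 (⟨i, h⟩, l)).1 k m hm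
            rw [h1, map_smul, norm_smul, Complex.norm_real, ContinuousLinearMap.sub_apply,
              ← hτ, ← hτ', ← norm_neg (τ i k m - _), neg_sub]
            have e4 : ‖f i l m‖ ≤ 1 := by
              rw [Real.norm_eq_abs]
              exact abs_le_one_iff_mul_self_le_one.2 (by have := hf1 i l m; rwa [sq] at this)
            calc ‖f i l m‖ * ‖τ' (g (⟨i, h⟩, l)) k m - τ i k m‖ ≤ 1 * κ i l := by
                  gcongr
              _ = κ i l := one_mul _
        have e5 : R i l * κ i l ≤ ρ * (1 / 2) ^ l := by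
          rw [hκ, mul_div_assoc', div_le_iff₀ (by positivity)]
          have : 0 ≤ ρ * (1 / 2 : ℝ) ^ l := by positivity
          nlinarith
        have e6 := h4 i l k
        linarith
      calc ∑ l ∈ Finset.range L, ‖F i l * t i k - t' (g (⟨i, h⟩, l)) k * F i l‖
          ≤ ∑ l ∈ Finset.range L, 2 * ρ * (1 / 2) ^ l := Finset.sum_le_sum fun l _ => hterm l
        _ = 2 * ρ * ∑ l ∈ Finset.range L, (1 / 2 : ℝ) ^ l := by rw [Finset.mul_sum]
        _ ≤ 2 * ρ * 2 := by
            gcongr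
            exact sum_geometric_two_le L
        _ = δ := by rw [hρ]; ring

end

end Pool.Agent.H86.CN
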