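import Pool.Graph.R_seed8.Helper965.CN.Defs

/-!
C*-seminorms on *-algebras and approximate intertwiners.
-/

set_option autoImplicit false

open scoped TensorProduct

namespace Pool.Agent.H86.CN

/-- `N` is a C*-seminorm on the complex *-algebra `A`. -/
structure IsCStarSemi {A : Type} [Ring A] [StarRing A] [Algebra ℂ A] (N : A → ℝ) : Prop where
  nonneg : ∀ x, 0 ≤ N x
  add_le : ∀ x y, N (x + y) ≤ N x + N y
  smul : ∀ (c : ℂ) (x : A), N (c • x) = ‖c‖ * N x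
  mul_le : ∀ x y, N (x * y) ≤ N x * N y
  norm_star : ∀ x, N (star x) = N x
  cstar : ∀ x, N (star x * x) = N x ^ 2

section general

variable {A : Type} [Ring A] [StarRing A] [Algebra ℂ A] {N : A → ℝ}

theorem IsCStarSemi.one_le (hN : IsCStarSemi N) : N 1 ≤ 1 := by
  have h1 := hN.cstar 1
  rw [star_one, mul_one] at h1
  have h2 := hN.nonneg 1
  nlinarith

theorem IsCStarSemi.isom_le (hN : IsCStarSemi N) {v : A} (hv : star v * v = 1) : N v ≤ 1 := by
  have h1 := hN.cstar v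
  rw [hv] at h1
  have h2 := hN.one_le
  have h3 := hN.nonneg v
  nlinarith

theorem IsCStarSemi.neg (hN : IsCStarSemi N) (x : A) : N (-x) = N x := by
  have := hN.smul (-1) x
  simpa using this

theorem IsCStarSemi.zero (hN : IsCStarSemi N) : N 0 = 0 := by
  have := hN.smul 0 0
  simpa using this

theorem IsCStarSemi.sum_le (hN : IsCStarSemi N) {ι : Type} (s : Finset ι) (x : ι → A) :
    N (∑ i ∈ s, x i) ≤ ∑ i ∈ s, N (x i) := by
  classical
  induction s using Finset.induction_on with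
  | empty => simp [hN.zero]
  | insert i s hi ih =>
    rw [Finset.sum_insert hi, Finset.sum_insert hi]
    exact (hN.add_le _ _).trans (by linarith)

/-- approximate intertwiners -/
theorem IsCStarSemi.intertwine (hN : IsCStarSemi N) (x x' v : A) (hv : star v * v = 1) :
    N x ≤ N x' + N (v * x - x' * v) := by
  have h1 : N (v * x) ^ 2 = N x ^ 2 := by
    rw [← hN.cstar, ← hN.cstar, star_mul]
    congr 1
    rw [mul_assoc, ← mul_assoc (star v) v x, hv, one_mul]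
  have h2 : N (v * x) = N x := by
    have a1 := hN.nonneg (v * x)
    have a2 := hN.nonneg x
    nlinarith [sq_nonneg (N (v * x) - N x), sq_nonneg (N (v * x) + N x)]
  have h3 : N (v * x) ≤ N (x' * v) + N (v * x - x' * v) := by
    have := hN.add_le (x' * v) (v * x - x' * v)
    rwa [add_sub_cancel] at this
  have h4 : N (x' * v) ≤ N x' := by
    refine (hN.mul_le _ _).trans ?_
    exact mul_le_of_le_one_right (hN.nonneg _) (hN.isom_le hv)
  linarith

end general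

section tensor

variable {A B : Type} [CStarAlgebra A] [CStarAlgebra B] {N : A ⊗[ℂ] B → ℝ}

theorem IsCStarSemi.tmul_le (hN : IsCStarSemi N) (a : A) (b : B) :
    N (a ⊗ₜ b) ≤ 4 * ‖a‖ * ‖b‖ := by
  obtain ⟨u, c, hu, hc⟩ := CStarAlgebra.exists_sum_four_unitary a
  obtain ⟨v, d, hv, hd⟩ := CStarAlgebra.exists_sum_four_unitary b
  have e : a ⊗ₜ[ℂ] b = ∑ i, ∑ j, (c i * d j) • ((u i : A) ⊗ₜ[ℂ] (v j : B)) := by
    conv_lhs => rw [hu, hv]
    rw [TensorProduct.sum_tmul]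
    refine Finset.sum_congr rfl fun i _ => ?_
    rw [TensorProduct.tmul_sum]
    refine Finset.sum_congr rfl fun j _ => ?_
    rw [TensorProduct.smul_tmul_smul]
  have hone : ∀ i j, N ((u i : A) ⊗ₜ[ℂ] (v j : B)) ≤ 1 := by
    intro i j
    apply hN.isom_le
    rw [TensorProduct.star_tmul, Algebra.TensorProduct.tmul_mul_tmul, Unitary.coe_star_mul_self,
      Unitary.coe_star_mul_self]
    rfl
  rw [e]
  refine (hN.sum_le _ _).trans ?_
  calc ∑ i, N (∑ j, (c i * d j) • ((u i : A) ⊗ₜ[ℂ] (v j : B)))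
      ≤ ∑ _i : Fin 4, ∑ _j : Fin 4, (‖a‖ / 2) * (‖b‖ / 2) := by
        refine Finset.sum_le_sum fun i _ => (hN.sum_le _ _).trans ?_
        refine Finset.sum_le_sum fun j _ => ?_
        rw [hN.smul, norm_mul]
        calc ‖c i‖ * ‖d j‖ * N ((u i : A) ⊗ₜ[ℂ] (v j : B)) ≤ ‖c i‖ * ‖d j‖ * 1 := by
              gcongr
              exact hone i j
          _ ≤ _ := by
              rw [mul_one]
              gcongr
              · exact hc i
              · exact hd j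
    _ = 4 * ‖a‖ * ‖b‖ := by
        simp only [Finset.sum_const, Finset.card_univ, Fintype.card_fin, nsmul_eq_mul]
        push_cast
        ring

/-- the first factor -/
theorem IsCStarSemi.left_le (hN : IsCStarSemi N) {n : ℕ} (a a' : Fin n → A) (b : Fin n → B)
    (V : A) (hV : star V * V = 1) (ε : ℝ) (h : ∀ k, ‖V * a k - a' k * V‖ ≤ ε) :
    N (∑ k, a k ⊗ₜ[ℂ] b k) ≤ N (∑ k, a' k ⊗ₜ[ℂ] b k) + 4 * ε * ∑ k, ‖b k‖ := by
  have h1 := hN.intertwine (∑ k, a k ⊗ₜ[ℂ] b k) (∑ k, a' k ⊗ₜ[ℂ] b k) (V ⊗ₜ[ℂ] (1 : B)) (by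
    rw [TensorProduct.star_tmul, Algebra.TensorProduct.tmul_mul_tmul, hV, star_one, one_mul]
    rfl)
  refine h1.trans (add_le_add le_rfl ?_)
  have e : (V ⊗ₜ[ℂ] (1 : B)) * (∑ k, a k ⊗ₜ[ℂ] b k) - (∑ k, a' k ⊗ₜ[ℂ] b k) * (V ⊗ₜ[ℂ] (1 : B)) =
      ∑ k, (V * a k - a' k * V) ⊗ₜ[ℂ] b k := by
    rw [Finset.mul_sum, Finset.sum_mul, ← Finset.sum_sub_distrib]
    refine Finset.sum_congr rfl fun k _ => ?_
    rw [Algebra.TensorProduct.tmul_mul_tmul, Algebra.TensorProduct.tmul_mul_tmul, one_mul, mul_one,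
      TensorProduct.sub_tmul]
  rw [e, Finset.mul_sum]
  refine (hN.sum_le _ _).trans (Finset.sum_le_sum fun k _ => (hN.tmul_le _ _).trans ?_)
  gcongr
  exact h k

/-- the second factor -/
theorem IsCStarSemi.right_le (hN : IsCStarSemi N) {n : ℕ} (a : Fin n → A) (b b' : Fin n → B)
    (V : B) (hV : star V * V = 1) (ε : ℝ) (h : ∀ k, ‖V * b k - b' k * V‖ ≤ ε) :
    N (∑ k, a k ⊗ₜ[ℂ] b k) ≤ N (∑ k, a k ⊗ₜ[ℂ] b' k) + 4 * ε * ∑ k, ‖a k‖ := by
  have h1 := hN.intertwine (∑ k, a k ⊗ₜ[ℂ] b k) (∑ k, a k ⊗ₜ[ℂ] b' k) ((1 : A) ⊗ₜ[ℂ] V) (by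
    rw [TensorProduct.star_tmul, Algebra.TensorProduct.tmul_mul_tmul, hV, star_one, one_mul]
    rfl)
  refine h1.trans (add_le_add le_rfl ?_)
  have e : ((1 : A) ⊗ₜ[ℂ] V) * (∑ k, a k ⊗ₜ[ℂ] b k) - (∑ k, a k ⊗ₜ[ℂ] b' k) * ((1 : A) ⊗ₜ[ℂ] V) =
      ∑ k, a k ⊗ₜ[ℂ] (V * b k - b' k * V) := by
    rw [Finset.mul_sum, Finset.sum_mul, ← Finset.sum_sub_distrib]
    refine Finset.sum_congr rfl fun k _ => ?_
    rw [Algebra.TensorProduct.tmul_mul_tmul, Algebra.TensorProduct.tmul_mul_tmul, one_mul, mul_one,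
      TensorProduct.tmul_sub]
  rw [e, Finset.mul_sum]
  refine (hN.sum_le _ _).trans (Finset.sum_le_sum fun k _ => (hN.tmul_le _ _).trans ?_)
  have h2 := h k
  have h3 : 0 ≤ ‖a k‖ := norm_nonneg _
  nlinarith

end tensor

end Pool.Agent.H86.CN
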