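import Mathlib

/-!
Families of functions from a countable set to a well-ordered set have coinitial subfamilies of
size at most the continuum.
-/

set_option autoImplicit false

open Cardinal Set

namespace Pool.Agent.H86.CN

/-- arities of the trees -/
def Ar (J : Type) : Option (Set J × J × Set J) → Type
  | none => Empty
  | some _ => J

/-- evaluation of the trees -/
noncomputable def evalW {J Λ : Type} (F : (J → Option Λ) → Set J → J → Λ) (z : Λ) :
    WType (Ar J) → Λ
  | ⟨none, _⟩ => z
  | ⟨some (B, j, D), c⟩ => by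
      classical
      exact F (fun j' => if j' ∈ D then none else some (evalW F z (c j'))) B j

theorem mk_trees_le (J : Type) [Countable J] : #(WType (Ar J)) ≤ 𝔠 := by
  apply WType.cardinalMk_le_of_le
  have hset : #(Set J) ≤ 𝔠 := by
    rw [Cardinal.mk_set, ← Cardinal.two_power_aleph0]
    exact Cardinal.power_le_power_left two_ne_zero (Cardinal.mk_le_aleph0_iff.2 inferInstance)
  have hshape : #(Option (Set J × J × Set J)) ≤ 𝔠 := by
    rw [Cardinal.mk_option, Cardinal.mk_prod, Cardinal.mk_prod]
    simp only [Cardinal.lift_id]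
    calc #(Set J) * (#J * #(Set J)) + 1 ≤ 𝔠 * (𝔠 * 𝔠) + 𝔠 := by
          refine add_le_add (mul_le_mul' hset (mul_le_mul' ?_ hset)) ?_
          · exact (Cardinal.mk_le_aleph0_iff.2 inferInstance).trans Cardinal.aleph0_le_continuum
          · exact Cardinal.one_le_aleph0.trans Cardinal.aleph0_le_continuum
      _ = 𝔠 := by simp
  calc Cardinal.sum (fun a => 𝔠 ^ #(Ar J a)) ≤
      Cardinal.sum (fun _ : Option (Set J × J × Set J) => 𝔠) := by
        apply Cardinal.sum_le_sum
        rintro (_ | p)
        · show 𝔠 ^ #Empty ≤ 𝔠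
          rw [Cardinal.mk_empty, Cardinal.power_zero]
          exact Cardinal.one_le_aleph0.trans Cardinal.aleph0_le_continuum
        · show 𝔠 ^ #J ≤ 𝔠
          calc 𝔠 ^ #J ≤ 𝔠 ^ ℵ₀ := Cardinal.power_le_power_left Cardinal.continuum_ne_zero
                (Cardinal.mk_le_aleph0_iff.2 inferInstance)
            _ = 𝔠 := Cardinal.continuum_power_aleph0
    _ = #(Option (Set J × J × Set J)) * 𝔠 := by rw [Cardinal.sum_const']
    _ ≤ 𝔠 * 𝔠 := mul_le_mul' hshape le_rfl
    _ = 𝔠 := Cardinal.continuum_mul_self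

/-- A coinitial subfamily of size at most the continuum. -/
theorem exists_coinitial {J Λ : Type} [Countable J] [LinearOrder Λ] [WellFoundedLT Λ]
    (P : Set (J → Λ)) : ∃ P₀ : Set (J → Λ), P₀ ⊆ P ∧ #P₀ ≤ 𝔠 ∧ ∀ f ∈ P, ∃ g ∈ P₀, ∀ j, g j ≤ f j := by
  classical
  rcases P.eq_empty_or_nonempty with rfl | ⟨f₀, hf₀⟩
  · exact ⟨∅, le_rfl, by simp, fun f hf => absurd hf (Set.notMem_empty f)⟩
  rcases isEmpty_or_nonempty J with hJ | ⟨⟨j₀⟩⟩
  · exact ⟨{f₀}, by simpa using hf₀, by
      rw [Cardinal.mk_singleton]
      exact Cardinal.one_le_aleph0.trans Cardinal.aleph0_le_continuum,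
      fun f _ => ⟨f₀, Set.mem_singleton _, fun j => (hJ.false j).elim⟩⟩
  obtain ⟨cond, hcond⟩ : ∃ cond : (J → Option Λ) → Set J → (J → Λ) → Prop, ∀ h B f,
      cond h B f ↔ ∀ j a, h j = some a → (f j ≤ a ∧ (j ∈ B → f j < a)) :=
    ⟨_, fun _ _ _ => Iff.rfl⟩
  have hF : ∀ (h : J → Option Λ) (B : Set J), ∃ g ∈ P, (∃ f ∈ P, cond h B f) → cond h B g := by
    intro h B
    by_cases hex : ∃ f ∈ P, cond h B f
    · obtain ⟨f, hf, hc⟩ := hex
      exact ⟨f, hf, fun _ => hc⟩
    · exact ⟨f₀, hf₀, fun h => absurd h hex⟩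
  choose F hFP hFc using hF
  let z := f₀ j₀
  let w₀ : WType (Ar J) := ⟨none, Empty.elim⟩
  refine ⟨Set.range (fun p : (J → Option (WType (Ar J))) × Set J =>
    F (fun j => (p.1 j).map (evalW F z)) p.2), ?_, ?_, ?_⟩
  · rintro _ ⟨p, rfl⟩
    exact hFP _ _
  · refine Cardinal.mk_range_le.trans ?_
    rw [Cardinal.mk_prod, Cardinal.lift_id, Cardinal.lift_id, Cardinal.mk_arrow, Cardinal.lift_id,
      Cardinal.lift_id, Cardinal.mk_option, Cardinal.mk_set]
    have h1 : #(WType (Ar J)) + 1 ≤ 𝔠 := by
      calc #(WType (Ar J)) + 1 ≤ 𝔠 + 𝔠 := add_le_add (mk_trees_le J)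
            (Cardinal.one_le_aleph0.trans Cardinal.aleph0_le_continuum)
        _ = 𝔠 := Cardinal.continuum_add_self
    have hJ : #J ≤ ℵ₀ := Cardinal.mk_le_aleph0_iff.2 inferInstance
    calc (#(WType (Ar J)) + 1) ^ #J * 2 ^ #J ≤ 𝔠 ^ ℵ₀ * 2 ^ ℵ₀ := by
          refine mul_le_mul' ?_ (Cardinal.power_le_power_left two_ne_zero hJ)
          exact (Cardinal.power_le_power_right h1).trans
            (Cardinal.power_le_power_left Cardinal.continuum_ne_zero hJ)
      _ = 𝔠 := by
          rw [Cardinal.continuum_power_aleph0, Cardinal.two_power_aleph0,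
            Cardinal.continuum_mul_self]
  · intro f hf
    -- values of elements of the family
    have hval : ∀ (c : J → Option (WType (Ar J))) (B : Set J) (j : J),
        ∃ w, F (fun j => (c j).map (evalW F z)) B j = evalW F z w := by
      intro c B j
      refine ⟨⟨some (B, j, {j' | c j' = none}), fun j' : J => (c j').getD w₀⟩, ?_⟩
      rw [evalW]
      have e : (fun j' => (c j').map (evalW F z)) =
          fun j' => if j' ∈ {j' | c j' = none} then none else
            some (evalW F z ((c j').getD w₀)) := by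
        funext j'
        by_cases h : c j' = none
        · rw [if_pos (show j' ∈ {j' | c j' = none} from h), h, Option.map_none]
        · rw [if_neg (show ¬ j' ∈ {j' | c j' = none} from h)]
          obtain ⟨w, hw⟩ := Option.ne_none_iff_exists'.1 h
          rw [hw, Option.map_some, Option.getD_some]
      rw [e]
      congr!
    -- the smallest values above
    have hc : ∀ j, ∃ o : Option (WType (Ar J)),
        (o = none → ∀ w, ¬ f j ≤ evalW F z w) ∧
        ∀ w, o = some w → f j ≤ evalW F z w ∧ ∀ w', f j ≤ evalW F z w' →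
          evalW F z w ≤ evalW F z w' := by
      intro j
      by_cases hex : ∃ w, f j ≤ evalW F z w
      · obtain ⟨a, ⟨w, hw1, hw2⟩, hmin⟩ := (wellFounded_lt (α := Λ)).has_min
          {a | ∃ w, f j ≤ evalW F z w ∧ a = evalW F z w} (by
            obtain ⟨w, hw⟩ := hex
            exact ⟨_, w, hw, rfl⟩)
        refine ⟨some w, fun h => absurd h (by simp), fun w' hw' => ?_⟩
        obtain rfl : w = w' := Option.some.inj hw'
        refine ⟨hw1, fun w' hw' => ?_⟩
        rw [← hw2]
        exact not_lt.1 (hmin _ ⟨w', hw', rfl⟩)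
      · refine ⟨none, fun _ w hw => hex ⟨w, hw⟩, fun w h => absurd h (by simp)⟩
    choose c hc1 hc2 using hc
    let h : J → Option Λ := fun j => (c j).map (evalW F z)
    let B : Set J := {j | ∀ a, h j = some a → f j < a}
    have hcf : cond h B f := by
      rw [hcond]
      intro j a ha
      refine ⟨?_, fun hj => hj a ha⟩
      rcases hcj : c j with _ | w
      · simp only [h, hcj, Option.map_none] at ha
        exact absurd ha (by simp)
      · simp only [h, hcj, Option.map_some] at ha
        rw [← Option.some.inj ha]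
        exact (hc2 j w hcj).1
    have hcg := (hcond _ _ _).1 (hFc h B ⟨f, hf, hcf⟩)
    refine ⟨F h B, ⟨(c, B), rfl⟩, fun j => ?_⟩
    obtain ⟨w, hw⟩ := hval c B j
    change F h B j = evalW F z w at hw
    rcases hcj : c j with _ | w₁
    · have h1 := hc1 j hcj w
      rw [← hw] at h1
      exact (not_le.1 h1).le
    · have hj : h j = some (evalW F z w₁) := by simp only [h, hcj, Option.map_some]
      obtain ⟨h1, h2⟩ := hcg j _ hj
      by_cases hB : j ∈ B
      · have h3 := h2 hB
        by_contra h4
        push Not at h4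
        have h5 := (hc2 j w₁ hcj).2 w (by rw [← hw]; exact h4.le)
        rw [← hw] at h5
        exact absurd h3 (not_lt.2 h5)
      · have h3 : ¬ f j < evalW F z w₁ := by
          intro h4
          apply hB
          intro a ha
          rw [hj] at ha
          rw [← Option.some.inj ha]
          exact h4
        exact h1.trans (not_lt.1 h3)

end Pool.Agent.H86.CN
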