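import Pool.Agent.H86.CN.Class
import Pool.Agent.H86.CN.Semi
import Pool.Agent.H86.CN.UpBasis
import Pool.Graph.R_seed8.Helper965.CN.Card

/-!
Counting the C*-seminorms.
-/

set_option autoImplicit false
set_option linter.unusedSectionVars false

open Filter Topology Cardinal Ordinal
open scoped InnerProductSpace TensorProduct

namespace Pool.Agent.H86.CN

/-- a code for the infinite cardinals up to `ℵ_ α` -/
theorem exists_code (α : Ordinal.{0}) : ∃ code : Cardinal.{0} → (Order.succ α).ToType,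
    ∀ κ κ', ℵ₀ ≤ κ → κ ≤ ℵ_ α → ℵ₀ ≤ κ' → κ' ≤ ℵ_ α → code κ ≤ code κ' → κ ≤ κ' := by
  classical
  have h : ∀ κ : Cardinal.{0}, ∃ γ : Ordinal.{0}, ℵ₀ ≤ κ → ℵ_ γ = κ := by
    intro κ
    by_cases hκ : ℵ₀ ≤ κ
    · obtain ⟨γ, hγ⟩ := Cardinal.mem_range_aleph_iff.2 hκ
      exact ⟨γ, fun _ => hγ⟩
    · exact ⟨0, fun h => absurd h hκ⟩
  choose γ hγ using h
  refine ⟨fun κ => if h : γ κ < Order.succ α then Ordinal.ToType.mk ⟨γ κ, h⟩ else
    Ordinal.ToType.mk ⟨α, Order.lt_succ α⟩, ?_⟩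
  intro κ κ' h1 h2 h1' h2' h
  have hlt : ∀ κ, ℵ₀ ≤ κ → κ ≤ ℵ_ α → γ κ < Order.succ α := by
    intro κ h1 h2
    rw [Order.lt_succ_iff]
    rw [← hγ κ h1] at h2
    exact Cardinal.aleph_le_aleph.1 h2
  simp only [dif_pos (hlt κ h1 h2), dif_pos (hlt κ' h1' h2')] at h
  have h3 := Ordinal.ToType.mk.le_iff_le.1 h
  have h4 : γ κ ≤ γ κ' := h3
  rw [← hγ κ h1, ← hγ κ' h1']
  exact Cardinal.aleph_le_aleph.2 h4

/-- the data of the exceptional indices -/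
def ExData {I Z : Type} [TopologicalSpace Z] [SecondCountableTopology Z] (τ : I → Z)
    (x : ℕ → Option Z) : Prop :=
  ∃ g : Ex τ → ℕ, Function.Injective g ∧ (∀ i, x (g i) = some (τ i)) ∧
    ∀ m, m ∉ Set.range g → x m = none

theorem exData_exists {I Z : Type} [TopologicalSpace Z] [SecondCountableTopology Z] (τ : I → Z) :
    ∃ x, ExData τ x := by
  classical
  have : Countable (Ex τ) := (Ex_countable τ).to_subtype
  obtain ⟨g, hg⟩ := exists_injective_nat (Ex τ)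
  refine ⟨fun m => if h : ∃ i, g i = m then some (τ h.choose) else none, g, hg, ?_, ?_⟩
  · intro i
    have h : ∃ i', g i' = g i := ⟨i, rfl⟩
    simp only [dif_pos h]
    rw [hg h.choose_spec]
  · intro m hm
    exact dif_neg (fun h => hm h)

theorem exData_match {I Z : Type} [TopologicalSpace Z] [SecondCountableTopology Z] {τ τ' : I → Z}
    {x : ℕ → Option Z} (h : ExData τ x) (h' : ExData τ' x) :
    ∃ β : Ex τ → Ex τ', Function.Injective β ∧ ∀ i, τ' (β i) = τ i := by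
  obtain ⟨g, hg, h1, _⟩ := h
  obtain ⟨g', hg', h1', h2'⟩ := h'
  have h3 : ∀ i : Ex τ, ∃ i' : Ex τ', g' i' = g i := by
    intro i
    by_contra hcon
    have := h2' (g i) hcon
    rw [h1] at this
    exact absurd this (by simp)
  choose β hβ using h3
  refine ⟨β, fun i j hij => hg (by rw [← hβ, ← hβ, hij]), fun i => ?_⟩
  have h4 := h1' (β i)
  rw [hβ, h1] at h4
  exact (Option.some.inj h4).symm

theorem mk_option_seq_le (Z : Type) (hZ : #Z ≤ 𝔠) : #(ℕ → Option Z) ≤ 𝔠 := by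
  apply Pool.Agent.Helper965.CN.mk_nat_fun_le
  rw [Cardinal.mk_option]
  calc #Z + 1 ≤ 𝔠 + 1 := add_le_add hZ le_rfl
    _ = 𝔠 := Cardinal.add_eq_left Cardinal.aleph0_le_continuum
        (Cardinal.one_le_aleph0.trans Cardinal.aleph0_le_continuum)

theorem mk_col_le (E : Type) [MetricSpace E] [Nonempty E] [TopologicalSpace.SeparableSpace E]
    (n : ℕ) : #(Fin n → ℕ → E) ≤ 𝔠 := by
  have h1 : #(ℕ → E) ≤ 𝔠 := Pool.Agent.Helper965.CN.mk_nat_fun_le _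
    (Pool.Agent.Helper965.CN.mk_sep_le E)
  rw [Cardinal.mk_arrow, Cardinal.lift_id, Cardinal.lift_id]
  calc #(ℕ → E) ^ #(Fin n) ≤ 𝔠 ^ #(Fin n) := Cardinal.power_le_power_right h1
    _ ≤ 𝔠 ^ ℵ₀ := Cardinal.power_le_power_left Cardinal.continuum_ne_zero
        (Cardinal.mk_le_aleph0_iff.2 inferInstance)
    _ = 𝔠 := Cardinal.continuum_power_aleph0

section

variable {E H : Type} [NormedAddCommGroup E] [InnerProductSpace ℂ E] [CompleteSpace E]
  [SecondCountableTopology E]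
  [NormedAddCommGroup H] [InnerProductSpace ℂ H] [CompleteSpace H]

/-- The invariant of a tuple of operators: multiplicities and exceptional data. -/
theorem exists_inv {X : Type} (e : HilbertBasis X ℂ H) (ε : HilbertBasis ℕ ℂ E) (α : Ordinal.{0})
    (hX0 : ℵ₀ ≤ #X) (hX : #X ≤ ℵ_ α) (n : ℕ) : ∃ (D : Type) (Inv : (Fin n → H →L[ℂ] H) → D)
      (Lev : (Fin n → H →L[ℂ] H) → ℕ → (Order.succ α).ToType),
      #D ≤ 𝔠 ∧ ∀ a a', Inv a = Inv a' → (∀ m, Lev a m ≤ Lev a' m) → ∀ δ > 0, ∃ V : H →L[ℂ] H,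
        star V * V = 1 ∧ ∀ k, ‖V * a k - a' k * V‖ ≤ δ := by
  classical
  obtain ⟨I, hI, hbl⟩ := exists_blocks e hX0
  choose b hb using hbl n
  choose ι t hι ha using fun a => exists_compress (b a) ε a (hb a)
  obtain ⟨τ, hτ⟩ : ∃ τ : (Fin n → H →L[ℂ] H) → I → Fin n → ℕ → E,
      ∀ a i k m, τ a i k m = t a i k (ε m) := ⟨_, fun _ _ _ _ => rfl⟩
  obtain ⟨code, hcode⟩ := exists_code α
  choose x hx using fun a => exData_exists (τ a)
  have hne : (TopologicalSpace.countableBasis (Fin n → ℕ → E)).Nonempty := by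
    obtain ⟨v, hv, _⟩ := (TopologicalSpace.isBasis_countableBasis
      (Fin n → ℕ → E)).exists_subset_of_mem_open (Set.mem_univ 0) isOpen_univ
    exact ⟨v, hv⟩
  obtain ⟨u, hu⟩ := (TopologicalSpace.countable_countableBasis
    (Fin n → ℕ → E)).exists_eq_range hne
  refine ⟨ℕ → Option (Fin n → ℕ → E), x, fun a m => code (max #{i // τ a i ∈ u m} ℵ₀),
    mk_option_seq_le _ (mk_col_le E n), ?_⟩
  intro a a' h2 h1 δ hδ
  obtain ⟨β, hβ, hβτ⟩ := exData_match (hx a) (h2 ▸ hx a')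
  have hle : ∀ a (U : Set (Fin n → ℕ → E)), #{i // τ a i ∈ U} ≤ ℵ_ α := by
    intro a U
    exact (Cardinal.mk_subtype_le _).trans (hI.trans hX)
  refine class_le (b a) (b a') ε (ι a) (ι a') (hι a) (hι a') (t a) (t a') a a'
    (ha a) (ha a') (τ a) (τ a') (hτ a) (hτ a') ?_ β hβ hβτ δ hδ
  intro U hU hlt
  rw [hu] at hU
  obtain ⟨m, rfl⟩ := hU
  have h3 := hcode _ _ (le_max_right _ _) (max_le (hle a _) (Cardinal.aleph0_le_aleph α))
    (le_max_right _ _) (max_le (hle a' _) (Cardinal.aleph0_le_aleph α)) (h1 m)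
  rw [max_eq_left hlt.le] at h3
  rcases le_total #{i // τ a' i ∈ u m} ℵ₀ with h4 | h4
  · rw [max_eq_right h4] at h3
    exact absurd hlt (not_lt.2 h3)
  · rwa [max_eq_left h4] at h3

end

theorem exists_fin_tmul {A B : Type} [AddCommGroup A] [Module ℂ A] [AddCommGroup B] [Module ℂ B]
    (x : A ⊗[ℂ] B) : ∃ (n : ℕ) (a : Fin n → A) (b : Fin n → B), x = ∑ k, a k ⊗ₜ[ℂ] b k := by
  induction x using TensorProduct.induction_on with
  | zero => exact ⟨0, Fin.elim0, Fin.elim0, by simp⟩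
  | tmul a b => exact ⟨1, fun _ => a, fun _ => b, by simp⟩
  | add x y hx hy =>
    obtain ⟨n, a, b, h1⟩ := hx
    obtain ⟨m, a', b', h2⟩ := hy
    refine ⟨n + m, Fin.append a a', Fin.append b b', ?_⟩
    rw [Fin.sum_univ_add]
    simp only [Fin.append_left, Fin.append_right]
    rw [← h1, ← h2]

/-- The number of C*-seminorms. -/
theorem semi_le {A B Λ : Type} [CStarAlgebra A] [CStarAlgebra B] [LinearOrder Λ]
    [WellFoundedLT Λ] (κ : Cardinal.{0}) (hκ : 2 ≤ κ) (hΛ : #Λ ≤ κ)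
    (hA : ∀ n, ∃ (D : Type) (Inv : (Fin n → A) → D) (Lev : (Fin n → A) → ℕ → Λ),
      #D ≤ 𝔠 ∧ ∀ a a', Inv a = Inv a' → (∀ m, Lev a m ≤ Lev a' m) → ∀ δ > 0,
      ∃ V : A, star V * V = 1 ∧ ∀ k, ‖V * a k - a' k * V‖ ≤ δ)
    (hB : ∀ n, ∃ (D : Type) (Inv : (Fin n → B) → D) (Lev : (Fin n → B) → ℕ → Λ),
      #D ≤ 𝔠 ∧ ∀ a a', Inv a = Inv a' → (∀ m, Lev a m ≤ Lev a' m) → ∀ δ > 0,
      ∃ V : B, star V * V = 1 ∧ ∀ k, ‖V * a k - a' k * V‖ ≤ δ) :
    #{N : A ⊗[ℂ] B → ℝ // IsCStarSemi N} ≤ κ ^ 𝔠 := by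
  classical
  choose DA IA LA hA1 hA2 using hA
  choose DB IB LB hB1 hB2 using hB
  have hle : ∀ (N : A ⊗[ℂ] B → ℝ), IsCStarSemi N → ∀ n (a a' : Fin n → A) (b b' : Fin n → B),
      IA n a = IA n a' → (∀ m, LA n a m ≤ LA n a' m) → IB n b = IB n b' →
      (∀ m, LB n b m ≤ LB n b' m) →
      N (∑ k, a k ⊗ₜ[ℂ] b k) ≤ N (∑ k, a' k ⊗ₜ[ℂ] b' k) := by
    intro N hN n a a' b b' h1 h1' h2 h2'
    have e1 : N (∑ k, a k ⊗ₜ[ℂ] b k) ≤ N (∑ k, a' k ⊗ₜ[ℂ] b k) := by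
      apply le_of_forall_pos_le_add
      intro η hη
      obtain ⟨V, hV, hV2⟩ := hA2 n a a' h1 h1' (η / (4 * (∑ k, ‖b k‖ + 1))) (by positivity)
      refine (hN.left_le a a' b V hV _ hV2).trans (add_le_add le_rfl ?_)
      have hs : 0 ≤ ∑ k, ‖b k‖ := by positivity
      rw [mul_div_assoc', div_mul_eq_mul_div, div_le_iff₀ (by positivity)]
      nlinarith
    have e2 : N (∑ k, a' k ⊗ₜ[ℂ] b k) ≤ N (∑ k, a' k ⊗ₜ[ℂ] b' k) := by
      apply le_of_forall_pos_le_add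
      intro η hη
      obtain ⟨V, hV, hV2⟩ := hB2 n b b' h2 h2' (η / (4 * (∑ k, ‖a' k‖ + 1))) (by positivity)
      refine (hN.right_le a' b b' V hV _ hV2).trans (add_le_add le_rfl ?_)
      have hs : 0 ≤ ∑ k, ‖a' k‖ := by positivity
      rw [mul_div_assoc', div_mul_eq_mul_div, div_le_iff₀ (by positivity)]
      nlinarith
    exact e1.trans e2
  -- the upper sets
  let S : Type := (Σ n, DA n × DB n) × ℚ
  let W : Type := ℕ ⊕ ℕ → Λ
  let T : (A ⊗[ℂ] B → ℝ) → S → Set W := fun N s =>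
    {f | ∃ (a : Fin s.1.1 → A) (b : Fin s.1.1 → B), IA _ a = s.1.2.1 ∧ IB _ b = s.1.2.2 ∧
      (∀ m, f (Sum.inl m) = LA _ a m) ∧ (∀ m, f (Sum.inr m) = LB _ b m) ∧
      (s.2 : ℝ) ≤ N (∑ k, a k ⊗ₜ[ℂ] b k)}
  have hco : ∀ N s, ∃ P₀ : Set W, P₀ ⊆ T N s ∧ #P₀ ≤ 𝔠 ∧
      ∀ f ∈ T N s, ∃ g ∈ P₀, ∀ j, g j ≤ f j := fun N s => exists_coinitial (T N s)
  choose P₀ hP1 hP2 hP3 using hco
  have henum : ∀ N s, ∃ ρ : ℝ → Option W, ∀ f, f ∈ P₀ N s ↔ ∃ r, ρ r = some f := by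
    intro N s
    have h1 : #(P₀ N s) ≤ #ℝ := by rw [Cardinal.mk_real]; exact hP2 N s
    obtain ⟨⟨g, hg⟩⟩ := h1
    refine ⟨fun r => if h : ∃ f, g f = r then some h.choose.1 else none, fun f => ?_⟩
    constructor
    · intro hf
      have h : ∃ f', g f' = g ⟨f, hf⟩ := ⟨_, rfl⟩
      refine ⟨g ⟨f, hf⟩, ?_⟩
      beta_reduce
      rw [dif_pos h]
      have := hg h.choose_spec
      rw [this]
    · rintro ⟨r, hr⟩
      by_cases h : ∃ f, g f = r
      · simp only [dif_pos h] at hr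
        rw [← Option.some.inj hr]
        exact h.choose.2
      · simp only [dif_neg h] at hr
        exact absurd hr (by simp)
  choose ρ hρ using henum
  have hinj : Function.Injective (fun (N : {N : A ⊗[ℂ] B → ℝ // IsCStarSemi N})
      (s : S) => ρ N.1 s) := by
    have key : ∀ N N' : A ⊗[ℂ] B → ℝ, IsCStarSemi N → IsCStarSemi N' → (∀ s, ρ N s = ρ N' s) →
        ∀ x, N x ≤ N' x := by
      intro N N' hN hN' h x
      obtain ⟨n, a, b, rfl⟩ := exists_fin_tmul x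
      by_contra hcon
      push Not at hcon
      obtain ⟨q, hq1, hq2⟩ := exists_rat_btwn hcon
      let s : S := (⟨n, IA n a, IB n b⟩, q)
      have h1 : Sum.elim (LA n a) (LB n b) ∈ T N s :=
        ⟨a, b, rfl, rfl, fun m => rfl, fun m => rfl, hq2.le⟩
      obtain ⟨g, hg1, hg2⟩ := hP3 N s _ h1
      have h2 : g ∈ P₀ N' s := by
        rw [hρ, ← h s, ← hρ]
        exact hg1
      obtain ⟨a', b', h3, h4, h5, h6, h7⟩ := hP1 N' s h2
      have h8 := hle N' hN' n a' a b' b h3 (fun m => by rw [← h5]; exact hg2 (Sum.inl m)) h4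
        (fun m => by rw [← h6]; exact hg2 (Sum.inr m))
      have h9 : (q : ℝ) ≤ N' (∑ k, a k ⊗ₜ[ℂ] b k) := h7.trans h8
      linarith
    rintro ⟨N, hN⟩ ⟨N', hN'⟩ h
    apply Subtype.ext
    funext x
    have h' : ∀ s, ρ N s = ρ N' s := fun s => congrFun h s
    exact le_antisymm (key N N' hN hN' h' x) (key N' N hN' hN (fun s => (h' s).symm) x)
  have hc0 : ℵ₀ ≤ 𝔠 := Cardinal.aleph0_le_continuum
  have hS : #S ≤ 𝔠 := by
    show #((Σ n, DA n × DB n) × ℚ) ≤ 𝔠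
    rw [Cardinal.mk_prod, Cardinal.lift_id, Cardinal.lift_id, Cardinal.mk_sigma]
    have h1 : Cardinal.sum (fun n => #(DA n × DB n)) ≤ 𝔠 := by
      calc Cardinal.sum (fun n => #(DA n × DB n)) ≤ Cardinal.sum (fun _ : ℕ => 𝔠) := by
            apply Cardinal.sum_le_sum
            intro n
            rw [Cardinal.mk_prod, Cardinal.lift_id, Cardinal.lift_id]
            calc #(DA n) * #(DB n) ≤ 𝔠 * 𝔠 := mul_le_mul' (hA1 n) (hB1 n)
              _ = 𝔠 := Cardinal.continuum_mul_self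
        _ = 𝔠 := by
            rw [Cardinal.sum_const', Cardinal.mk_nat, Cardinal.aleph0_mul_eq hc0]
    calc _ ≤ 𝔠 * 𝔠 := mul_le_mul' h1 ((Cardinal.mk_le_aleph0_iff.2 inferInstance).trans hc0)
      _ = 𝔠 := Cardinal.continuum_mul_self
  have hκ0 : κ ≠ 0 := by
    intro h
    rw [h] at hκ
    exact absurd hκ (by simp)
  have hpow : (2 : Cardinal.{0}) ≤ κ ^ 𝔠 := by
    calc (2 : Cardinal.{0}) ≤ κ := hκ
      _ = κ ^ (1 : Cardinal.{0}) := by rw [Cardinal.power_one]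
      _ ≤ κ ^ 𝔠 := Cardinal.power_le_power_left hκ0 (Cardinal.one_le_aleph0.trans hc0)
  have hinf : ℵ₀ ≤ κ ^ 𝔠 := by
    calc ℵ₀ ≤ 2 ^ 𝔠 := hc0.trans (Cardinal.cantor 𝔠).le
      _ ≤ κ ^ 𝔠 := Cardinal.power_le_power_right hκ
  have hW : #(Option W) ≤ κ ^ 𝔠 := by
    rw [Cardinal.mk_option]
    have h1 : #W ≤ κ ^ 𝔠 := by
      show #(ℕ ⊕ ℕ → Λ) ≤ κ ^ 𝔠
      rw [Cardinal.mk_arrow, Cardinal.lift_id, Cardinal.lift_id]
      calc #Λ ^ #(ℕ ⊕ ℕ) ≤ κ ^ #(ℕ ⊕ ℕ) := Cardinal.power_le_power_right hΛ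
        _ ≤ κ ^ 𝔠 := Cardinal.power_le_power_left hκ0
            ((Cardinal.mk_le_aleph0_iff.2 inferInstance).trans hc0)
    calc #W + 1 ≤ κ ^ 𝔠 + κ ^ 𝔠 := add_le_add h1 (Cardinal.one_le_aleph0.trans hinf)
      _ = κ ^ 𝔠 := Cardinal.add_eq_self hinf
  refine (Cardinal.mk_le_of_injective hinj).trans ?_
  rw [Cardinal.mk_arrow, Cardinal.lift_id, Cardinal.lift_id, Cardinal.mk_arrow, Cardinal.lift_id,
    Cardinal.lift_id, Cardinal.mk_real]
  calc (#(Option W) ^ 𝔠) ^ #S ≤ ((κ ^ 𝔠) ^ 𝔠) ^ #S :=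
        Cardinal.power_le_power_right (Cardinal.power_le_power_right hW)
    _ ≤ ((κ ^ 𝔠) ^ 𝔠) ^ 𝔠 := by
        apply Cardinal.power_le_power_left _ hS
        exact Cardinal.power_ne_zero _ (Cardinal.power_ne_zero _ hκ0)
    _ = κ ^ 𝔠 := by
        rw [← Cardinal.power_mul, ← Cardinal.power_mul, Cardinal.continuum_mul_self,
          Cardinal.continuum_mul_self]

end Pool.Agent.H86.CN
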