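import Pool.Agent.H86.CN.Amp

/-!
Transfer of positive functionals from a separable Hilbert space to a large one.
-/

set_option autoImplicit false
set_option linter.unusedSectionVars false

open Filter Topology Cardinal
open scoped InnerProductSpace TensorProduct ComplexOrder

namespace Pool.Agent.H86.CN

open Pool.Agent.Helper965.CN

section

variable {E F M L : Type} [NormedAddCommGroup E] [InnerProductSpace ℂ E] [CompleteSpace E]
  [NormedAddCommGroup F] [InnerProductSpace ℂ F] [CompleteSpace F]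
  [NormedAddCommGroup M] [InnerProductSpace ℂ M] [CompleteSpace M]
  [NormedAddCommGroup L] [InnerProductSpace ℂ L] [CompleteSpace L]

/-- the ranges of finitely many operators on a separable space lie in a copy of the model space -/
theorem exists_cover {X : Type} [Infinite X] (e : HilbertBasis X ℂ M) (ε : HilbertBasis ℕ ℂ E)
    {n : ℕ} (z : Fin n → E →L[ℂ] M) :
    ∃ T : E →ₗᵢ[ℂ] M, ∀ k, (T.toContinuousLinearMap.comp (adj T)).comp (z k) = z k := by
  classical
  obtain ⟨X₁, hX₁⟩ : ∃ X₁ : Set X, X₁ = (⋃ k, ⋃ m, {x | ⟪e x, z k (ε m)⟫_ℂ ≠ 0}) ∪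
    Set.range (Infinite.natEmbedding X) := ⟨_, rfl⟩
  have hc : X₁.Countable := by
    rw [hX₁]
    refine Set.Countable.union ?_ (Set.countable_range _)
    exact Set.countable_iUnion fun k => Set.countable_iUnion fun m => countable_inner e _
  have hi : Infinite X₁ := by
    refine Infinite.of_injective (fun m : ℕ => (⟨Infinite.natEmbedding X m, ?_⟩ : X₁)) ?_
    · rw [hX₁]
      exact Or.inr ⟨m, rfl⟩
    · intro m m' h
      exact (Infinite.natEmbedding X).injective (congrArg Subtype.val h)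
  have : Countable X₁ := hc.to_subtype
  obtain ⟨σ⟩ : Nonempty (ℕ ≃ X₁) := nonempty_equiv_of_countable
  obtain ⟨T, hT⟩ := exists_isom (H := M) ε (w := fun m => e (σ m))
    (e.orthonormal.comp _ (Subtype.val_injective.comp σ.injective))
  refine ⟨T, fun k => ?_⟩
  apply clm_ext ε
  intro m
  apply e.repr.injective
  ext x
  rw [e.repr_apply_apply, e.repr_apply_apply]
  show ⟪e x, T (adj T (z k (ε m)))⟫_ℂ = _
  by_cases hx : x ∈ X₁
  · have h1 : e x = T (ε (σ.symm ⟨x, hx⟩)) := by
      rw [hT]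
      simp
    rw [h1, LinearIsometry.inner_map_map, adj_inner]
  · have h1 : adj T (e x) = 0 := by
      apply ε.repr.injective
      ext m'
      rw [ε.repr_apply_apply, adj_inner, hT, map_zero]
      rw [e.orthonormal.2]
      · rfl
      · intro h
        exact hx (h ▸ (σ m').2)
    rw [← adj_inner', h1, inner_zero_left]
    by_contra h2
    apply hx
    rw [hX₁]
    refine Or.inl (Set.mem_iUnion.2 ⟨k, Set.mem_iUnion.2 ⟨m, ?_⟩⟩)
    exact fun h3 => h2 h3.symm

theorem exists_sq {X Y : Type} [Infinite X] [Infinite Y] (e : HilbertBasis X ℂ M)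
    (f : HilbertBasis Y ℂ L) (ε : HilbertBasis ℕ ℂ E) (ε' : HilbertBasis ℕ ℂ F)
    (V : E →ₗᵢ[ℂ] M) (W : F →ₗᵢ[ℂ] L) (s : (M →L[ℂ] M) ⊗[ℂ] (L →L[ℂ] L)) :
    ∃ r : (E →L[ℂ] E) ⊗[ℂ] (F →L[ℂ] F), cmp2 V W (star s * s) = star r * r := by
  have hs : ∃ (n : ℕ) (x : Fin n → M →L[ℂ] M) (y : Fin n → L →L[ℂ] L),
      s = ∑ k, x k ⊗ₜ[ℂ] y k := by
    induction s using TensorProduct.induction_on with
    | zero => exact ⟨0, Fin.elim0, Fin.elim0, by simp⟩
    | tmul a b => exact ⟨1, fun _ => a, fun _ => b, by simp⟩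
    | add x y hx hy =>
      obtain ⟨n, a, b, h1⟩ := hx
      obtain ⟨m, a', b', h2⟩ := hy
      refine ⟨n + m, Fin.append a a', Fin.append b b', ?_⟩
      rw [Fin.sum_univ_add]
      simp only [Fin.append_left, Fin.append_right]
      rw [← h1, ← h2]
  obtain ⟨n, x, y, rfl⟩ := hs
  obtain ⟨S, hS⟩ := exists_cover e ε (fun k => (x k).comp V.toContinuousLinearMap)
  obtain ⟨T, hT⟩ := exists_cover f ε' (fun k => (y k).comp W.toContinuousLinearMap)
  have key : ∀ {A B : Type} [NormedAddCommGroup A] [InnerProductSpace ℂ A] [CompleteSpace A]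
      [NormedAddCommGroup B] [InnerProductSpace ℂ B] [CompleteSpace B] (U : A →ₗᵢ[ℂ] B)
      (P : A →ₗᵢ[ℂ] B) (u v : B →L[ℂ] B), (∀ z, P (adj P (v (U z))) = v (U z)) →
      cmp U (star u * v) = star ((adj P).comp (u.comp U.toContinuousLinearMap)) *
        ((adj P).comp (v.comp U.toContinuousLinearMap)) := by
    intro A B _ _ _ _ _ _ U P u v h
    ext z
    apply ext_inner_left ℂ
    intro w
    show ⟪w, adj U ((star u) (v (U z)))⟫_ℂ =
      ⟪w, (star ((adj P).comp (u.comp U.toContinuousLinearMap))) (adj P (v (U z)))⟫_ℂ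
    rw [adj_inner, ContinuousLinearMap.star_eq_adjoint, ContinuousLinearMap.star_eq_adjoint,
      ContinuousLinearMap.adjoint_inner_right, ContinuousLinearMap.adjoint_inner_right]
    show _ = ⟪adj P (u (U w)), adj P (v (U z))⟫_ℂ
    rw [adj_inner', h]
  refine ⟨∑ k, ((adj S).comp ((x k).comp V.toContinuousLinearMap)) ⊗ₜ[ℂ]
    ((adj T).comp ((y k).comp W.toContinuousLinearMap)), ?_⟩
  rw [star_sum, star_sum, Finset.sum_mul_sum, Finset.sum_mul_sum, map_sum]
  refine Finset.sum_congr rfl fun k _ => ?_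
  rw [map_sum]
  refine Finset.sum_congr rfl fun l _ => ?_
  rw [TensorProduct.star_tmul, TensorProduct.star_tmul, Algebra.TensorProduct.tmul_mul_tmul,
    Algebra.TensorProduct.tmul_mul_tmul]
  show cmp V (star (x k) * x l) ⊗ₜ[ℂ] cmp W (star (y k) * y l) = _
  rw [key V S (x k) (x l) (fun z => congrArg (fun Q : E →L[ℂ] M => Q z) (hS l)),
    key W T (y k) (y l) (fun z => congrArg (fun Q : F →L[ℂ] L => Q z) (hT l))]

end

end Pool.Agent.H86.CN
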