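import Pool.Agent.H86.CN.Maps

/-!
Block diagonal amplifications over a set of indices.
-/

set_option autoImplicit false
set_option linter.unusedSectionVars false

open Filter Topology Cardinal
open scoped InnerProductSpace TensorProduct ComplexOrder

namespace Pool.Agent.H86.CN

section

variable {E K : Type} [NormedAddCommGroup E] [InnerProductSpace ℂ E] [CompleteSpace E]
  [NormedAddCommGroup K] [InnerProductSpace ℂ K] [CompleteSpace K]

theorem diag_ext {Y : Type} (g : HilbertBasis (Y × ℕ) ℂ K) (ε : HilbertBasis ℕ ℂ E)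
    (W : Y → E →ₗᵢ[ℂ] K) (hW : ∀ y m, W y (ε m) = g (y, m)) {S T : K →L[ℂ] K}
    (h : ∀ y v, S (W y v) = T (W y v)) : S = T := by
  apply clm_ext g
  rintro ⟨y, m⟩
  rw [← hW]
  exact h y _

theorem vec_ext {Y : Type} (g : HilbertBasis (Y × ℕ) ℂ K) (ε : HilbertBasis ℕ ℂ E)
    (W : Y → E →ₗᵢ[ℂ] K) (hW : ∀ y m, W y (ε m) = g (y, m)) {p q : K}
    (h : ∀ y v, ⟪W y v, p⟫_ℂ = ⟪W y v, q⟫_ℂ) : p = q := by
  apply g.repr.injective
  ext ⟨y, m⟩
  rw [g.repr_apply_apply, g.repr_apply_apply, ← hW]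
  exact h y _

/-- amplification of a unitary -/
theorem exists_diag_unitary {Y : Type} (g : HilbertBasis (Y × ℕ) ℂ K) (ε : HilbertBasis ℕ ℂ E)
    (W : Y → E →ₗᵢ[ℂ] K) (hW : ∀ y m, W y (ε m) = g (y, m)) (u : E →L[ℂ] E)
    (hu : star u * u = 1) : ∃ T : K →L[ℂ] K, ∀ y v, T (W y v) = W y (u v) := by
  have horth := isom_orth g ε W hW
  have hui : ∀ v w, ⟪u v, u w⟫_ℂ = ⟪v, w⟫_ℂ := by
    intro v w
    have h1 : ⟪v, (star u * u) w⟫_ℂ = ⟪v, w⟫_ℂ := by rw [hu]; rfl
    rw [← h1]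
    show _ = ⟪v, (star u) (u w)⟫_ℂ
    rw [ContinuousLinearMap.star_eq_adjoint, ContinuousLinearMap.adjoint_inner_right]
  have hon : Orthonormal ℂ (fun p : Y × ℕ => W p.1 (u (ε p.2))) := by
    constructor
    · intro p
      rw [LinearIsometry.norm_map]
      have h1 := hui (ε p.2) (ε p.2)
      have h2 : ‖u (ε p.2)‖ ^ 2 = 1 := by
        rw [inner_self_eq_norm_sq_to_K (𝕜 := ℂ), inner_self_eq_norm_sq_to_K (𝕜 := ℂ),
          ε.orthonormal.1] at h1
        simp only [Complex.coe_algebraMap, Complex.ofReal_one, one_pow] at h1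
        exact_mod_cast h1
      have h3 := norm_nonneg (u (ε p.2))
      nlinarith
    · intro p q hpq
      by_cases h : p.1 = q.1
      · have h2 : p.2 ≠ q.2 := fun h' => hpq (Prod.ext h h')
        show ⟪W p.1 (u (ε p.2)), W q.1 (u (ε q.2))⟫_ℂ = 0
        rw [h, LinearIsometry.inner_map_map, hui]
        exact ε.orthonormal.2 h2
      · exact horth _ _ _ _ h
  obtain ⟨T, hT⟩ := exists_isom g hon
  refine ⟨T.toContinuousLinearMap, fun y v => ?_⟩
  have h : T.toContinuousLinearMap.comp (W y).toContinuousLinearMap =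
      (W y).toContinuousLinearMap.comp u := by
    apply clm_ext ε
    intro m
    show T (W y (ε m)) = W y (u (ε m))
    rw [hW, hT]
  exact congrArg (fun L : E →L[ℂ] K => L v) h

/-- the projection onto the blocks of `D` -/
theorem exists_diag_proj {Y : Type} (g : HilbertBasis (Y × ℕ) ℂ K) (ε : HilbertBasis ℕ ℂ E)
    (W : Y → E →ₗᵢ[ℂ] K) (hW : ∀ y m, W y (ε m) = g (y, m)) (D : Set Y) :
    ∃ T : K →L[ℂ] K, (∀ y ∈ D, ∀ v, T (W y v) = W y v) ∧ ∀ y ∉ D, ∀ v, T (W y v) = 0 := by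
  classical
  obtain ⟨s, hs⟩ : ∃ s : Y → ℂ, ∀ y, s y = if y ∈ D then 1 else -1 := ⟨_, fun _ => rfl⟩
  have hs1 : ∀ y, ‖s y‖ = 1 := by
    intro y
    rw [hs]
    split_ifs <;> simp
  have hon : Orthonormal ℂ (fun p : Y × ℕ => s p.1 • g p) := by
    constructor
    · intro p
      rw [norm_smul, hs1, g.orthonormal.1, one_mul]
    · intro p q hpq
      show ⟪s p.1 • g p, s q.1 • g q⟫_ℂ = 0
      rw [inner_smul_left, inner_smul_right, g.orthonormal.2 hpq, mul_zero, mul_zero]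
  obtain ⟨T, hT⟩ := exists_isom g hon
  have hTW : ∀ y v, T (W y v) = s y • W y v := by
    intro y v
    have h : T.toContinuousLinearMap.comp (W y).toContinuousLinearMap =
        s y • (W y).toContinuousLinearMap := by
      apply clm_ext ε
      intro m
      show T (W y (ε m)) = s y • W y (ε m)
      rw [hW, hT]
    exact congrArg (fun L : E →L[ℂ] K => L v) h
  refine ⟨(1 / 2 : ℂ) • (1 + T.toContinuousLinearMap), fun y hy v => ?_, fun y hy v => ?_⟩
  · show (1 / 2 : ℂ) • (W y v + T (W y v)) = W y v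
    rw [hTW, hs, if_pos hy, one_smul, ← two_smul ℂ, smul_smul]
    norm_num
  · show (1 / 2 : ℂ) • (W y v + T (W y v)) = 0
    rw [hTW, hs, if_neg hy, neg_one_smul, add_neg_cancel, smul_zero]

/-- amplification over `D` -/
theorem exists_diag {Y : Type} (g : HilbertBasis (Y × ℕ) ℂ K) (ε : HilbertBasis ℕ ℂ E)
    (W : Y → E →ₗᵢ[ℂ] K) (hW : ∀ y m, W y (ε m) = g (y, m)) (D : Set Y) :
    ∃ G : (E →L[ℂ] E) →ₗ[ℂ] (K →L[ℂ] K), (∀ x, ∀ y ∈ D, ∀ v, G x (W y v) = W y (x v)) ∧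
      ∀ x, ∀ y ∉ D, ∀ v, G x (W y v) = 0 := by
  classical
  obtain ⟨P, hP1, hP2⟩ := exists_diag_proj g ε W hW D
  have h : ∀ x : E →L[ℂ] E, ∃ T : K →L[ℂ] K, (∀ y ∈ D, ∀ v, T (W y v) = W y (x v)) ∧
      ∀ y ∉ D, ∀ v, T (W y v) = 0 := by
    intro x
    obtain ⟨u, c, hu, _⟩ := CStarAlgebra.exists_sum_four_unitary x
    choose T hT using fun i => exists_diag_unitary g ε W hW (u i : E →L[ℂ] E)
      (Unitary.coe_star_mul_self (u i))
    refine ⟨(∑ i, c i • T i) * P, fun y hy v => ?_, fun y hy v => ?_⟩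
    · show (∑ i, c i • T i) (P (W y v)) = _
      rw [hP1 y hy, ContinuousLinearMap.sum_apply]
      conv_rhs => rw [hu, ContinuousLinearMap.sum_apply, map_sum]
      refine Finset.sum_congr rfl fun i _ => ?_
      show c i • T i (W y v) = W y (c i • (u i : E →L[ℂ] E) v)
      rw [hT, map_smul]
    · show (∑ i, c i • T i) (P (W y v)) = 0
      rw [hP2 y hy, map_zero]
  choose T hT1 hT2 using h
  refine ⟨{ toFun := T, map_add' := fun x x' => ?_, map_smul' := fun c x => ?_ }, hT1, hT2⟩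
  · apply diag_ext g ε W hW
    intro y v
    by_cases hy : y ∈ D
    · show T (x + x') (W y v) = T x (W y v) + T x' (W y v)
      rw [hT1 _ y hy, hT1 _ y hy, hT1 _ y hy, ← map_add]
      rfl
    · show T (x + x') (W y v) = T x (W y v) + T x' (W y v)
      rw [hT2 _ y hy, hT2 _ y hy, hT2 _ y hy, add_zero]
  · apply diag_ext g ε W hW
    intro y v
    by_cases hy : y ∈ D
    · show T (c • x) (W y v) = c • T x (W y v)
      rw [hT1 _ y hy, hT1 _ y hy, ← map_smul]
      rfl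
    · show T (c • x) (W y v) = c • T x (W y v)
      rw [hT2 _ y hy, hT2 _ y hy, smul_zero]

variable {Y : Type} (g : HilbertBasis (Y × ℕ) ℂ K) (ε : HilbertBasis ℕ ℂ E)
    (W : Y → E →ₗᵢ[ℂ] K) (hW : ∀ y m, W y (ε m) = g (y, m)) (D : Set Y)
    (G : (E →L[ℂ] E) →ₗ[ℂ] (K →L[ℂ] K)) (hG1 : ∀ x, ∀ y ∈ D, ∀ v, G x (W y v) = W y (x v))
    (hG2 : ∀ x, ∀ y ∉ D, ∀ v, G x (W y v) = 0)

include hW hG1 hG2

theorem diag_mul (x x' : E →L[ℂ] E) : G (x * x') = G x * G x' := by
  apply diag_ext g ε W hW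
  intro y v
  show _ = G x (G x' (W y v))
  by_cases hy : y ∈ D
  · rw [hG1 _ y hy, hG1 _ y hy, hG1 _ y hy]; rfl
  · rw [hG2 _ y hy, hG2 _ y hy, map_zero]

theorem diag_star (x : E →L[ℂ] E) : G (star x) = star (G x) := by
  classical
  have horth := isom_orth g ε W hW
  apply diag_ext g ε W hW
  intro y v
  apply vec_ext g ε W hW
  intro y' v'
  rw [ContinuousLinearMap.star_eq_adjoint (G x), ContinuousLinearMap.adjoint_inner_right]
  by_cases hy : y ∈ D
  · rw [hG1 _ y hy]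
    by_cases hyy : y' = y
    · subst hyy
      rw [hG1 _ y' hy, LinearIsometry.inner_map_map, LinearIsometry.inner_map_map,
        ContinuousLinearMap.star_eq_adjoint, ContinuousLinearMap.adjoint_inner_right]
    · rw [horth _ _ _ _ hyy]
      by_cases hy' : y' ∈ D
      · rw [hG1 _ y' hy', horth _ _ _ _ hyy]
      · rw [hG2 _ y' hy', inner_zero_left]
  · rw [hG2 _ y hy, inner_zero_right]
    by_cases hy' : y' ∈ D
    · rw [hG1 _ y' hy', horth]
      intro h
      exact hy (h ▸ hy')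
    · rw [hG2 _ y' hy', inner_zero_left]

theorem diag_cmp (x : E →L[ℂ] E) (y : Y) (hy : y ∈ D) : cmp (W y) (G x) = x := by
  ext v
  rw [cmp_apply, hG1 _ y hy, adj_apply]

theorem diag_mul_amp (x x' : E →L[ℂ] E) (y : Y) (hy : y ∈ D) :
    G x * amp (W y) x' = amp (W y) (x * x') := by
  ext v
  show G x (amp (W y) x' v) = _
  rw [amp_apply, amp_apply, hG1 _ y hy]
  rfl

theorem diag_mul_amp' (x x' : E →L[ℂ] E) (y : Y) (hy : y ∉ D) :
    G x * amp (W y) x' = 0 := by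
  ext v
  show G x (amp (W y) x' v) = _
  rw [amp_apply, hG2 _ y hy]
  rfl

end

end Pool.Agent.H86.CN
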