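import Pool.Agent.H86.CN.Up2

/-!
The family of states with all the properties used below.
-/

set_option autoImplicit false
set_option linter.unusedSectionVars false
open scoped TensorProduct ComplexOrder BigOperators Matrix InnerProductSpace
open Filter Topology

namespace Pool.Agent.H86.CN
open Pool.Agent.Helper965.CN

variable {H : Type} [NormedAddCommGroup H] [InnerProductSpace ℂ H] [CompleteSpace H]

theorem exists_family3 [TopologicalSpace.SeparableSpace H] (hH : ¬ FiniteDimensional ℂ H) :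
    ∃ (k : ℕ → ℕ) (b : HilbertBasis (Σ j, Bl (k j)) ℂ H) (T : Set ℕ) (S : (ℕ → Bool) → Set ℕ)
      (U : (ℕ → Bool) → Ultrafilter ℕ)
      (φ : (ℕ → Bool) → ((H →L[ℂ] H) ⊗[ℂ] (H →L[ℂ] H) →ₗ[ℂ] ℂ)),
      Grow k ∧ (∀ a, (U a : Filter ℕ) ≤ atTop) ∧ (∀ a c, a ≠ c → S c ∉ U a) ∧
      (∀ a (ζ : H ⊗[ℂ] H), ‖R (tST b (S a) T) ζ‖ ≤ (4 - 1 / 10 ^ 12) * ‖ζ‖) ∧
      (∀ a s, 0 ≤ φ a (star s * s)) ∧ (∀ a, φ a 1 = 1) ∧
      (∀ a, φ a (PS b (S a) ⊗ₜ PS b T) = 1 ∧ ∀ i, φ a (XS b (S a) i ⊗ₜ YT b T i) = 1) ∧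
      (∀ a, UType k (U a) (φ a)) ∧
      (∀ a (x y : H →L[ℂ] H), IsCompactOperator y → φ a (x ⊗ₜ y) = 0) := by
  obtain ⟨k, τ, hk, hτ⟩ := exists_scales (fun n g => ntr n g) norm_ntr_le
  obtain ⟨S, hSinf, hSeven, hSad⟩ := exists_ad
  have : Infinite (Σ j, Bl (k j)) := by
    refine Infinite.of_injective (fun n : ℕ => (⟨n, 0⟩ : Σ j, Bl (k j))) ?_
    intro n m h
    exact congrArg Sigma.fst h
  obtain ⟨b⟩ := exists_basis (Σ j, Bl (k j)) hH
  let T : Set ℕ := {n | Odd n}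
  have hTinf : T.Infinite := by
    refine Set.infinite_of_injective_forall_mem (f := fun n : ℕ => 2 * n + 1) ?_ ?_
    · intro n m h
      simpa using h
    · intro n
      exact ⟨n, rfl⟩
  obtain ⟨V, hV, hTV⟩ := exists_ultra T hTinf
  choose U hU hSU using fun a => exists_ultra (S a) (hSinf a)
  choose φ h1 h2 h3 h4 h5 using fun a => exists_state b τ hτ (U a) V (hU a) hV
  refine ⟨k, b, T, S, U, φ, hk, hU, ?_, ?_, h1, h2, fun a => h3 a (S a) (hSU a) T hTV, h4, ?_⟩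
  · intro a c hac hc
    have h6 : S a ∩ S c ∈ U a := Filter.inter_mem (hSU a) hc
    have h7 : (S a ∩ S c)ᶜ ∈ (U a : Filter ℕ) := by
      apply hU a
      have := (hSad a c hac).compl_mem_cofinite
      rwa [Nat.cofinite_eq_atTop] at this
    exact (Ultrafilter.compl_mem_iff_notMem.1 h7) h6
  · intro a ζ
    refine min_bound b hk (S a) T ?_ _ _ _ _ (fun j t => PS_apply b (S a) j t)
      (fun j t => PS_apply b T j t) (fun i j t => XS_apply b (S a) i j t)
      (fun i j t => YT_apply b T i j t) ζ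
    rw [Set.disjoint_left]
    intro n hn hn'
    exact (Nat.not_odd_iff_even.2 (hSeven a n hn)) hn'
  · intro a x y hy
    exact h5 a x y fun g h => rv_compact b hy g h

end Pool.Agent.H86.CN
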