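import Mathlib

/-!
Isometries between Hilbert spaces given on Hilbert bases; norms of operators with orthogonal
columns.
-/

set_option autoImplicit false
set_option linter.unusedSectionVars false

open Filter Topology
open scoped InnerProductSpace

namespace Pool.Agent.H86.CN

section

variable {E H G : Type} [NormedAddCommGroup E] [InnerProductSpace ℂ E] [CompleteSpace E]
  [NormedAddCommGroup H] [InnerProductSpace ℂ H] [CompleteSpace H]
  [NormedAddCommGroup G] [InnerProductSpace ℂ G] [CompleteSpace G]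

theorem exists_isom {J : Type} (ε : HilbertBasis J ℂ E) {w : J → H} (hw : Orthonormal ℂ w) :
    ∃ U : E →ₗᵢ[ℂ] H, ∀ j, U (ε j) = w j := by
  classical
  refine ⟨hw.orthogonalFamily.linearIsometry.comp ε.repr.toLinearIsometry, fun j => ?_⟩
  show hw.orthogonalFamily.linearIsometry (ε.repr (ε j)) = w j
  rw [ε.repr_self, hw.orthogonalFamily.linearIsometry_apply_single]
  simp [LinearIsometry.toSpanSingleton_apply]

theorem clm_ext {J : Type} (ε : HilbertBasis J ℂ E) {S T : E →L[ℂ] H}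
    (h : ∀ j, S (ε j) = T (ε j)) : S = T := by
  apply ContinuousLinearMap.ext_on (s := Set.range ε)
  · exact Submodule.dense_iff_topologicalClosure_eq_top.mpr ε.dense_span
  · rintro _ ⟨j, rfl⟩
    exact h j

theorem norm_sum_sq {J : Type} (s : Finset J) (y : J → H)
    (h : ∀ i ∈ s, ∀ j ∈ s, i ≠ j → ⟪y i, y j⟫_ℂ = 0) :
    ‖∑ i ∈ s, y i‖ ^ 2 = ∑ i ∈ s, ‖y i‖ ^ 2 := by
  have h1 : ⟪∑ i ∈ s, y i, ∑ i ∈ s, y i⟫_ℂ = ∑ i ∈ s, ⟪y i, y i⟫_ℂ := by
    rw [sum_inner]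
    refine Finset.sum_congr rfl fun i hi => ?_
    rw [inner_sum, Finset.sum_eq_single i]
    · intro j hj hji
      exact h i hi j hj (Ne.symm hji)
    · intro h'
      exact absurd hi h'
  have h2 := congrArg Complex.re h1
  rw [Complex.re_sum] at h2
  have h3 : ∀ x : H, (⟪x, x⟫_ℂ).re = ‖x‖ ^ 2 := fun x => by
    have := inner_self_eq_norm_sq (𝕜 := ℂ) x
    simpa using this
  rw [h3] at h2
  rw [h2]
  exact Finset.sum_congr rfl fun i _ => h3 _

/-- every vector is a limit of finite combinations; a closed inequality is checked on them -/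
theorem norm_le_of_dense {J : Type} (ε : HilbertBasis J ℂ E) (T : E →L[ℂ] H) (C : ℝ)
    (h : ∀ (s : Finset J) (c : J → ℂ), ‖T (∑ j ∈ s, c j • ε j)‖ ≤ C * ‖∑ j ∈ s, c j • ε j‖) :
    ∀ x, ‖T x‖ ≤ C * ‖x‖ := by
  have hcl : IsClosed {x : E | ‖T x‖ ≤ C * ‖x‖} :=
    isClosed_le (by fun_prop) (by fun_prop)
  have hd : Dense ((Submodule.span ℂ (Set.range ε) : Submodule ℂ E) : Set E) :=
    Submodule.dense_iff_topologicalClosure_eq_top.mpr ε.dense_span
  have hsub : ((Submodule.span ℂ (Set.range ε) : Submodule ℂ E) : Set E) ⊆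
      {x : E | ‖T x‖ ≤ C * ‖x‖} := by
    intro x hx
    obtain ⟨c, rfl⟩ := Finsupp.mem_span_range_iff_exists_finsupp.1 hx
    exact h c.support c
  intro x
  have := hcl.closure_subset_iff.2 hsub
  rw [hd.closure_eq] at this
  exact this (Set.mem_univ x)

/-- orthogonal columns of norm at most `C` -/
theorem norm_le_of_orth {J : Type} (ε : HilbertBasis J ℂ E) (T : E →L[ℂ] H) (C : ℝ) (hC : 0 ≤ C)
    (h1 : ∀ i j, i ≠ j → ⟪T (ε i), T (ε j)⟫_ℂ = 0) (h2 : ∀ j, ‖T (ε j)‖ ≤ C) :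
    ∀ x, ‖T x‖ ≤ C * ‖x‖ := by
  apply norm_le_of_dense ε
  intro s c
  have e1 : ‖T (∑ j ∈ s, c j • ε j)‖ ^ 2 = ∑ j ∈ s, ‖c j • T (ε j)‖ ^ 2 := by
    rw [map_sum]
    simp only [map_smul]
    apply norm_sum_sq
    intro i _ j _ hij
    rw [inner_smul_left, inner_smul_right, h1 i j hij, mul_zero, mul_zero]
  have e2 : ‖∑ j ∈ s, c j • ε j‖ ^ 2 = ∑ j ∈ s, ‖c j • ε j‖ ^ 2 := by
    apply norm_sum_sq
    intro i _ j _ hij
    rw [inner_smul_left, inner_smul_right, ε.orthonormal.2 hij, mul_zero, mul_zero]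
  have e3 : ‖T (∑ j ∈ s, c j • ε j)‖ ^ 2 ≤ (C * ‖∑ j ∈ s, c j • ε j‖) ^ 2 := by
    rw [mul_pow, e1, e2, Finset.mul_sum]
    refine Finset.sum_le_sum fun j _ => ?_
    rw [norm_smul, norm_smul, ε.orthonormal.1, mul_one, mul_pow, mul_comm]
    gcongr
    exact h2 j
  exact abs_le_of_sq_le_sq' e3 (by positivity) |>.2

/-- operator version: blocks with orthogonal ranges -/
theorem norm_le_of_blocks {I : Type} (b : HilbertBasis (I × ℕ) ℂ H) (ε : HilbertBasis ℕ ℂ E)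
    (ι : I → E →ₗᵢ[ℂ] H) (hι : ∀ i m, ι i (ε m) = b (i, m)) (T : H →L[ℂ] G) (C : ℝ) (hC : 0 ≤ C)
    (h1 : ∀ i j x y, i ≠ j → ⟪T (ι i x), T (ι j y)⟫_ℂ = 0) (h2 : ∀ i x, ‖T (ι i x)‖ ≤ C * ‖x‖) :
    ∀ x, ‖T x‖ ≤ C * ‖x‖ := by
  classical
  apply norm_le_of_dense b
  intro s c
  let d : I × ℕ → ℂ := fun p => if p ∈ s then c p else 0
  let A := s.image Prod.fst
  let B := s.image Prod.snd
  have e0 : ∑ p ∈ s, c p • b p = ∑ i ∈ A, ι i (∑ m ∈ B, d (i, m) • ε m) := by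
    have a1 : ∑ p ∈ s, c p • b p = ∑ p ∈ A ×ˢ B, d p • b p := by
      rw [← Finset.sum_subset (s₁ := s) (f := fun p => d p • b p)]
      · refine Finset.sum_congr rfl fun p hp => ?_
        simp only [d, if_pos hp]
      · intro p hp
        rw [Finset.mem_product]
        exact ⟨Finset.mem_image_of_mem _ hp, Finset.mem_image_of_mem _ hp⟩
      · intro p _ hp
        simp only [d, if_neg hp, zero_smul]
    rw [a1, Finset.sum_product]
    refine Finset.sum_congr rfl fun i _ => ?_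
    rw [map_sum]
    refine Finset.sum_congr rfl fun m _ => ?_
    rw [map_smul, hι]
  rw [e0]
  obtain ⟨z, hz⟩ : ∃ z : I → E, ∀ i, z i = ∑ m ∈ B, d (i, m) • ε m := ⟨_, fun _ => rfl⟩
  simp only [← hz]
  have horth : ∀ i j x y, i ≠ j → ⟪ι i x, ι j y⟫_ℂ = 0 := by
    intro i j x y hij
    have k1 : ∀ m, ⟪b (i, m), ι j y⟫_ℂ = 0 := by
      intro m
      have k2 : (innerSL ℂ (b (i, m))).comp (ι j).toContinuousLinearMap = 0 := by
        apply clm_ext ε
        intro m'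
        show ⟪b (i, m), ι j (ε m')⟫_ℂ = 0
        rw [hι]
        exact b.orthonormal.2 (fun h => hij (congrArg Prod.fst h))
      exact congrArg (fun L : E →L[ℂ] ℂ => L y) k2
    have k3 : (innerSL ℂ (ι j y)).comp (ι i).toContinuousLinearMap = 0 := by
      apply clm_ext ε
      intro m
      show ⟪ι j y, ι i (ε m)⟫_ℂ = 0
      rw [hι, ← inner_conj_symm, k1, map_zero]
    have k4 : ⟪ι j y, ι i x⟫_ℂ = 0 := congrArg (fun L : E →L[ℂ] ℂ => L x) k3
    rw [← inner_conj_symm, k4, map_zero]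
  have e1 : ‖T (∑ i ∈ A, ι i (z i))‖ ^ 2 = ∑ i ∈ A, ‖T (ι i (z i))‖ ^ 2 := by
    rw [map_sum]
    apply norm_sum_sq
    intro i _ j _ hij
    exact h1 i j _ _ hij
  have e2 : ‖∑ i ∈ A, ι i (z i)‖ ^ 2 = ∑ i ∈ A, ‖z i‖ ^ 2 := by
    rw [norm_sum_sq]
    · refine Finset.sum_congr rfl fun i _ => ?_
      rw [LinearIsometry.norm_map]
    · intro i _ j _ hij
      exact horth i j _ _ hij
  have e3 : ‖T (∑ i ∈ A, ι i (z i))‖ ^ 2 ≤ (C * ‖∑ i ∈ A, ι i (z i)‖) ^ 2 := by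
    rw [mul_pow, e1, e2, Finset.mul_sum]
    refine Finset.sum_le_sum fun i _ => ?_
    rw [← mul_pow]
    exact pow_le_pow_left₀ (norm_nonneg _) (h2 i _) 2
  exact abs_le_of_sq_le_sq' e3 (by positivity) |>.2

end

end Pool.Agent.H86.CN
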