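import Pool.Agent.H86.CN.Frame

/-!
Gluing: an isometry which approximately intertwines two block diagonal tuples.
-/

set_option autoImplicit false
set_option linter.unusedSectionVars false

open Filter Topology
open scoped InnerProductSpace

namespace Pool.Agent.H86.CN

section

variable {E H : Type} [NormedAddCommGroup E] [InnerProductSpace ℂ E] [CompleteSpace E]
  [NormedAddCommGroup H] [InnerProductSpace ℂ H] [CompleteSpace H]

theorem isom_orth {I : Type} (b : HilbertBasis (I × ℕ) ℂ H) (ε : HilbertBasis ℕ ℂ E)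
    (ι : I → E →ₗᵢ[ℂ] H) (hι : ∀ i m, ι i (ε m) = b (i, m)) :
    ∀ i j x y, i ≠ j → ⟪ι i x, ι j y⟫_ℂ = 0 := by
  intro i j x y hij
  have k1 : ∀ m, ⟪b (i, m), ι j y⟫_ℂ = 0 := by
    intro m
    have k2 : (innerSL ℂ (b (i, m))).comp (ι j).toContinuousLinearMap = 0 := by
      apply clm_ext ε
      intro m'
      show ⟪b (i, m), ι j (ε m')⟫_ℂ = 0
      rw [hι]
      exact b.orthonormal.2 (fun h => hij (congrArg Prod.fst h))
    exact congrArg (fun L : E →L[ℂ] ℂ => L y) k2
  have k3 : (innerSL ℂ (ι j y)).comp (ι i).toContinuousLinearMap = 0 := by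
    apply clm_ext ε
    intro m
    show ⟪ι j y, ι i (ε m)⟫_ℂ = 0
    rw [hι, ← inner_conj_symm, k1, map_zero]
  have k4 : ⟪ι j y, ι i x⟫_ℂ = 0 := congrArg (fun L : E →L[ℂ] ℂ => L x) k3
  rw [← inner_conj_symm, k4, map_zero]

/-- The gluing lemma. -/
theorem glue {I : Type} {n : ℕ} (b b' : HilbertBasis (I × ℕ) ℂ H) (ε : HilbertBasis ℕ ℂ E)
    (ι ι' : I → E →ₗᵢ[ℂ] H) (hι : ∀ i m, ι i (ε m) = b (i, m))
    (hι' : ∀ i m, ι' i (ε m) = b' (i, m))
    (t t' : I → Fin n → E →L[ℂ] E) (a a' : Fin n → H →L[ℂ] H)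
    (ha : ∀ i k x, a k (ι i x) = ι i (t i k x)) (ha' : ∀ i k x, a' k (ι' i x) = ι' i (t' i k x))
    (f : I → ℕ → ℕ → ℝ) (F : I → ℕ → E →L[ℂ] E) (j : I → ℕ → I)
    (hF : ∀ i l m, F i l (ε m) = ((f i l m : ℝ) : ℂ) • ε m)
    (hsum : ∀ i m L, m < L → ∑ l ∈ Finset.range L, f i l m ^ 2 = 1)
    (hj : ∀ i l i' l' m m', f i l m ≠ 0 → f i' l' m' ≠ 0 → j i l = j i' l' → i = i' ∧ l = l')
    (δ : ℝ) (hδ0 : 0 ≤ δ)
    (hδ : ∀ i L k, ∑ l ∈ Finset.range L, ‖F i l * t i k - t' (j i l) k * F i l‖ ≤ δ) :
    ∃ V : H →L[ℂ] H, star V * V = 1 ∧ ∀ k, ‖V * a k - a' k * V‖ ≤ δ := by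
  classical
  have hf0 : ∀ i l m, m < l → f i l m = 0 := by
    intro i l m hml
    have h1 := hsum i m l hml
    have h2 := hsum i m (l + 1) (by omega)
    rw [Finset.sum_range_succ, h1] at h2
    have h3 : f i l m ^ 2 = 0 := by linarith
    exact pow_eq_zero_iff (two_ne_zero) |>.1 h3
  -- the vectors
  obtain ⟨S, hS⟩ : ∃ S : I → ℕ → E →L[ℂ] H, ∀ i L, S i L =
      ∑ l ∈ Finset.range L, ((ι' (j i l)).toContinuousLinearMap).comp (F i l) :=
    ⟨_, fun _ _ => rfl⟩
  have hSx : ∀ i L x, S i L x = ∑ l ∈ Finset.range L, ι' (j i l) (F i l x) := by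
    intro i L x
    rw [hS, ContinuousLinearMap.sum_apply]
    rfl
  have hSe : ∀ i L m, S i L (ε m) =
      ∑ l ∈ Finset.range L, ((f i l m : ℝ) : ℂ) • b' (j i l, m) := by
    intro i L m
    rw [hSx]
    refine Finset.sum_congr rfl fun l _ => ?_
    rw [hF, map_smul, hι']
  have hterm : ∀ i l m i' l' m', (i, l, m) ≠ (i', l', m') →
      ⟪((f i l m : ℝ) : ℂ) • b' (j i l, m), ((f i' l' m' : ℝ) : ℂ) • b' (j i' l', m')⟫_ℂ = 0 := by
    intro i l m i' l' m' hne
    rw [inner_smul_left, inner_smul_right]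
    by_cases h1 : f i l m = 0
    · rw [h1]; simp
    by_cases h2 : f i' l' m' = 0
    · rw [h2]; simp
    rw [b'.orthonormal.2, mul_zero, mul_zero]
    intro h3
    rw [Prod.mk.injEq] at h3
    obtain ⟨h4, h5⟩ := hj i l i' l' m m' h1 h2 h3.1
    exact hne (by rw [h4, h5, h3.2])
  have hinner : ∀ i L m i' L' m', (i, m) ≠ (i', m') → ⟪S i L (ε m), S i' L' (ε m')⟫_ℂ = 0 := by
    intro i L m i' L' m' hne
    rw [hSe, hSe, sum_inner]
    refine Finset.sum_eq_zero fun l _ => ?_
    rw [inner_sum]
    refine Finset.sum_eq_zero fun l' _ => ?_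
    apply hterm
    intro h
    rw [Prod.mk.injEq, Prod.mk.injEq] at h
    exact hne (by rw [h.1, h.2.2])
  have hnorm : ∀ i L m, ‖S i L (ε m)‖ ^ 2 = ∑ l ∈ Finset.range L, f i l m ^ 2 := by
    intro i L m
    rw [hSe, norm_sum_sq]
    · refine Finset.sum_congr rfl fun l _ => ?_
      rw [norm_smul, b'.orthonormal.1, mul_one, Complex.norm_real, Real.norm_eq_abs, sq_abs]
    · intro l _ l' _ hl
      apply hterm
      intro h
      rw [Prod.mk.injEq, Prod.mk.injEq] at h
      exact hl h.2.1
  have hnorm1 : ∀ i L m, ‖S i L (ε m)‖ ^ 2 ≤ 1 := by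
    intro i L m
    rw [hnorm]
    calc ∑ l ∈ Finset.range L, f i l m ^ 2 ≤ ∑ l ∈ Finset.range (max L (m + 1)), f i l m ^ 2 := by
          apply Finset.sum_le_sum_of_subset_of_nonneg
          · intro l hl
            rw [Finset.mem_range] at hl ⊢
            omega
          · intro l _ _
            positivity
      _ = 1 := hsum i m _ (by omega)
  have hSle : ∀ i L x, ‖S i L x‖ ≤ 1 * ‖x‖ := by
    intro i L
    apply norm_le_of_orth ε _ 1 zero_le_one
    · intro m m' hm
      exact hinner i L m i L m' (fun h => hm (congrArg Prod.snd h))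
    · intro m
      have := hnorm1 i L m
      have h0 := norm_nonneg (S i L (ε m))
      nlinarith
  have hstab : ∀ i L m, m < L → S i L (ε m) = S i (m + 1) (ε m) := by
    intro i L m hm
    rw [hSe, hSe]
    symm
    apply Finset.sum_subset
    · intro l hl
      rw [Finset.mem_range] at hl ⊢
      omega
    · intro l _ hl
      rw [Finset.mem_range] at hl
      rw [hf0 i l m (by omega)]
      simp
  have hv : Orthonormal ℂ (fun p : I × ℕ => S p.1 (p.2 + 1) (ε p.2)) := by
    constructor
    · intro p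
      have := hnorm p.1 (p.2 + 1) p.2
      rw [hsum _ _ _ (by omega)] at this
      have h0 := norm_nonneg (S p.1 (p.2 + 1) (ε p.2))
      nlinarith
    · intro p q hpq
      exact hinner _ _ _ _ _ _ hpq
  obtain ⟨V, hV⟩ := exists_isom b hv
  have hVS : ∀ i x, Tendsto (fun L => S i L x) atTop (𝓝 (V (ι i x))) := by
    intro i
    -- the set of the vectors where it converges is closed and contains the span
    have hspan : ∀ (s : Finset ℕ) (c : ℕ → ℂ), Tendsto (fun L => S i L (∑ m ∈ s, c m • ε m)) atTop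
        (𝓝 (V (ι i (∑ m ∈ s, c m • ε m)))) := by
      intro s c
      simp only [map_sum, map_smul]
      apply tendsto_finset_sum
      intro m _
      apply Tendsto.const_smul
      rw [hι, hV]
      apply tendsto_const_nhds.congr'
      filter_upwards [eventually_gt_atTop m] with L hL
      exact (hstab i L m hL).symm
    intro x
    rw [Metric.tendsto_atTop]
    intro r hr
    have hd : Dense ((Submodule.span ℂ (Set.range ε) : Submodule ℂ E) : Set E) :=
      Submodule.dense_iff_topologicalClosure_eq_top.mpr ε.dense_span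
    obtain ⟨y, hy, hxy⟩ := hd.exists_dist_lt x (show 0 < r / 4 by positivity)
    obtain ⟨c, hc⟩ := Finsupp.mem_span_range_iff_exists_finsupp.1 hy
    have hy2 : Tendsto (fun L => S i L y) atTop (𝓝 (V (ι i y))) := by
      rw [← hc]
      exact hspan c.support c
    rw [Metric.tendsto_atTop] at hy2
    obtain ⟨N, hN⟩ := hy2 (r / 4) (by positivity)
    refine ⟨N, fun L hL => ?_⟩
    have h1 := hN L hL
    rw [dist_eq_norm] at h1 hxy ⊢
    have e : S i L x - V (ι i x) = S i L (x - y) + (S i L y - V (ι i y)) - V (ι i (x - y)) := by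
      simp only [map_sub]; abel
    rw [e]
    have h2 := hSle i L (x - y)
    have h3 : ‖V (ι i (x - y))‖ = ‖x - y‖ := by
      rw [LinearIsometry.norm_map, LinearIsometry.norm_map]
    calc ‖S i L (x - y) + (S i L y - V (ι i y)) - V (ι i (x - y))‖
        ≤ ‖S i L (x - y)‖ + ‖S i L y - V (ι i y)‖ + ‖V (ι i (x - y))‖ :=
          (norm_sub_le _ _).trans (add_le_add (norm_add_le _ _) le_rfl)
      _ < r := by rw [h3]; linarith
  have horth := isom_orth b' ε ι' hι'
  -- the difference on the blocks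
  have hDlim : ∀ k i x, Tendsto (fun L => ∑ l ∈ Finset.range L,
      ι' (j i l) ((F i l * t i k - t' (j i l) k * F i l) x)) atTop
      (𝓝 ((V.toContinuousLinearMap * a k - a' k * V.toContinuousLinearMap) (ι i x))) := by
    intro k i x
    have h1 := hVS i (t i k x)
    have h2 := ((a' k).continuous.tendsto _).comp (hVS i x)
    have h3 := h1.sub h2
    have e : (V.toContinuousLinearMap * a k - a' k * V.toContinuousLinearMap) (ι i x) =
        V (ι i (t i k x)) - a' k (V (ι i x)) := by
      show V (a k (ι i x)) - a' k (V (ι i x)) = _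
      rw [ha]
    rw [e]
    refine h3.congr fun L => ?_
    simp only [Function.comp]
    rw [hSx, hSx, map_sum, ← Finset.sum_sub_distrib]
    refine Finset.sum_congr rfl fun l _ => ?_
    rw [ha', ← map_sub]
    rfl
  refine ⟨V.toContinuousLinearMap, ?_, fun k => ?_⟩
  · rw [ContinuousLinearMap.star_eq_adjoint]
    exact V.adjoint_comp_self
  · apply ContinuousLinearMap.opNorm_le_bound _ hδ0
    apply norm_le_of_blocks b ε ι hι _ δ hδ0
    · intro i i' x y hii'
      have h1 := (hDlim k i x).inner (hDlim k i' y) (𝕜 := ℂ)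
      refine tendsto_nhds_unique h1 (tendsto_const_nhds.congr fun L => ?_)
      symm
      rw [sum_inner]
      refine Finset.sum_eq_zero fun l _ => ?_
      rw [inner_sum]
      refine Finset.sum_eq_zero fun l' _ => ?_
      have hz : ∀ i l, (∀ m, f i l m = 0) → F i l = 0 := by
        intro i l h
        apply clm_ext ε
        intro m
        rw [hF, h]
        simp
      by_cases h1 : ∀ m, f i l m = 0
      · rw [hz i l h1]; simp
      by_cases h2 : ∀ m, f i' l' m = 0
      · rw [hz i' l' h2]; simp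
      push Not at h1 h2
      obtain ⟨m, hm⟩ := h1
      obtain ⟨m', hm'⟩ := h2
      apply horth
      intro h
      exact hii' (hj i l i' l' m m' hm hm' h).1
    · intro i x
      refine le_of_tendsto (hDlim k i x).norm (Eventually.of_forall fun L => ?_)
      calc ‖∑ l ∈ Finset.range L, ι' (j i l) ((F i l * t i k - t' (j i l) k * F i l) x)‖
          ≤ ∑ l ∈ Finset.range L, ‖F i l * t i k - t' (j i l) k * F i l‖ * ‖x‖ := by
            refine norm_sum_le_of_le _ fun l _ => ?_
            rw [LinearIsometry.norm_map]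
            exact ContinuousLinearMap.le_opNorm _ _
        _ = (∑ l ∈ Finset.range L, ‖F i l * t i k - t' (j i l) k * F i l‖) * ‖x‖ := by
            rw [Finset.sum_mul]
        _ ≤ δ * ‖x‖ := by
            gcongr
            exact hδ i L k

end

end Pool.Agent.H86.CN
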