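import Pool.Graph.R_seed8.Helper965.CN.Family

/-!
Ultralimits of functionals; ultrafilters avoiding small sets; levels.
-/

set_option autoImplicit false
set_option linter.unusedSectionVars false

open Filter Topology Cardinal
open scoped InnerProductSpace TensorProduct ComplexOrder

namespace Pool.Agent.H86.CN

open Pool.Agent.Helper965.CN

theorem exists_ulim {I A : Type} [AddCommGroup A] [Module ℂ A] (𝒰 : Ultrafilter I)
    (ψ : I → (A →ₗ[ℂ] ℂ)) (hb : ∀ s, ∃ C : ℝ, ∀ i, ‖ψ i s‖ ≤ C) :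
    ∃ φ : A →ₗ[ℂ] ℂ, ∀ s, Tendsto (fun i => ψ i s) (𝒰 : Filter I) (𝓝 (φ s)) := by
  have hlim : ∀ s, ∃ l : ℂ, Tendsto (fun i => ψ i s) (𝒰 : Filter I) (𝓝 l) := by
    intro s
    obtain ⟨C, hC⟩ := hb s
    have h2 : ((𝒰.map (fun i => ψ i s) : Ultrafilter ℂ) : Filter ℂ) ≤
        𝓟 (Metric.closedBall (0 : ℂ) C) := by
      rw [le_principal_iff]
      show ∀ᶠ i in (𝒰 : Filter I), ψ i s ∈ Metric.closedBall (0 : ℂ) C
      exact Eventually.of_forall fun i => by
        rw [mem_closedBall_zero_iff]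
        exact hC i
    obtain ⟨l, _, hl⟩ := (isCompact_closedBall (0 : ℂ) C).ultrafilter_le_nhds _ h2
    exact ⟨l, hl⟩
  choose f hf using hlim
  refine ⟨{ toFun := f, map_add' := fun s t => ?_, map_smul' := fun c s => ?_ }, hf⟩
  · refine tendsto_nhds_unique (hf (s + t)) (((hf s).add (hf t)).congr fun i => ?_)
    rw [map_add]
  · refine tendsto_nhds_unique (hf (c • s)) (((hf s).const_mul c).congr fun i => ?_)
    rw [map_smul, smul_eq_mul]

section

variable {A B : Type} [CStarAlgebra A] [CStarAlgebra B]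

/-- states are bounded, uniformly -/
theorem state_bdd (s : A ⊗[ℂ] B) : ∃ C : ℝ, ∀ φ : A ⊗[ℂ] B →ₗ[ℂ] ℂ,
    (∀ s, 0 ≤ φ (star s * s)) → φ 1 = 1 → ‖φ s‖ ≤ C := by
  obtain ⟨C, hC⟩ := tensor_bdd s
  refine ⟨2 * Real.sqrt C, fun φ hφ h1 => ?_⟩
  have h2 := hC φ hφ 1
  rw [star_one, one_mul, mul_one, one_mul, h1, Complex.one_re, mul_one] at h2
  have h3 : nf φ s ≤ Real.sqrt C := Real.sqrt_le_sqrt h2
  have h4 : nf φ (1 : A ⊗[ℂ] B) = 1 := by
    unfold nf b1q
    rw [star_one, mul_one, h1]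
    simp
  have key : ∀ c : ℂ, ‖c‖ = 1 → (c * φ s).re ≤ Real.sqrt C := by
    intro c hc
    have h5 := nf_cs hφ 1 (c • s)
    rw [h4, star_one, one_mul, one_mul, map_smul, smul_eq_mul, nf_smul, hc, one_mul] at h5
    exact h5.trans h3
  have k1 := key 1 (by simp)
  have k2 := key (-1) (by simp)
  have k3 := key Complex.I (by simp)
  have k4 := key (-Complex.I) (by simp)
  simp only [one_mul, neg_mul, Complex.neg_re, Complex.mul_re, Complex.I_re, zero_mul,
    Complex.I_im, zero_sub] at k1 k2 k3 k4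
  refine (Complex.norm_le_abs_re_add_abs_im _).trans ?_
  have k5 : |(φ s).re| ≤ Real.sqrt C := abs_le.2 ⟨by linarith, k1⟩
  have k6 : |(φ s).im| ≤ Real.sqrt C := abs_le.2 ⟨by linarith, by linarith⟩
  linarith

theorem nf_tendsto {I : Type} {𝒰 : Filter I} {ψ : I → (A ⊗[ℂ] B →ₗ[ℂ] ℂ)}
    {φ : A ⊗[ℂ] B →ₗ[ℂ] ℂ} (h : ∀ s, Tendsto (fun i => ψ i s) 𝒰 (𝓝 (φ s))) (s : A ⊗[ℂ] B) :
    Tendsto (fun i => nf (ψ i) s) 𝒰 (𝓝 (nf φ s)) :=
  (Real.continuous_sqrt.tendsto _).comp ((Complex.continuous_re.tendsto _).comp (h (star s * s)))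

end

/-- an ultrafilter containing `D` and no smaller set -/
theorem exists_uniform {Y : Type} (D : Set Y) (hD : ℵ₀ ≤ #D) :
    ∃ 𝒰 : Ultrafilter Y, D ∈ 𝒰 ∧ ∀ B : Set Y, #B < #D → Bᶜ ∈ 𝒰 := by
  let F : Filter Y :=
    { sets := {A | #(D \ A : Set Y) < #D}
      univ_sets := by
        show #(D \ Set.univ : Set Y) < #D
        rw [Set.diff_univ, Cardinal.mk_emptyCollection]
        exact Cardinal.aleph0_pos.trans_le hD
      sets_of_superset := fun {A B} hA hAB =>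
        (Cardinal.mk_le_mk_of_subset (Set.diff_subset_diff_right hAB)).trans_lt hA
      inter_sets := fun {A B} hA hB => by
        show #(D \ (A ∩ B) : Set Y) < #D
        rw [Set.diff_inter]
        exact (Cardinal.mk_union_le _ _).trans_lt (Cardinal.add_lt_of_lt hD hA hB) }
  have hne : F.NeBot := by
    rw [Filter.neBot_iff]
    intro h
    have h1 : (∅ : Set Y) ∈ F := by rw [h]; exact Filter.mem_bot
    have h2 : #(D \ ∅ : Set Y) < #D := h1
    rw [Set.diff_empty] at h2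
    exact lt_irrefl _ h2
  refine ⟨Ultrafilter.of F, Ultrafilter.of_le F ?_, fun B hB => Ultrafilter.of_le F ?_⟩
  · show #(D \ D : Set Y) < #D
    rw [Set.diff_self, Cardinal.mk_emptyCollection]
    exact Cardinal.aleph0_pos.trans_le hD
  · show #(D \ Bᶜ : Set Y) < #D
    refine (Cardinal.mk_le_mk_of_subset ?_).trans_lt hB
    intro y hy
    by_contra h
    exact hy.2 h

/-- the levels -/
theorem exists_levels {Y : Type} (β : Ordinal.{0}) (hY : #Y = ℵ_ β) :
    ∃ D : (Order.succ β).ToType → Set Y, (∀ γ γ', γ ≤ γ' → D γ ⊆ D γ') ∧ (∀ γ, ℵ₀ ≤ #(D γ)) ∧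
      ∀ γ γ', γ' < γ → #(D γ') < #(D γ) := by
  have h1 : #Y = #((ℵ_ β).ord.ToType) := by
    rw [Cardinal.mk_toType, Cardinal.card_ord, hY]
  obtain ⟨e⟩ := Cardinal.eq.1 h1
  obtain ⟨pos, hpos⟩ : ∃ pos : Y → Ordinal.{0}, ∀ y,
      pos y = ((Ordinal.ToType.mk.symm (e y) : Set.Iio (ℵ_ β).ord) : Ordinal.{0}) :=
    ⟨_, fun _ => rfl⟩
  obtain ⟨lev, hlev⟩ : ∃ lev : (Order.succ β).ToType → Ordinal.{0}, ∀ γ,
      lev γ = ((Ordinal.ToType.mk.symm γ : Set.Iio (Order.succ β)) : Ordinal.{0}) :=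
    ⟨_, fun _ => rfl⟩
  have hlev1 : ∀ γ, lev γ ≤ β := by
    intro γ
    rw [hlev]
    exact Order.lt_succ_iff.1 (Ordinal.ToType.mk.symm γ).2
  have hlev2 : ∀ γ γ', γ ≤ γ' → lev γ ≤ lev γ' := by
    intro γ γ' h
    rw [hlev, hlev]
    exact Ordinal.ToType.mk.symm.monotone h
  have hlev3 : ∀ γ γ', γ < γ' → lev γ < lev γ' := by
    intro γ γ' h
    rw [hlev, hlev]
    exact Ordinal.ToType.mk.symm.strictMono h
  have hcard : ∀ γ, #({y | pos y < (ℵ_ (lev γ)).ord} : Set Y) = ℵ_ (lev γ) := by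
    intro γ
    have hle : (ℵ_ (lev γ)).ord ≤ (ℵ_ β).ord :=
      Cardinal.ord_le_ord.2 (Cardinal.aleph_le_aleph.2 (hlev1 γ))
    have h2 : #({y | pos y < (ℵ_ (lev γ)).ord} : Set Y) = #((ℵ_ (lev γ)).ord.ToType) := by
      apply Cardinal.mk_congr
      refine Equiv.ofBijective (fun y => Ordinal.ToType.mk ⟨pos y.1, y.2⟩) ⟨?_, ?_⟩
      · intro y y' h
        have h3 := Ordinal.ToType.mk.injective h
        have h4 : pos y.1 = pos y'.1 := congrArg Subtype.val h3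
        rw [hpos, hpos] at h4
        have h5 := Ordinal.ToType.mk.symm.injective (Subtype.ext h4)
        exact Subtype.ext (e.injective h5)
      · intro z
        obtain ⟨o, ho⟩ : ∃ o : Set.Iio (ℵ_ (lev γ)).ord, Ordinal.ToType.mk o = z :=
          ⟨_, Ordinal.ToType.mk.apply_symm_apply z⟩
        have h3 : pos (e.symm (Ordinal.ToType.mk ⟨o.1, o.2.trans_le hle⟩)) = o.1 := by
          rw [hpos, Equiv.apply_symm_apply, OrderIso.symm_apply_apply]
        refine ⟨⟨e.symm (Ordinal.ToType.mk ⟨o.1, o.2.trans_le hle⟩), ?_⟩, ?_⟩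
        · show pos _ < _
          rw [h3]
          exact o.2
        · rw [← ho]
          exact congrArg Ordinal.ToType.mk (Subtype.ext h3)
    rw [h2, Cardinal.mk_toType, Cardinal.card_ord]
  refine ⟨fun γ => {y | pos y < (ℵ_ (lev γ)).ord}, ?_, ?_, ?_⟩
  · intro γ γ' h y hy
    exact lt_of_lt_of_le hy (Cardinal.ord_le_ord.2 (Cardinal.aleph_le_aleph.2 (hlev2 _ _ h)))
  · intro γ
    rw [hcard]
    exact Cardinal.aleph0_le_aleph _
  · intro γ γ' h
    rw [hcard, hcard]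
    exact Cardinal.aleph_lt_aleph.2 (hlev3 _ _ h)

end Pool.Agent.H86.CN
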