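import Pool.Agent.H86.CN.RBound
import Pool.Agent.H86.CN.ULim
import Pool.Agent.H86.CN.Fam3

/-!
States at the different levels.
-/

set_option autoImplicit false
set_option linter.unusedSectionVars false

open Filter Topology Cardinal
open scoped InnerProductSpace TensorProduct ComplexOrder

namespace Pool.Agent.H86.CN

open Pool.Agent.Helper965.CN

theorem exists_fin_tmul' {A B : Type} [AddCommGroup A] [Module ℂ A] [AddCommGroup B] [Module ℂ B]
    (x : A ⊗[ℂ] B) : ∃ (n : ℕ) (a : Fin n → A) (b : Fin n → B), x = ∑ k, a k ⊗ₜ[ℂ] b k := by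
  induction x using TensorProduct.induction_on with
  | zero => exact ⟨0, Fin.elim0, Fin.elim0, by simp⟩
  | tmul a b => exact ⟨1, fun _ => a, fun _ => b, by simp⟩
  | add x y hx hy =>
    obtain ⟨n, a, b, h1⟩ := hx
    obtain ⟨m, a', b', h2⟩ := hy
    refine ⟨n + m, Fin.append a a', Fin.append b b', ?_⟩
    rw [Fin.sum_univ_add]
    simp only [Fin.append_left, Fin.append_right]
    rw [← h1, ← h2]

section

variable {E H K : Type} [NormedAddCommGroup E] [InnerProductSpace ℂ E] [CompleteSpace E]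
  [NormedAddCommGroup H] [InnerProductSpace ℂ H] [CompleteSpace H]
  [NormedAddCommGroup K] [InnerProductSpace ℂ K] [CompleteSpace K]

theorem cmp_key (U P : E →ₗᵢ[ℂ] K) (u v : K →L[ℂ] K)
    (h : ∀ z, P (adj P (v (U z))) = v (U z)) :
    cmp U (star u * v) = star ((adj P).comp (u.comp U.toContinuousLinearMap)) *
      ((adj P).comp (v.comp U.toContinuousLinearMap)) := by
  ext z
  apply ext_inner_left ℂ
  intro w
  show ⟪w, adj U ((star u) (v (U z)))⟫_ℂ =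
    ⟪w, (star ((adj P).comp (u.comp U.toContinuousLinearMap))) (adj P (v (U z)))⟫_ℂ
  rw [adj_inner, ContinuousLinearMap.star_eq_adjoint, ContinuousLinearMap.star_eq_adjoint,
    ContinuousLinearMap.adjoint_inner_right, ContinuousLinearMap.adjoint_inner_right]
  show _ = ⟪adj P (u (U w)), adj P (v (U z))⟫_ℂ
  rw [adj_inner', h]

/-- left marginals of compressed functionals -/
theorem exists_marg {Y : Type} [Infinite Y] (f : HilbertBasis Y ℂ K) (ε : HilbertBasis ℕ ℂ E)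
    (V : E →ₗᵢ[ℂ] H) (W : E →ₗᵢ[ℂ] K) (w : (H →L[ℂ] H) ⊗[ℂ] (K →L[ℂ] K)) :
    ∃ r : (E →L[ℂ] E) ⊗[ℂ] (E →L[ℂ] E), ∀ x : E →L[ℂ] E,
      cmp2 V W (star w * (amp V x ⊗ₜ[ℂ] 1) * w) = star r * (x ⊗ₜ[ℂ] 1) * r := by
  obtain ⟨n, y, z, rfl⟩ := exists_fin_tmul' w
  obtain ⟨T, hT⟩ := exists_cover f ε (fun k => (z k).comp W.toContinuousLinearMap)
  refine ⟨∑ k, cmp V (y k) ⊗ₜ[ℂ] ((adj T).comp ((z k).comp W.toContinuousLinearMap)),
    fun x => ?_⟩
  rw [star_sum, star_sum, Finset.sum_mul, Finset.sum_mul, Finset.sum_mul, Finset.sum_mul, map_sum]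
  refine Finset.sum_congr rfl fun k _ => ?_
  rw [Finset.mul_sum, Finset.mul_sum, map_sum]
  refine Finset.sum_congr rfl fun l _ => ?_
  rw [TensorProduct.star_tmul, TensorProduct.star_tmul, Algebra.TensorProduct.tmul_mul_tmul,
    Algebra.TensorProduct.tmul_mul_tmul, Algebra.TensorProduct.tmul_mul_tmul,
    Algebra.TensorProduct.tmul_mul_tmul, mul_one, mul_one]
  show cmp V (star (y k) * amp V x * y l) ⊗ₜ[ℂ] cmp W (star (z k) * z l) = _
  rw [cmp_mid, cmp_star, cmp_key W T (z k) (z l)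
    (fun q => congrArg (fun Q : E →L[ℂ] K => Q q) (hT l))]

theorem UT_cmp {Y : Type} [Infinite Y] (f : HilbertBasis Y ℂ K) (ε : HilbertBasis ℕ ℂ E)
    (V : E →ₗᵢ[ℂ] H) (W : E →ₗᵢ[ℂ] K) {k : ℕ → ℕ} {U : Ultrafilter ℕ}
    {φ : (E →L[ℂ] E) ⊗[ℂ] (E →L[ℂ] E) →ₗ[ℂ] ℂ} (hφ : UType k U φ) :
    UT k U (amp V) (φ.comp (cmp2 V W)) := by
  intro w δ hδ
  obtain ⟨r, hr⟩ := exists_marg f ε V W w
  obtain ⟨m, C, ζ, ψ, h1, h2, h3⟩ := hφ r δ hδ
  refine ⟨m, C, ζ, ψ, h1, fun x => ?_, h3⟩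
  rw [LinearMap.comp_apply, hr]
  exact h2 x

theorem cmp2_pos {X Y : Type} [Infinite X] [Infinite Y] (e : HilbertBasis X ℂ H)
    (f : HilbertBasis Y ℂ K) (ε : HilbertBasis ℕ ℂ E) (V : E →ₗᵢ[ℂ] H) (W : E →ₗᵢ[ℂ] K)
    (φ : (E →L[ℂ] E) ⊗[ℂ] (E →L[ℂ] E) →ₗ[ℂ] ℂ) (hφ : ∀ s, 0 ≤ φ (star s * s))
    (s : (H →L[ℂ] H) ⊗[ℂ] (K →L[ℂ] K)) : 0 ≤ (φ.comp (cmp2 V W)) (star s * s) := by
  obtain ⟨r, hr⟩ := exists_sq e f ε ε V W s
  rw [LinearMap.comp_apply, hr]
  exact hφ r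

theorem norm_amp_le (V : E →ₗᵢ[ℂ] H) (x : E →L[ℂ] E) : ‖amp V x‖ ≤ ‖x‖ := by
  apply ContinuousLinearMap.opNorm_le_bound _ (norm_nonneg _)
  intro z
  rw [amp_apply, LinearIsometry.norm_map]
  refine (x.le_opNorm _).trans ?_
  gcongr
  have h1 : ‖adj V‖ ≤ 1 := by
    unfold adj
    rw [LinearIsometryEquiv.norm_map]
    exact V.norm_toContinuousLinearMap_le
  calc ‖adj V z‖ ≤ ‖adj V‖ * ‖z‖ := (adj V).le_opNorm z
    _ ≤ 1 * ‖z‖ := by gcongr
    _ = ‖z‖ := one_mul _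

variable {Y : Type} (g : HilbertBasis (Y × ℕ) ℂ K) (ε : HilbertBasis ℕ ℂ E)
    (W : Y → E →ₗᵢ[ℂ] K) (hW : ∀ y m, W y (ε m) = g (y, m)) (D : Set Y)
    (G : (E →L[ℂ] E) →ₗ[ℂ] (K →L[ℂ] K)) (hG1 : ∀ x, ∀ y ∈ D, ∀ v, G x (W y v) = W y (x v))
    (hG2 : ∀ x, ∀ y ∉ D, ∀ v, G x (W y v) = 0) (V : E →ₗᵢ[ℂ] H)

include hW hG1 hG2

theorem bad_small (hD : ℵ₀ ≤ #D) (w : (H →L[ℂ] H) ⊗[ℂ] (K →L[ℂ] K)) :
    ∃ Bad : Set Y, #Bad ≤ #D ∧ ∀ y ∉ Bad,
      cmp2 V (W y) (star w * (1 ⊗ₜ[ℂ] G 1) * w) = 0 := by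
  obtain ⟨n, p, z, rfl⟩ := exists_fin_tmul' w
  obtain ⟨Bd, hBd⟩ : ∃ Bd : Fin n × (D × ℕ) → Set Y, ∀ q, Bd q =
      Prod.fst '' {r : Y × ℕ | ⟪g r, star (z q.1) (g (q.2.1.1, q.2.2))⟫_ℂ ≠ 0} :=
    ⟨_, fun _ => rfl⟩
  have hBc : ∀ q, (Bd q).Countable := by
    intro q
    rw [hBd]
    exact (countable_inner g _).image _
  refine ⟨⋃ q, Bd q, ?_, ?_⟩
  · calc #(⋃ q, Bd q : Set Y) ≤ Cardinal.sum fun q => #(Bd q) := Cardinal.mk_iUnion_le_sum_mk
      _ ≤ Cardinal.sum fun _ : Fin n × (D × ℕ) => ℵ₀ := by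
          apply Cardinal.sum_le_sum
          intro q
          exact Cardinal.mk_le_aleph0_iff.2 (hBc q).to_subtype
      _ = #(Fin n × (D × ℕ)) * ℵ₀ := by rw [Cardinal.sum_const']
      _ ≤ #D := by
          rw [Cardinal.mk_prod, Cardinal.mk_prod]
          simp only [Cardinal.lift_id, Cardinal.mk_nat]
          rw [Cardinal.mul_aleph0_eq hD]
          calc #(Fin n) * #D * ℵ₀ ≤ ℵ₀ * #D * ℵ₀ := by
                refine mul_le_mul' (mul_le_mul' ?_ le_rfl) le_rfl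
                exact Cardinal.mk_le_aleph0_iff.2 inferInstance
            _ = #D := by rw [Cardinal.aleph0_mul_eq hD, Cardinal.mul_aleph0_eq hD]
  · intro y hy
    have hz : ∀ l v, G 1 (z l (W y v)) = 0 := by
      intro l
      have h1 : ((G 1).comp (z l)).comp (W y).toContinuousLinearMap = 0 := by
        apply clm_ext ε
        intro m'
        show G 1 (z l (W y (ε m'))) = 0
        apply g.repr.injective
        ext ⟨η, m⟩
        rw [g.repr_apply_apply, map_zero]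
        show _ = (0 : ℂ)
        have h2 : ⟪g (η, m), G 1 (z l (W y (ε m')))⟫_ℂ =
            ⟪G 1 (g (η, m)), z l (W y (ε m'))⟫_ℂ := by
          have h3 : star (G 1) = G 1 := by
            rw [← diag_star g ε W hW D G hG1 hG2, star_one]
          conv_lhs => rw [← h3]
          rw [ContinuousLinearMap.star_eq_adjoint, ContinuousLinearMap.adjoint_inner_right]
        rw [h2, ← hW]
        by_cases hη : η ∈ D
        · rw [hG1 _ η hη]
          show ⟪W η (ε m), z l (W y (ε m'))⟫_ℂ = 0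
          rw [hW, hW]
          by_contra h3
          apply hy
          refine Set.mem_iUnion.2 ⟨(l, (⟨η, hη⟩, m)), ?_⟩
          rw [hBd]
          refine ⟨(y, m'), ?_, rfl⟩
          show ⟪g (y, m'), star (z l) (g (η, m))⟫_ℂ ≠ 0
          intro h4
          apply h3
          rw [ContinuousLinearMap.star_eq_adjoint, ContinuousLinearMap.adjoint_inner_right] at h4
          rw [← inner_conj_symm, h4, map_zero]
        · rw [hG2 _ η hη, inner_zero_left]
      intro v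
      exact congrArg (fun Q : E →L[ℂ] K => Q v) h1
    rw [star_sum, Finset.sum_mul, Finset.sum_mul, map_sum]
    refine Finset.sum_eq_zero fun k _ => ?_
    rw [Finset.mul_sum, map_sum]
    refine Finset.sum_eq_zero fun l _ => ?_
    rw [TensorProduct.star_tmul, Algebra.TensorProduct.tmul_mul_tmul,
      Algebra.TensorProduct.tmul_mul_tmul]
    show _ ⊗ₜ[ℂ] cmp (W y) (star (z k) * G 1 * z l) = 0
    have h2 : cmp (W y) (star (z k) * G 1 * z l) = 0 := by
      ext v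
      show adj (W y) (star (z k) (G 1 (z l (W y v)))) = 0
      rw [hz, map_zero, map_zero]
    rw [h2, TensorProduct.tmul_zero]

/-- the test elements live under the projection -/
theorem map_proj (s : (E →L[ℂ] E) ⊗[ℂ] (E →L[ℂ] E)) :
    (1 ⊗ₜ[ℂ] G 1) * TensorProduct.map (amp V) G s = TensorProduct.map (amp V) G s := by
  induction s using TensorProduct.induction_on with
  | zero => simp
  | add s s' h h' => rw [map_add, mul_add, h, h']
  | tmul x x' =>
    rw [TensorProduct.map_tmul, Algebra.TensorProduct.tmul_mul_tmul, one_mul,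
      ← diag_mul g ε W hW D G hG1 hG2, one_mul]

theorem cmp2_map (s : (E →L[ℂ] E) ⊗[ℂ] (E →L[ℂ] E)) (y : Y) (hy : y ∈ D) :
    cmp2 V (W y) (TensorProduct.map (amp V) G s) = s := by
  induction s using TensorProduct.induction_on with
  | zero => simp
  | add s s' h h' => rw [map_add, map_add, h, h']
  | tmul x x' =>
    show cmp V (amp V x) ⊗ₜ[ℂ] cmp (W y) (G x') = x ⊗ₜ[ℂ] x'
    rw [cmp_amp, diag_cmp g ε W hW D G hG1 hG2 x' y hy]

end

end Pool.Agent.H86.CN
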