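import Pool.Agent.H86.CN.Weights
import Pool.Agent.H86.CN.Fam3

/-!
Functionals of type `U` vanish on compact operators of the left leg.
-/

set_option autoImplicit false
set_option linter.unusedSectionVars false

open Filter Topology
open scoped InnerProductSpace TensorProduct ComplexOrder

namespace Pool.Agent.H86.CN

open Pool.Agent.Helper965.CN

section

variable {E : Type} [NormedAddCommGroup E] [InnerProductSpace ℂ E] [CompleteSpace E]

theorem compact_Pn (ε : HilbertBasis ℕ ℂ E) {x : E →L[ℂ] E} (hx : IsCompactOperator x) :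
    Tendsto (fun n => ‖x * (1 - Pn ε n)‖) atTop (𝓝 0) := by
  have h1 : ∀ n : ℕ, ∃ η : E, ‖η‖ ≤ 1 ∧ ‖x * (1 - Pn ε n)‖ - 1 / ((n : ℝ) + 1) ≤
      ‖(x * (1 - Pn ε n)) η‖ := by
    intro n
    have h2 : ‖x * (1 - Pn ε n)‖ - 1 / ((n : ℝ) + 1) < ‖x * (1 - Pn ε n)‖ := by
      have : (0 : ℝ) < 1 / ((n : ℝ) + 1) := by positivity
      linarith
    obtain ⟨η, h3, h4⟩ := ContinuousLinearMap.exists_lt_apply_of_lt_opNorm (x * (1 - Pn ε n)) h2
    exact ⟨η, h3.le, h4.le⟩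
  choose η hη1 hη2 using h1
  have hPn : ∀ n (v : E), ‖(1 - Pn ε n) v‖ ≤ ‖v‖ := by
    intro n v
    exact proj_le (1 - Pn ε n) (by rw [star_sub, star_one, Pn_star]) (by
        rw [mul_sub, mul_one, sub_mul, one_mul, Pn_mul, min_self, sub_self, sub_zero]) v
  have h2 : Tendsto (fun n => ‖x ((1 - Pn ε n) (η n))‖) atTop (𝓝 0) := by
    refine compact_weak_null hx (fun n => (hPn n _).trans (hη1 n)) fun v => ?_
    have h3 : ∀ n, (inner ℂ v ((1 - Pn ε n) (η n)) : ℂ) = inner ℂ ((1 - Pn ε n) v) (η n) := by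
      intro n
      have h4 : star (1 - Pn ε n) = 1 - Pn ε n := by rw [star_sub, star_one, Pn_star]
      conv_lhs => rw [← h4]
      rw [ContinuousLinearMap.star_eq_adjoint, ContinuousLinearMap.adjoint_inner_right]
    simp only [h3]
    have h4 : Tendsto (fun n => ‖(1 - Pn ε n) v‖) atTop (𝓝 0) := by
      have h5 := (Pn_tendsto ε v).const_sub v
      rw [sub_self] at h5
      have h6 := h5.norm
      rw [norm_zero] at h6
      exact h6
    refine squeeze_zero_norm (fun n => ?_) h4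
    calc ‖(inner ℂ ((1 - Pn ε n) v) (η n) : ℂ)‖ ≤ ‖(1 - Pn ε n) v‖ * ‖η n‖ :=
          norm_inner_le_norm _ _
      _ ≤ ‖(1 - Pn ε n) v‖ * 1 := by gcongr; exact hη1 n
      _ = _ := mul_one _
  have h3 : Tendsto (fun n : ℕ => ‖x ((1 - Pn ε n) (η n))‖ + 1 / ((n : ℝ) + 1)) atTop (𝓝 0) := by
    have := h2.add tendsto_one_div_add_atTop_nhds_zero_nat
    rwa [add_zero] at this
  refine squeeze_zero (fun n => norm_nonneg _) (fun n => ?_) h3
  have := hη2 n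
  have e : (x * (1 - Pn ε n)) (η n) = x ((1 - Pn ε n) (η n)) := rfl
  rw [e] at this
  linarith

theorem grow_tendsto {k : ℕ → ℕ} (hk : Grow k) :
    Tendsto (fun j => (2 * (k j : ℝ) + 1)) atTop atTop := by
  have h1 : ∀ m : ℕ, (m : ℝ) ≤ 2 * (k m : ℝ) + 1 := by
    intro m
    have h2 := hk m
    have h3 : m ≤ ∑ j ∈ Finset.range m, (2 * k j + 1) := by
      calc m = ∑ _j ∈ Finset.range m, 1 := by simp
        _ ≤ ∑ j ∈ Finset.range m, (2 * k j + 1) := Finset.sum_le_sum fun j _ => by omega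
    have h4 : m ≤ 2 * k m + 1 := by
      have h5 : ∑ j ∈ Finset.range m, (2 * k j + 1) ≤
          2 * (m + 1) * ∑ j ∈ Finset.range m, (2 * k j + 1) := by
        nlinarith [Nat.zero_le (∑ j ∈ Finset.range m, (2 * k j + 1))]
      omega
    exact_mod_cast h4
  exact tendsto_atTop_mono h1 tendsto_natCast_atTop_atTop

theorem utype_compact {k : ℕ → ℕ} (hk : Grow k) {U : Ultrafilter ℕ} (hU : (U : Filter ℕ) ≤ atTop)
    (ε : HilbertBasis ℕ ℂ E) {φ : (E →L[ℂ] E) ⊗[ℂ] (E →L[ℂ] E) →ₗ[ℂ] ℂ}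
    (hφ : ∀ s, 0 ≤ φ (star s * s)) (h1 : φ 1 = 1) (hφU : UType k U φ)
    {x : E →L[ℂ] E} (hx : IsCompactOperator x) (y : E →L[ℂ] E) : φ (x ⊗ₜ y) = 0 := by
  -- rank one
  have hrank : ∀ u v : E, φ ((innerSL ℂ v).smulRight u ⊗ₜ[ℂ] (1 : E →L[ℂ] E)) = 0 := by
    intro u v
    obtain ⟨z, hz⟩ : ∃ z : E →L[ℂ] E, z = (innerSL ℂ v).smulRight u := ⟨_, rfl⟩
    rw [← hz]
    rw [← norm_le_zero_iff]
    apply le_of_forall_pos_le_add
    intro δ hδ
    rw [zero_add]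
    obtain ⟨r, C, ζ, ψ, hlim, hψ, hbd⟩ := hφU 1 (δ / (‖z‖ + 1)) (by positivity)
    have h2 : ψ z = 0 := by
      refine tendsto_nhds_unique (hlim z) ?_
      have h3 : Tendsto (fun j => (|C| * ‖v‖ ^ 2 + |C| * ‖u‖ ^ 2) / (2 * (k j : ℝ) + 1))
          (U : Filter ℕ) (𝓝 0) :=
        ((grow_tendsto hk).const_div_atTop _).mono_left hU
      refine squeeze_zero_norm (fun j => ?_) h3
      have e1 : ∀ a t, (inner ℂ (ζ j a t) (z (ζ j a t)) : ℂ) =
          inner ℂ v (ζ j a t) * inner ℂ (ζ j a t) u := by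
        intro a t
        rw [hz]
        show (inner ℂ (ζ j a t) ((inner ℂ v (ζ j a t) : ℂ) • u) : ℂ) = _
        rw [inner_smul_right]
      simp only [e1]
      calc ‖∑ a, ∑ t, (inner ℂ v (ζ j a t) * inner ℂ (ζ j a t) u : ℂ)‖
          ≤ ∑ a, ∑ t, (‖(inner ℂ v (ζ j a t) : ℂ)‖ ^ 2 + ‖(inner ℂ u (ζ j a t) : ℂ)‖ ^ 2) := by
            refine norm_sum_le_of_le _ fun a _ => norm_sum_le_of_le _ fun t _ => ?_
            rw [norm_mul, ← inner_conj_symm (ζ j a t) u, RCLike.norm_conj]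
            nlinarith [sq_nonneg (‖(inner ℂ v (ζ j a t) : ℂ)‖ - ‖(inner ℂ u (ζ j a t) : ℂ)‖),
              norm_nonneg (inner ℂ v (ζ j a t) : ℂ), norm_nonneg (inner ℂ u (ζ j a t) : ℂ),
              sq_nonneg ‖(inner ℂ v (ζ j a t) : ℂ)‖, sq_nonneg ‖(inner ℂ u (ζ j a t) : ℂ)‖]
        _ = ∑ a, ∑ t, ‖(inner ℂ v (ζ j a t) : ℂ)‖ ^ 2 +
              ∑ a, ∑ t, ‖(inner ℂ u (ζ j a t) : ℂ)‖ ^ 2 := by
            simp only [Finset.sum_add_distrib]
        _ ≤ C * ‖v‖ ^ 2 / (2 * k j + 1) + C * ‖u‖ ^ 2 / (2 * k j + 1) :=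
            add_le_add (hbd j v) (hbd j u)
        _ ≤ |C| * ‖v‖ ^ 2 / (2 * k j + 1) + |C| * ‖u‖ ^ 2 / (2 * k j + 1) := by
            gcongr <;> exact le_abs_self C
        _ = _ := by rw [add_div]
    have h3 := hψ z
    rw [h2, zero_sub, norm_neg, star_one, one_mul, mul_one] at h3
    refine h3.trans ?_
    rw [div_mul_eq_mul_div, div_le_iff₀ (by positivity)]
    nlinarith [norm_nonneg z]
  -- bounded operators
  have hnf1 : nf φ (1 : (E →L[ℂ] E) ⊗[ℂ] (E →L[ℂ] E)) = 1 := by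
    unfold nf b1q
    rw [star_one, mul_one, h1]
    simp
  have hnf : ∀ z : E →L[ℂ] E, nf φ (z ⊗ₜ[ℂ] (1 : E →L[ℂ] E)) ≤ ‖z‖ := by
    intro z
    apply le_of_forall_pos_le_add
    intro δ hδ
    have hc : 0 < ‖z‖ + δ := by positivity
    obtain ⟨z', hz'⟩ : ∃ z' : E →L[ℂ] E, z' = (((‖z‖ + δ)⁻¹ : ℝ) : ℂ) • z := ⟨_, rfl⟩
    have hz1 : ‖z'‖ ≤ 1 := by
      rw [hz', norm_smul, Complex.norm_real, Real.norm_eq_abs, abs_of_pos (inv_pos.2 hc),
        inv_mul_le_iff₀ hc]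
      linarith
    have hz2 : z = ((‖z‖ + δ : ℝ) : ℂ) • z' := by
      rw [hz', smul_smul, ← Complex.ofReal_mul, mul_inv_cancel₀ hc.ne', Complex.ofReal_one,
        one_smul]
    have h2 := nf_left hφ z' hz1 1
    rw [mul_one, hnf1] at h2
    have h3 : nf φ (z ⊗ₜ[ℂ] (1 : E →L[ℂ] E)) = (‖z‖ + δ) * nf φ (z' ⊗ₜ[ℂ] (1 : E →L[ℂ] E)) := by
      conv_lhs => rw [hz2]
      rw [← TensorProduct.smul_tmul', nf_smul, Complex.norm_real, Real.norm_eq_abs,
        abs_of_pos hc]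
    rw [h3]
    nlinarith
  have hbound : ∀ s : (E →L[ℂ] E) ⊗[ℂ] (E →L[ℂ] E), ‖φ s‖ ≤ 2 * nf φ s := by
    intro s
    have key : ∀ c : ℂ, ‖c‖ = 1 → (c * φ s).re ≤ nf φ s := by
      intro c hc
      have h5 := nf_cs hφ 1 (c • s)
      rw [hnf1, star_one, one_mul, one_mul, map_smul, smul_eq_mul, nf_smul, hc, one_mul] at h5
      exact h5
    have k1 := key 1 (by simp)
    have k2 := key (-1) (by simp)
    have k3 := key Complex.I (by simp)
    have k4 := key (-Complex.I) (by simp)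
    simp only [one_mul, neg_mul, Complex.neg_re, Complex.mul_re, Complex.I_re, zero_mul,
      Complex.I_im, zero_sub] at k1 k2 k3 k4
    refine (Complex.norm_le_abs_re_add_abs_im _).trans ?_
    have k5 : |(φ s).re| ≤ nf φ s := abs_le.2 ⟨by linarith, k1⟩
    have k6 : |(φ s).im| ≤ nf φ s := abs_le.2 ⟨by linarith, by linarith⟩
    linarith
  have hzero : ∀ z : E →L[ℂ] E, IsCompactOperator z → φ (z ⊗ₜ[ℂ] (1 : E →L[ℂ] E)) = 0 := by
    intro z hz
    have h2 : ∀ n, φ ((z * Pn ε n) ⊗ₜ[ℂ] (1 : E →L[ℂ] E)) = 0 := by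
      intro n
      have e : z * Pn ε n = ∑ m ∈ Finset.range n, (innerSL ℂ (ε m)).smulRight (z (ε m)) := by
        ext v
        show z (Pn ε n v) = _
        rw [Pn_apply, map_sum, ContinuousLinearMap.sum_apply]
        refine Finset.sum_congr rfl fun m _ => ?_
        rw [map_smul]
        rfl
      rw [e, TensorProduct.sum_tmul, map_sum]
      exact Finset.sum_eq_zero fun m _ => hrank _ _
    have h3 : ∀ n, ‖φ (z ⊗ₜ[ℂ] (1 : E →L[ℂ] E))‖ ≤ 2 * ‖z * (1 - Pn ε n)‖ := by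
      intro n
      have e : φ (z ⊗ₜ[ℂ] (1 : E →L[ℂ] E)) = φ ((z * (1 - Pn ε n)) ⊗ₜ[ℂ] (1 : E →L[ℂ] E)) := by
        rw [mul_sub, mul_one, TensorProduct.sub_tmul, map_sub, h2, sub_zero]
      rw [e]
      refine (hbound _).trans ?_
      gcongr
      exact hnf _
    have h4 := (compact_Pn ε hz).const_mul 2
    rw [mul_zero] at h4
    exact norm_le_zero_iff.1 (ge_of_tendsto' h4 h3)
  -- general second leg
  have h2 : nf φ (star x ⊗ₜ[ℂ] (1 : E →L[ℂ] E)) = 0 := by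
    unfold nf b1q
    rw [TensorProduct.star_tmul, star_star, star_one, Algebra.TensorProduct.tmul_mul_tmul,
      one_mul, hzero _ (hx.comp_clm (star x))]
    simp
  have key : ∀ c : ℂ, (c * φ (x ⊗ₜ y)).re ≤ 0 := by
    intro c
    have h5 := nf_cs hφ (star x ⊗ₜ[ℂ] (1 : E →L[ℂ] E)) (c • ((1 : E →L[ℂ] E) ⊗ₜ[ℂ] y))
    rw [h2, zero_mul, mul_smul_comm, TensorProduct.star_tmul, star_star, star_one,
      Algebra.TensorProduct.tmul_mul_tmul, one_mul, mul_one, map_smul, smul_eq_mul] at h5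
    exact h5
  have k1 := key (star (φ (x ⊗ₜ y)))
  have e : star (φ (x ⊗ₜ y)) * φ (x ⊗ₜ y) = ((‖φ (x ⊗ₜ y)‖ ^ 2 : ℝ) : ℂ) := by
    rw [Complex.star_def, Complex.conj_mul']
    push_cast
    rfl
  rw [e, Complex.ofReal_re] at k1
  have k2 : ‖φ (x ⊗ₜ y)‖ = 0 := by
    have := norm_nonneg (φ (x ⊗ₜ y))
    nlinarith
  exact norm_eq_zero.1 k2

end

end Pool.Agent.H86.CN
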