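import Pool.Agent.H86.CN.Lev
import Pool.Agent.H86.CN.Uc

/-!
The states and the test elements at the different levels.
-/

set_option autoImplicit false
set_option linter.unusedSectionVars false

open Filter Topology Cardinal
open scoped InnerProductSpace TensorProduct ComplexOrder

namespace Pool.Agent.H86.CN

open Pool.Agent.Helper965.CN

theorem not_findim' {X M : Type} [NormedAddCommGroup M] [InnerProductSpace ℂ M] [CompleteSpace M]
    [Infinite X] (e : HilbertBasis X ℂ M) : ¬ FiniteDimensional ℂ M := by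
  intro h
  have h1 : LinearIndependent ℂ e := e.orthonormal.linearIndependent
  have h2 := h1.finite
  exact not_finite X

theorem separable_of_basis' {M : Type} [NormedAddCommGroup M] [InnerProductSpace ℂ M]
    [CompleteSpace M] (e : HilbertBasis ℕ ℂ M) : TopologicalSpace.SeparableSpace M := by
  have h1 : TopologicalSpace.IsSeparable (Set.range e) := (Set.countable_range e).isSeparable
  have h2 := (h1.span (R := ℂ)).closure
  have h3 : closure ((Submodule.span ℂ (Set.range e) : Submodule ℂ M) : Set M) = Set.univ :=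
    (Submodule.dense_iff_topologicalClosure_eq_top.mpr e.dense_span).closure_eq
  rw [h3] at h2
  exact TopologicalSpace.isSeparable_univ_iff.1 h2

section

variable {E H K : Type} [NormedAddCommGroup E] [InnerProductSpace ℂ E] [CompleteSpace E]
  [NormedAddCommGroup H] [InnerProductSpace ℂ H] [CompleteSpace H]
  [NormedAddCommGroup K] [InnerProductSpace ℂ K] [CompleteSpace K]

theorem exists_level_states {X Y : Type} [Infinite X] (e : HilbertBasis X ℂ H)
    (g : HilbertBasis (Y × ℕ) ℂ K) (ε : HilbertBasis ℕ ℂ E)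
    (W : Y → E →ₗᵢ[ℂ] K) (hW : ∀ y m, W y (ε m) = g (y, m)) (V : E →ₗᵢ[ℂ] H)
    (β : Ordinal.{0}) (hY : #Y = ℵ_ β) :
    ∃ (s : (ℕ → Bool) → (E →L[ℂ] E) ⊗[ℂ] (E →L[ℂ] E))
      (G : (Order.succ β).ToType → ((E →L[ℂ] E) →ₗ[ℂ] (K →L[ℂ] K)))
      (D : (Order.succ β).ToType → Set Y)
      (Φ : (ℕ → Bool) → (Order.succ β).ToType → ((H →L[ℂ] H) ⊗[ℂ] (K →L[ℂ] K) →ₗ[ℂ] ℂ)),
      (∀ γ x, ∀ y ∈ D γ, ∀ v, G γ x (W y v) = W y (x v)) ∧
      (∀ γ x, ∀ y ∉ D γ, ∀ v, G γ x (W y v) = 0) ∧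
      (∀ a (ζ : E ⊗[ℂ] E), ‖R (s a) ζ‖ ≤ (4 - 1 / 10 ^ 12) * ‖ζ‖) ∧
      (∀ a γ w, 0 ≤ Φ a γ (star w * w)) ∧ (∀ a γ, Φ a γ 1 = 1) ∧
      (∀ a γ γ', γ ≤ γ' → Φ a γ (TensorProduct.map (amp V) (G γ') (s a)) = 4) ∧
      (∀ a c γ γ', (a ≠ c ∨ γ' < γ) → ∀ w, nf (Φ a γ) (TensorProduct.map (amp V) (G γ') (s c) * w)
        ≤ (4 - 1 / 10 ^ 12) * nf (Φ a γ) w) ∧
      (∀ a γ (x : H →L[ℂ] H) (y : K →L[ℂ] K), IsCompactOperator y → Φ a γ (x ⊗ₜ y) = 0) ∧
      (∀ a γ (x : H →L[ℂ] H) (y : K →L[ℂ] K), IsCompactOperator x → Φ a γ (x ⊗ₜ y) = 0) := by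
  classical
  have hYinf : Infinite Y := by
    rw [Cardinal.infinite_iff, hY]
    exact Cardinal.aleph0_le_aleph β
  have hYi : Infinite (Y × ℕ) := inferInstance
  have := separable_of_basis' ε
  obtain ⟨k, b, T, S, U, φ, hk, hU, hSU, hmin, hpos, hone, hval, hUT, hcpt⟩ :=
    exists_family3 (H := E) (not_findim' ε)
  obtain ⟨D, hD1, hD2, hD3⟩ := exists_levels β hY
  choose G hG1 hG2 using fun γ => exists_diag g ε W hW (D γ)
  choose 𝒰 h𝒰1 h𝒰2 using fun γ => exists_uniform (D γ) (hD2 γ)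
  obtain ⟨ψ, hψ⟩ : ∃ ψ : (ℕ → Bool) → Y → ((H →L[ℂ] H) ⊗[ℂ] (K →L[ℂ] K) →ₗ[ℂ] ℂ),
      ∀ a y, ψ a y = (φ a).comp (cmp2 V (W y)) := ⟨_, fun _ _ => rfl⟩
  have hψpos : ∀ a y w, 0 ≤ ψ a y (star w * w) := by
    intro a y w
    rw [hψ]
    exact cmp2_pos e g ε V (W y) (φ a) (hpos a) w
  have hψone : ∀ a y, ψ a y 1 = 1 := by
    intro a y
    rw [hψ, LinearMap.comp_apply, cmp2_one, hone]
  have hb : ∀ a w, ∃ C : ℝ, ∀ y, ‖ψ a y w‖ ≤ C := by
    intro a w
    obtain ⟨C, hC⟩ := state_bdd w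
    exact ⟨C, fun y => hC _ (hψpos a y) (hψone a y)⟩
  choose Φ hΦ using fun (a : ℕ → Bool) (γ : (Order.succ β).ToType) =>
    exists_ulim (𝒰 γ) (ψ a) (hb a)
  have hst : ∀ a, φ a (tST b (S a) T) = 4 := by
    intro a
    obtain ⟨h6, h7⟩ := hval a
    unfold tST
    rw [map_add, map_sum, h6]
    simp only [h7]
    norm_num
  refine ⟨fun a => tST b (S a) T, G, D, Φ, hG1, hG2, hmin, ?_, ?_, ?_, ?_, ?_, ?_⟩
  · intro a γ w
    exact ge_of_tendsto' (hΦ a γ (star w * w)) fun y => hψpos a y w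
  · intro a γ
    refine tendsto_nhds_unique (hΦ a γ 1) (tendsto_const_nhds.congr fun y => ?_)
    rw [hψone]
  · intro a γ γ' hγ
    refine tendsto_nhds_unique (hΦ a γ _) (tendsto_const_nhds.congr' ?_)
    have h1 : ∀ᶠ y in (𝒰 γ : Filter Y), y ∈ D γ := h𝒰1 γ
    filter_upwards [h1] with y hy
    rw [hψ, LinearMap.comp_apply, cmp2_map g ε W hW (D γ') (G γ') (hG1 γ') (hG2 γ') V _ y
      (hD1 γ γ' hγ hy), hst]
  · intro a c γ γ' hor w
    rcases hor with hac | hlt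
    · have h1 : ∀ y, nf (ψ a y) (TensorProduct.map (amp V) (G γ') (tST b (S c) T) * w) ≤
          (4 - 1 / 10 ^ 12) * nf (ψ a y) w := by
        intro y
        have h2 : TensorProduct.map (amp V) (G γ') (tST b (S c) T) =
            amp V (PS b (S c)) ⊗ₜ[ℂ] G γ' (PS b T) +
              ∑ i, amp V (XS b (S c) i) ⊗ₜ[ℂ] G γ' (YT b T i) := by
          unfold tST
          rw [map_add, map_sum]
          rfl
        rw [h2]
        have hm := diag_mul g ε W hW (D γ') (G γ') (hG1 γ') (hG2 γ')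
        have hs := diag_star g ε W hW (D γ') (G γ') (hG1 γ') (hG2 γ')
        refine upper2 b hk (U a) (hU a) (amp V) (amp_mul V) (amp_star V) (norm_amp_le V)
          (G γ' (PS b T)) (fun i => G γ' (YT b T i)) ?_ ?_ ?_ ?_ (ψ a y) (hψpos a y) ?_ (S c)
          (hSU a c hac) w
        · rw [← hs, PS_star]
        · rw [← hm, PS_mul]
        · intro i
          rw [← hs, ← hm, YT_star_mul]
        · intro i
          rw [← hm, YT_mul_PS]
        · rw [hψ]
          exact UT_cmp g ε V (W y) (hUT a)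
      exact le_of_tendsto_of_tendsto' (nf_tendsto (hΦ a γ) _) ((nf_tendsto (hΦ a γ) w).const_mul _)
        h1
    · -- small level
      obtain ⟨t, ht⟩ : ∃ t, t = TensorProduct.map (amp V) (G γ') (tST b (S c) T) := ⟨_, rfl⟩
      rw [← ht]
      have hproj : (1 ⊗ₜ[ℂ] G γ' 1) * t = t := by
        rw [ht]
        exact map_proj g ε W hW (D γ') (G γ') (hG1 γ') (hG2 γ') V _
      obtain ⟨Bad, hBad1, hBad2⟩ := bad_small g ε W hW (D γ') (G γ') (hG1 γ') (hG2 γ') V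
        (hD2 γ') (t * w)
      have e1 : star (t * w) * (1 ⊗ₜ[ℂ] G γ' 1) * (t * w) = star (t * w) * (t * w) := by
        rw [mul_assoc, ← mul_assoc (1 ⊗ₜ[ℂ] G γ' 1) t w, hproj]
      have h1 : Φ a γ (star (t * w) * (t * w)) = 0 := by
        refine tendsto_nhds_unique (hΦ a γ _) (tendsto_const_nhds.congr' ?_)
        have h2 : ∀ᶠ y in (𝒰 γ : Filter Y), y ∈ Badᶜ :=
          h𝒰2 γ Bad (hBad1.trans_lt (hD3 γ γ' hlt))
        filter_upwards [h2] with y hy
        rw [hψ, LinearMap.comp_apply, ← e1, hBad2 y hy, map_zero]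
      have h3 : nf (Φ a γ) (t * w) = 0 := by
        unfold nf b1q
        rw [h1]
        simp
      rw [h3]
      have h4 := nf_nonneg (φ := Φ a γ) w
      have h5 : (0 : ℝ) ≤ 4 - 1 / 10 ^ 12 := by norm_num
      positivity
  · intro a γ x y hy
    refine tendsto_nhds_unique (hΦ a γ _) (tendsto_const_nhds.congr fun z => ?_)
    rw [hψ, LinearMap.comp_apply]
    show 0 = φ a (cmp V x ⊗ₜ[ℂ] cmp (W z) y)
    rw [hcpt a _ _ (cmp_compact (W z) hy)]
  · intro a γ x y hx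
    refine tendsto_nhds_unique (hΦ a γ _) (tendsto_const_nhds.congr fun z => ?_)
    rw [hψ, LinearMap.comp_apply]
    show 0 = φ a (cmp V x ⊗ₜ[ℂ] cmp (W z) y)
    rw [utype_compact hk (hU a) ε (hpos a) (hone a) (hUT a) (cmp_compact V hx)]

end

end Pool.Agent.H86.CN
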