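import Pool.Agent.H86.CN.Lower

/-!
The lower bound for the Calkin algebra.
-/

set_option autoImplicit false
set_option linter.unusedSectionVars false

open Filter Topology Cardinal
open scoped InnerProductSpace TensorProduct ComplexOrder

namespace Pool.Agent.H86.CN

open Pool.Agent.Helper965.CN

section

variable {M : Type} [NormedAddCommGroup M] [InnerProductSpace ℂ M] [CompleteSpace M]

/-- C*-norms on `B(M) ⊗ Q(M)` from families of functionals. -/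
theorem exists_norms_BQ (t : (ℕ → Bool) → (M →L[ℂ] M) ⊗[ℂ] (M →L[ℂ] M))
    (φ : (ℕ → Bool) → ((M →L[ℂ] M) ⊗[ℂ] (M →L[ℂ] M) →ₗ[ℂ] ℂ))
    (h0 : ∀ a (ζ : M ⊗[ℂ] M), ‖R (t a) ζ‖ ≤ (4 - 1 / 10 ^ 12) * ‖ζ‖)
    (h1 : ∀ a s, 0 ≤ φ a (star s * s)) (h2 : ∀ a, φ a 1 = 1 ∧ φ a (t a) = 4)
    (h3 : ∀ a c, a ≠ c → ∀ w, nf (φ a) (t c * w) ≤ (4 - 1 / 10 ^ 12) * nf (φ a) w)
    (h4 : ∀ a (x y : M →L[ℂ] M), IsCompactOperator y → φ a (x ⊗ₜ y) = 0) :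
    ∃ N : Set (ℕ → Bool) → (M →L[ℂ] M) ⊗[ℂ] Calkin M → ℝ, (∀ 𝒢, IsCStarNorm (N 𝒢)) ∧
      (∀ 𝒢 a, a ∈ 𝒢 → 4 ≤ N 𝒢 (Pi (t a))) ∧
      (∀ 𝒢 a, a ∉ 𝒢 → N 𝒢 (Pi (t a)) ≤ 4 - 1 / 10 ^ 12) := by
  obtain ⟨V, hV, _⟩ := exists_ultra Set.univ Set.infinite_univ
  obtain ⟨hadm, hlow, hup⟩ := cn_values (A := M →L[ℂ] M) (B := M →L[ℂ] M) (Φ₀ := limS V)
    (fun φ hφ s => limS_pos hφ s) t φ
    (fun ψ hψ a w => limS_bound hψ (t a) _ (h0 a) w) h1 h2 h3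
  have hcpt : ∀ 𝒢 : Set (ℕ → Bool), ∀ ψ ∈ limS V ∪ φ '' 𝒢, ∀ x y : M →L[ℂ] M,
      IsCompactOperator y → ψ (x ⊗ₜ y) = 0 := by
    rintro 𝒢 ψ (hψ | ⟨a, _, rfl⟩) x y hy
    · exact limS_compact hV hψ x y hy
    · exact h4 a x y hy
  have hne : ∀ 𝒢 : Set (ℕ → Bool), (limS (H := M) V ∪ φ '' 𝒢).Nonempty := by
    intro 𝒢
    obtain ⟨ψ, hψ⟩ := exists_lim (H := M) V (fun _ => (0 : M) ⊗ₜ[ℂ] (0 : M)) 0 (fun n => by simp)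
    exact ⟨ψ, Or.inl ⟨0, fun _ => 0, fun n => by simp, fun x => by simp, hψ⟩⟩
  have hker : ∀ 𝒢 : Set (ℕ → Bool), ∀ s, cn (A := (M →L[ℂ] M) ⊗[ℂ] (M →L[ℂ] M))
      (limS V ∪ φ '' 𝒢) s = 0 ↔ Pi s = 0 := by
    intro 𝒢 s
    constructor
    · intro hs
      by_contra hPi
      have hnot : s ∉ Submodule.span ℂ {t : (M →L[ℂ] M) ⊗[ℂ] (M →L[ℂ] M) |
          ∃ x y : M →L[ℂ] M, IsCompactOperator y ∧ t = x ⊗ₜ y} := by
        intro hmem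
        apply hPi
        have hle : Submodule.span ℂ {t : (M →L[ℂ] M) ⊗[ℂ] (M →L[ℂ] M) |
            ∃ x y : M →L[ℂ] M, IsCompactOperator y ∧ t = x ⊗ₜ y} ≤ LinearMap.ker (Pi (H := M)) := by
          rw [Submodule.span_le]
          rintro _ ⟨x, y, hy, rfl⟩
          show Pi (x ⊗ₜ y) = 0
          rw [Pi_tmul, (calkinMk_eq_zero y).2 hy, TensorProduct.tmul_zero]
        exact hle hmem
      obtain ⟨ξ, η, hη, hw, hnt⟩ := sep_lim V hV s hnot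
      obtain ⟨ψ, hψ⟩ := exists_lim V (fun n => ξ ⊗ₜ[ℂ] η n) ‖ξ‖ (fun n => by
        rw [TensorProduct.norm_tmul]
        exact mul_le_of_le_one_right (norm_nonneg _) (hη n))
      have hmem : ψ ∈ limS V ∪ φ '' 𝒢 := Or.inl ⟨ξ, η, hη, hw, hψ⟩
      apply hnt
      have h5 := limS_nf hψ s
      have h6 := le_cn (hadm 𝒢) hmem s 1
      rw [hs, b1_convT, mul_one, ← nf_sq (limS_pos (V := V) ⟨ξ, η, hη, hw, hψ⟩)] at h6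
      have h7 : nf ψ s = 0 := by
        have h8 : nf ψ s ^ 2 ≤ 0 := by simpa using h6
        exact pow_eq_zero_iff two_ne_zero |>.1 (le_antisymm h8 (sq_nonneg _))
      rw [h7] at h5
      exact h5
    · intro hs
      refine le_antisymm ?_ (b1_nonneg (A := (M →L[ℂ] M) ⊗[ℂ] (M →L[ℂ] M)) _ _)
      refine cn_le (hadm 𝒢) s 0 le_rfl fun ψ hψ w => ?_
      have h5 : ψ (star w * (star s * s) * w) = 0 := by
        apply Pi_ker ψ (hcpt 𝒢 ψ hψ)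
        rw [Pi_mul, Pi_mul, Pi_mul, hs]
        have e1 : Pi (star s) * (0 : (M →L[ℂ] M) ⊗[ℂ] Calkin M) = 0 := mul_zero (Pi (star s))
        have e2 : Pi (star w) * (0 : (M →L[ℂ] M) ⊗[ℂ] Calkin M) = 0 := mul_zero (Pi (star w))
        have e3 : (0 : (M →L[ℂ] M) ⊗[ℂ] Calkin M) * Pi w = 0 := zero_mul (Pi w)
        exact (congrArg (fun u => Pi (star w) * u * Pi w) e1).trans
          ((congrArg (fun u => u * Pi w) e2).trans e3)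
      rw [h5]
      simp
  choose N hN hNs using fun 𝒢 : Set (ℕ → Bool) => descend
    (cn (A := (M →L[ℂ] M) ⊗[ℂ] (M →L[ℂ] M)) (limS V ∪ φ '' 𝒢))
    (cn_seminorm (hadm 𝒢) (hne 𝒢)) (hker 𝒢)
  exact ⟨N, hN, fun 𝒢 a ha => by rw [hNs]; exact hlow 𝒢 a ha,
    fun 𝒢 a ha => by rw [hNs]; exact hup 𝒢 a ha⟩

end

section

variable {H K : Type} [NormedAddCommGroup H] [InnerProductSpace ℂ H] [CompleteSpace H]
  [NormedAddCommGroup K] [InnerProductSpace ℂ K] [CompleteSpace K]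

/-- the quotient map of the second factor -/
noncomputable def Pi2 : (H →L[ℂ] H) ⊗[ℂ] (K →L[ℂ] K) →ₗ[ℂ] (H →L[ℂ] H) ⊗[ℂ] Calkin K :=
  TensorProduct.map LinearMap.id calkinLin

theorem Pi2_surjective : Function.Surjective (Pi2 (H := H) (K := K)) :=
  TensorProduct.map_surjective Function.surjective_id calkinLin_surjective

theorem Pi2_mul (s t : (H →L[ℂ] H) ⊗[ℂ] (K →L[ℂ] K)) : Pi2 (s * t) = Pi2 s * Pi2 t :=
  tmap_mul _ _ (fun _ _ => rfl) (fun _ _ => rfl) s t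

theorem Pi2_star (s : (H →L[ℂ] H) ⊗[ℂ] (K →L[ℂ] K)) : Pi2 (star s) = star (Pi2 s) :=
  tmap_star _ _ (fun _ => rfl) (fun _ => rfl) s

theorem lower_BQ_aux {M E : Type} [NormedAddCommGroup M] [InnerProductSpace ℂ M] [CompleteSpace M]
    [NormedAddCommGroup E] [InnerProductSpace ℂ E] [CompleteSpace E] {Z : Type} [Infinite Z]
    (g : HilbertBasis Z ℂ M) (ε : HilbertBasis ℕ ℂ E) (V₁ : H →ₗᵢ[ℂ] M)
    (W₁ : K →ₗᵢ[ℂ] M) (V₀ : E →ₗᵢ[ℂ] H) (W₀ : E →ₗᵢ[ℂ] K) :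
    2 ^ 𝔠 ≤ #{N : (H →L[ℂ] H) ⊗[ℂ] Calkin K → ℝ // IsCStarNorm N} := by
  obtain ⟨t, φ, h0, h1, h2, h3, h4⟩ := exists_family2 g ε (V₁.comp V₀) (W₁.comp W₀)
  obtain ⟨t', ht'⟩ : ∃ t' : (ℕ → Bool) → (M →L[ℂ] M) ⊗[ℂ] (M →L[ℂ] M),
      ∀ a, t' a = amp2 (V₁.comp V₀) (W₁.comp W₀) (t a) := ⟨_, fun _ => rfl⟩
  simp only [← ht'] at h0 h2 h3
  obtain ⟨N₀, hN₀, hlow, hup⟩ := exists_norms_BQ t' φ h0 h1 h2 h3 h4
  obtain ⟨q, hq⟩ := exists_calkinAmp W₁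
  obtain ⟨hq1, hq2, hq3⟩ := calkinAmp_facts W₁ q hq
  obtain ⟨j, hj⟩ : ∃ j : (H →L[ℂ] H) ⊗[ℂ] Calkin K →ₗ[ℂ] (M →L[ℂ] M) ⊗[ℂ] Calkin M,
      j = TensorProduct.map (amp V₁) q := ⟨_, rfl⟩
  have hj1 : ∀ x y, j (x * y) = j x * j y := by
    rw [hj]
    exact tmap_mul _ _ (amp_mul V₁) hq1
  have hj2 : ∀ x, j (star x) = star (j x) := by
    rw [hj]
    exact tmap_star _ _ (amp_star V₁) hq2
  have hj3 : Function.Injective j := by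
    rw [hj]
    exact TensorProduct.map_injective_of_flat_flat _ _ (amp_injective V₁) hq3
  have hjPi : ∀ s : (H →L[ℂ] H) ⊗[ℂ] (K →L[ℂ] K), j (Pi2 s) = Pi (amp2 V₁ W₁ s) := by
    intro s
    induction s using TensorProduct.induction_on with
    | zero => simp
    | add s t hs ht => rw [map_add, map_add, map_add, map_add, hs, ht]
    | tmul x y =>
      rw [hj]
      show amp V₁ x ⊗ₜ[ℂ] q (calkinMk K y) = amp V₁ x ⊗ₜ[ℂ] calkinMk M (amp W₁ y)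
      rw [hq]
  obtain ⟨N, hNe⟩ : ∃ N : Set (ℕ → Bool) → (H →L[ℂ] H) ⊗[ℂ] Calkin K → ℝ, ∀ 𝒢 s, N 𝒢 s =
      N₀ 𝒢 (j s) := ⟨_, fun _ _ => rfl⟩
  have hN' : ∀ 𝒢 : Set (ℕ → Bool), IsCStarNorm (N 𝒢) := by
    intro 𝒢
    have h4 := norm_pull (C := (H →L[ℂ] H) ⊗[ℂ] Calkin K)
      (D := (M →L[ℂ] M) ⊗[ℂ] Calkin M) (hN₀ 𝒢) j hj1 hj2 hj3
    have h5 : N 𝒢 = fun x => N₀ 𝒢 (j x) := funext (hNe 𝒢)
    rw [h5]
    exact h4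
  have hval : ∀ 𝒢 a, N 𝒢 (Pi2 (amp2 V₀ W₀ (t a))) = N₀ 𝒢 (Pi (t' a)) := by
    intro 𝒢 a
    rw [hNe, ht', amp2_comp, hjPi]
  have hinj : Function.Injective N := inj_of_values N (fun a => Pi2 (amp2 V₀ W₀ (t a)))
    (fun 𝒢 a ha => by rw [hval]; exact hlow 𝒢 a ha)
    (fun 𝒢 a ha => by rw [hval]; exact hup 𝒢 a ha)
  refine lower_of (fun 𝒢 => (⟨N 𝒢, hN' 𝒢⟩ :
    {N : (H →L[ℂ] H) ⊗[ℂ] Calkin K → ℝ // IsCStarNorm N})) ?_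
  intro 𝒢 𝒢' h
  exact hinj (congrArg Subtype.val h)

theorem lower_BQ {X Y : Type} [Infinite X] [Infinite Y] (e : HilbertBasis X ℂ H)
    (f : HilbertBasis Y ℂ K) :
    2 ^ 𝔠 ≤ #{N : (H →L[ℂ] H) ⊗[ℂ] Calkin K → ℝ // IsCStarNorm N} := by
  obtain ⟨M, E, _, _, _, _, _, _, g, ε, V₁, W₁, V₀, W₀, _⟩ := exists_embeddings e f
  exact lower_BQ_aux g ε V₁ W₁ V₀ W₀

end

end Pool.Agent.H86.CN
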