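import Pool.Agent.H86.CN.Lev2
import Pool.Agent.H86.CN.LowerQ

/-!
The norms attached to functions into the levels.
-/

set_option autoImplicit false
set_option linter.unusedSectionVars false

open Filter Topology Cardinal
open scoped InnerProductSpace TensorProduct ComplexOrder

namespace Pool.Agent.H86.CN

open Pool.Agent.Helper965.CN

section values

variable {A B : Type} [CStarAlgebra A] [CStarAlgebra B]

theorem cn_levels {Γ : Type} {Φ₀ : Set (A ⊗[ℂ] B →ₗ[ℂ] ℂ)} [LinearOrder Γ]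
    (hpos₀ : ∀ φ ∈ Φ₀, ∀ s, 0 ≤ φ (star s * s))
    (t : (ℕ → Bool) → Γ → A ⊗[ℂ] B) (φ : (ℕ → Bool) → Γ → (A ⊗[ℂ] B →ₗ[ℂ] ℂ))
    (h₀ : ∀ ψ ∈ Φ₀, ∀ a γ w, nf ψ (t a γ * w) ≤ (4 - 1 / 10 ^ 12) * nf ψ w)
    (h1 : ∀ a γ s, 0 ≤ φ a γ (star s * s)) (h2 : ∀ a γ, φ a γ 1 = 1)
    (h2' : ∀ a γ γ', γ ≤ γ' → φ a γ (t a γ') = 4)
    (h3 : ∀ a c γ γ', (a ≠ c ∨ γ' < γ) → ∀ w,
      nf (φ a γ) (t c γ' * w) ≤ (4 - 1 / 10 ^ 12) * nf (φ a γ) w) :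
    (∀ h : (ℕ → Bool) → Γ, Adm (A := A ⊗[ℂ] B) (Φ₀ ∪ Set.range fun a => φ a (h a))) ∧
    (∀ (h : (ℕ → Bool) → Γ) a γ', h a ≤ γ' →
      4 ≤ cn (A := A ⊗[ℂ] B) (Φ₀ ∪ Set.range fun a => φ a (h a)) (t a γ')) ∧
    (∀ (h : (ℕ → Bool) → Γ) a γ', γ' < h a →
      cn (A := A ⊗[ℂ] B) (Φ₀ ∪ Set.range fun a => φ a (h a)) (t a γ') ≤ 4 - 1 / 10 ^ 12) := by
  have hadm : ∀ h : (ℕ → Bool) → Γ,
      Adm (A := A ⊗[ℂ] B) (Φ₀ ∪ Set.range fun a => φ a (h a)) := by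
    intro h
    have hp : ∀ ψ ∈ Φ₀ ∪ Set.range (fun a => φ a (h a)), ∀ s, 0 ≤ ψ (star s * s) := by
      rintro ψ (hψ | ⟨a, rfl⟩) s
      · exact hpos₀ ψ hψ s
      · exact h1 a _ s
    refine ⟨hp, fun s => ?_⟩
    obtain ⟨C, hC⟩ := tensor_bdd s
    exact ⟨C, fun ψ hψ w => hC ψ (hp ψ hψ) w⟩
  refine ⟨hadm, ?_, ?_⟩
  · intro h a γ' ha
    have h4 := le_cn (hadm h) (φ := φ a (h a)) (Or.inr ⟨a, rfl⟩) (t a γ') 1
    rw [b1_conv, mul_one] at h4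
    have h5 := nf_cs (h1 a (h a)) 1 (t a γ')
    have h6 : nf (φ a (h a)) (1 : A ⊗[ℂ] B) = 1 := by
      unfold nf b1q
      rw [star_one, mul_one, h2]
      simp
    rw [h6, star_one, one_mul, one_mul, h2' a _ _ ha] at h5
    have h7 : (4 : ℝ) ≤ nf (φ a (h a)) (t a γ') := by simpa using h5
    have h8 : (φ a (h a) (star (1 : A ⊗[ℂ] B) * 1)).re = 1 := by
      rw [star_one, mul_one, h2]; simp
    rw [h8, mul_one, ← nf_sq (h1 a (h a))] at h4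
    have h9 := b1_nonneg (A := A ⊗[ℂ] B) (Φ₀ ∪ Set.range fun a => φ a (h a)) (t a γ')
    have h10 := nf_nonneg (φ := φ a (h a)) (t a γ')
    nlinarith
  · intro h c γ' hc
    refine cn_le (hadm h) (t c γ') _ (by norm_num) ?_
    intro ψ hψ w
    have hp := (hadm h).pos ψ hψ
    have h4 : nf ψ (t c γ' * w) ≤ (4 - 1 / 10 ^ 12) * nf ψ w := by
      rcases hψ with hψ | ⟨a, rfl⟩
      · exact h₀ ψ hψ c γ' w
      · refine h3 a c (h a) γ' ?_ w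
        by_cases hac : a = c
        · right
          rw [hac]
          exact hc
        · exact Or.inl hac
    rw [b1_conv, ← nf_sq hp]
    have h5 : (ψ (star w * w)).re = nf ψ w ^ 2 := (nf_sq hp w).symm
    rw [h5, ← mul_pow]
    exact pow_le_pow_left₀ (nf_nonneg _) h4 2

theorem inj_of_levels {D Γ : Type} [LinearOrder Γ] (N : ((ℕ → Bool) → Γ) → D → ℝ)
    (t : (ℕ → Bool) → Γ → D) (h1 : ∀ h a γ, h a ≤ γ → 4 ≤ N h (t a γ))
    (h2 : ∀ h a γ, γ < h a → N h (t a γ) ≤ 4 - 1 / 10 ^ 12) : Function.Injective N := by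
  have key : ∀ h h' : (ℕ → Bool) → Γ, N h = N h' → ∀ a, ¬ h a < h' a := by
    intro h h' he a hlt
    have h4 := h1 h a (h a) le_rfl
    have h5 := h2 h' a (h a) hlt
    rw [he] at h4
    norm_num at h4 h5
    linarith
  intro h h' he
  funext a
  exact le_antisymm (not_lt.1 (key h' h he.symm a)) (not_lt.1 (key h h' he a))

theorem lower_of_levels {𝒩 : Type} (β : Ordinal.{0})
    (N : ((ℕ → Bool) → (Order.succ β).ToType) → 𝒩) (hN : Function.Injective N) :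
    (β.card + 1) ^ 𝔠 ≤ #𝒩 := by
  refine le_trans (le_of_eq ?_) (Cardinal.mk_le_of_injective hN)
  rw [Cardinal.mk_arrow, Cardinal.lift_id, Cardinal.lift_id, Cardinal.mk_toType,
    Ordinal.card_succ]
  congr 1
  simp

end values

section

variable {E H K M : Type} [NormedAddCommGroup E] [InnerProductSpace ℂ E] [CompleteSpace E]
  [NormedAddCommGroup H] [InnerProductSpace ℂ H] [CompleteSpace H]
  [NormedAddCommGroup K] [InnerProductSpace ℂ K] [CompleteSpace K]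
  [NormedAddCommGroup M] [InnerProductSpace ℂ M] [CompleteSpace M]

theorem nf_amp2 (V₁ : H →ₗᵢ[ℂ] M) (W₁ : K →ₗᵢ[ℂ] M)
    (ψ : (M →L[ℂ] M) ⊗[ℂ] (M →L[ℂ] M) →ₗ[ℂ] ℂ) (s : (H →L[ℂ] H) ⊗[ℂ] (K →L[ℂ] K)) :
    nf (ψ.comp (amp2 V₁ W₁)) s = nf ψ (amp2 V₁ W₁ s) := by
  unfold nf b1q
  rw [LinearMap.comp_apply, amp2_mul, amp2_star]

theorem amp2_map (V₁ : H →ₗᵢ[ℂ] M) (W₁ : K →ₗᵢ[ℂ] M) (V : E →ₗᵢ[ℂ] H)
    (G : (E →L[ℂ] E) →ₗ[ℂ] (K →L[ℂ] K)) (s : (E →L[ℂ] E) ⊗[ℂ] (E →L[ℂ] E)) :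
    amp2 V₁ W₁ (TensorProduct.map (amp V) G s) =
      TensorProduct.map (amp (V₁.comp V)) ((amp W₁).comp G) s := by
  induction s using TensorProduct.induction_on with
  | zero => simp
  | add s s' h h' => rw [map_add, map_add, map_add, h, h']
  | tmul x x' =>
    show amp V₁ (amp V x) ⊗ₜ[ℂ] amp W₁ (G x') = amp (V₁.comp V) x ⊗ₜ[ℂ] amp W₁ (G x')
    rw [amp_comp]

/-- the blocks of a nonseparable space -/
theorem exists_block_basis {Y : Type} [Infinite Y] (f : HilbertBasis Y ℂ K)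
    (ε : HilbertBasis ℕ ℂ E) : ∃ (g : HilbertBasis (Y × ℕ) ℂ K) (W : Y → E →ₗᵢ[ℂ] K),
      ∀ y m, W y (ε m) = g (y, m) := by
  have h : #Y = #(Y × ℕ) := by
    rw [Cardinal.mk_prod, Cardinal.lift_id, Cardinal.lift_id, Cardinal.mk_nat,
      Cardinal.mul_aleph0_eq (Cardinal.infinite_iff.1 inferInstance)]
  obtain ⟨σ⟩ := Cardinal.eq.1 h
  obtain ⟨g, _⟩ := exists_reindex f σ
  choose W hW using fun y => exists_isom (H := K) ε (w := fun m => g (y, m))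
    (g.orthonormal.comp _ (fun m m' h => (Prod.mk.inj h).2))
  exact ⟨g, W, hW⟩

theorem lower_lev_BB {X Y : Type} [Infinite X] (e : HilbertBasis X ℂ H)
    (f : HilbertBasis Y ℂ K) (β : Ordinal.{0}) (hY : #Y = ℵ_ β) :
    (β.card + 1) ^ 𝔠 ≤ #{N : (H →L[ℂ] H) ⊗[ℂ] (K →L[ℂ] K) → ℝ // IsCStarNorm N} := by
  have hYinf : Infinite Y := by
    rw [Cardinal.infinite_iff, hY]
    exact Cardinal.aleph0_le_aleph β
  obtain ⟨M, E, _, _, _, _, _, _, _, ε, V₁, W₁, V₀, _, _⟩ := exists_embeddings e f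
  obtain ⟨g, W, hW⟩ := exists_block_basis f ε
  obtain ⟨s, G, D, Φ, hG1, hG2, hmin, hpos, hone, hval, hup, _⟩ :=
    exists_level_states e g ε W hW V₀ β hY
  obtain ⟨t, ht⟩ : ∃ t : (ℕ → Bool) → (Order.succ β).ToType → (H →L[ℂ] H) ⊗[ℂ] (K →L[ℂ] K),
      ∀ a γ, t a γ = TensorProduct.map (amp V₀) (G γ) (s a) := ⟨_, fun _ _ => rfl⟩
  simp only [← ht] at hval hup
  have hR : ∀ a γ (ζ : M ⊗[ℂ] M), ‖R (amp2 V₁ W₁ (t a γ)) ζ‖ ≤ (4 - 1 / 10 ^ 12) * ‖ζ‖ := by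
    intro a γ ζ
    rw [ht, amp2_map]
    exact R_diag_le g ε W hW (D γ) (G γ) (hG1 γ) (hG2 γ) (V₁.comp V₀) W₁ (s a) _ (by norm_num)
      (hmin a) ζ
  obtain ⟨Φ₀, hΦ₀⟩ : ∃ Φ₀ : Set ((H →L[ℂ] H) ⊗[ℂ] (K →L[ℂ] K) →ₗ[ℂ] ℂ),
      Φ₀ = Set.range fun ζ : M ⊗[ℂ] M => (vf ζ).comp (amp2 V₁ W₁) := ⟨_, rfl⟩
  obtain ⟨hadm, hlow, hupp⟩ := cn_levels (Φ₀ := Φ₀)
    (by
      rw [hΦ₀]
      rintro _ ⟨ζ, rfl⟩ w
      rw [LinearMap.comp_apply, amp2_mul, amp2_star]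
      exact vf_pos ζ _) t Φ
    (by
      rw [hΦ₀]
      rintro _ ⟨ζ, rfl⟩ a γ w
      rw [nf_amp2, nf_amp2, nf_vf, nf_vf, amp2_mul, Pool.Agent.Helper965.CN.R_mul]
      exact hR a γ _) hpos hone hval hup
  have hN : ∀ h : (ℕ → Bool) → (Order.succ β).ToType, IsCStarNorm
      (cn (A := (H →L[ℂ] H) ⊗[ℂ] (K →L[ℂ] K)) (Φ₀ ∪ Set.range fun a => Φ a (h a))) := by
    intro h
    refine cn_isCStarNorm (hadm h) ⟨(vf 0).comp (amp2 V₁ W₁), Or.inl ?_⟩ ?_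
    · rw [hΦ₀]
      exact ⟨0, rfl⟩
    intro s hs
    have h4 : ∃ ζ, R (amp2 V₁ W₁ s) ζ ≠ 0 := by
      by_contra hcon
      push Not at hcon
      apply hs
      have h5 := R_injective _ hcon
      exact amp2_injective V₁ W₁ (by rw [h5, map_zero])
    obtain ⟨ζ, hζ⟩ := h4
    refine ⟨(vf ζ).comp (amp2 V₁ W₁), Or.inl ?_, 1, ?_⟩
    · rw [hΦ₀]
      exact ⟨ζ, rfl⟩
    rw [star_one, one_mul, mul_one, LinearMap.comp_apply, amp2_mul, amp2_star, vf_star_mul]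
    have : ‖R (amp2 V₁ W₁ s) ζ‖ ≠ 0 := norm_ne_zero_iff.2 hζ
    exact_mod_cast pow_ne_zero 2 this
  obtain ⟨N, hNe⟩ : ∃ N : ((ℕ → Bool) → (Order.succ β).ToType) →
      (H →L[ℂ] H) ⊗[ℂ] (K →L[ℂ] K) → ℝ, ∀ h, N h =
      cn (A := (H →L[ℂ] H) ⊗[ℂ] (K →L[ℂ] K)) (Φ₀ ∪ Set.range fun a => Φ a (h a)) :=
    ⟨_, fun _ => rfl⟩
  have hinj : Function.Injective N := inj_of_levels N t
    (fun h a γ ha => by rw [hNe]; exact hlow h a γ ha)
    (fun h a γ ha => by rw [hNe]; exact hupp h a γ ha)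
  refine lower_of_levels β (fun h => (⟨N h, by rw [hNe]; exact hN h⟩ :
    {N : (H →L[ℂ] H) ⊗[ℂ] (K →L[ℂ] K) → ℝ // IsCStarNorm N})) ?_
  intro h h' hh
  exact hinj (congrArg Subtype.val hh)

theorem norms_swap :
    #{N : (K →L[ℂ] K) ⊗[ℂ] (H →L[ℂ] H) → ℝ // IsCStarNorm N} ≤
      #{N : (H →L[ℂ] H) ⊗[ℂ] (K →L[ℂ] K) → ℝ // IsCStarNorm N} := by
  obtain ⟨j, hj⟩ : ∃ j : (H →L[ℂ] H) ⊗[ℂ] (K →L[ℂ] K) →ₗ[ℂ] (K →L[ℂ] K) ⊗[ℂ] (H →L[ℂ] H),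
      ∀ x, j x = TensorProduct.comm ℂ _ _ x := ⟨(TensorProduct.comm ℂ _ _).toLinearMap,
        fun _ => rfl⟩
  have hjt : ∀ x y, j (x ⊗ₜ[ℂ] y) = y ⊗ₜ[ℂ] x := fun x y => by
    rw [hj]
    rfl
  have hmul : ∀ x y, j (x * y) = j x * j y := by
    intro s t
    induction s using TensorProduct.induction_on with
    | zero => simp
    | add s s' hs hs' => rw [add_mul, map_add, map_add, hs, hs', add_mul]
    | tmul x y =>
      induction t using TensorProduct.induction_on with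
      | zero => simp
      | add t t' ht ht' => rw [mul_add, map_add, map_add, ht, ht', mul_add]
      | tmul x' y' =>
        rw [Algebra.TensorProduct.tmul_mul_tmul, hjt, hjt, hjt,
          Algebra.TensorProduct.tmul_mul_tmul]
  have hstar : ∀ x, j (star x) = star (j x) := by
    intro s
    induction s using TensorProduct.induction_on with
    | zero => simp
    | add s s' hs hs' => rw [star_add, map_add, map_add, hs, hs', star_add]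
    | tmul x y => rw [TensorProduct.star_tmul, hjt, hjt, TensorProduct.star_tmul]
  have hbij : Function.Bijective j := by
    have : (j : _ → _) = TensorProduct.comm ℂ _ _ := funext hj
    rw [this]
    exact (TensorProduct.comm ℂ _ _).bijective
  refine Cardinal.mk_le_of_injective (f := fun N => ⟨fun x => N.1 (j x),
    norm_pull (C := (H →L[ℂ] H) ⊗[ℂ] (K →L[ℂ] K)) (D := (K →L[ℂ] K) ⊗[ℂ] (H →L[ℂ] H)) N.2 j
      hmul hstar hbij.1⟩) ?_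
  intro N N' h
  apply Subtype.ext
  funext x
  obtain ⟨s, rfl⟩ := hbij.2 x
  exact congrFun (congrArg (fun M : {N : (H →L[ℂ] H) ⊗[ℂ] (K →L[ℂ] K) → ℝ // IsCStarNorm N} =>
    M.1) h) s

end

end Pool.Agent.H86.CN
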