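import Pool.Agent.H86.CN.Maps

/-!
The lower bounds.
-/

set_option autoImplicit false
set_option linter.unusedSectionVars false

open Filter Topology Cardinal
open scoped InnerProductSpace TensorProduct ComplexOrder

namespace Pool.Agent.H86.CN

open Pool.Agent.Helper965.CN

/-- the model space -/
theorem exists_model (X : Type) : ∃ (M : Type) (_ : NormedAddCommGroup M)
    (_ : InnerProductSpace ℂ M) (_ : CompleteSpace M), Nonempty (HilbertBasis X ℂ M) :=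
  ⟨lp (fun _ : X => ℂ) 2, inferInstance, inferInstance, inferInstance,
    ⟨⟨LinearIsometryEquiv.refl ℂ _⟩⟩⟩

theorem not_findim {X M : Type} [NormedAddCommGroup M] [InnerProductSpace ℂ M] [CompleteSpace M]
    [Infinite X] (e : HilbertBasis X ℂ M) : ¬ FiniteDimensional ℂ M := by
  intro h
  have h1 : LinearIndependent ℂ e := e.orthonormal.linearIndependent
  have h2 := h1.finite
  exact not_finite X

theorem separable_of_basis {M : Type} [NormedAddCommGroup M] [InnerProductSpace ℂ M]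
    [CompleteSpace M] (e : HilbertBasis ℕ ℂ M) : TopologicalSpace.SeparableSpace M := by
  have h1 : TopologicalSpace.IsSeparable (Set.range e) := (Set.countable_range e).isSeparable
  have h2 := (h1.span (R := ℂ)).closure
  have h3 : closure ((Submodule.span ℂ (Set.range e) : Submodule ℂ M) : Set M) = Set.univ :=
    (Submodule.dense_iff_topologicalClosure_eq_top.mpr e.dense_span).closure_eq
  rw [h3] at h2
  exact TopologicalSpace.isSeparable_univ_iff.1 h2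

section

variable {M E : Type} [NormedAddCommGroup M] [InnerProductSpace ℂ M] [CompleteSpace M]
  [NormedAddCommGroup E] [InnerProductSpace ℂ E] [CompleteSpace E]

/-- The transferred family. -/
theorem exists_family2 {X : Type} [Infinite X] (e : HilbertBasis X ℂ M) (ε : HilbertBasis ℕ ℂ E)
    (V W : E →ₗᵢ[ℂ] M) :
    ∃ (t : (ℕ → Bool) → (E →L[ℂ] E) ⊗[ℂ] (E →L[ℂ] E))
      (φ : (ℕ → Bool) → ((M →L[ℂ] M) ⊗[ℂ] (M →L[ℂ] M) →ₗ[ℂ] ℂ)),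
      (∀ a (ζ : M ⊗[ℂ] M), ‖R (amp2 V W (t a)) ζ‖ ≤ (4 - 1 / 10 ^ 12) * ‖ζ‖) ∧
      (∀ a s, 0 ≤ φ a (star s * s)) ∧ (∀ a, φ a 1 = 1 ∧ φ a (amp2 V W (t a)) = 4) ∧
      (∀ a c, a ≠ c → ∀ w, nf (φ a) (amp2 V W (t c) * w) ≤ (4 - 1 / 10 ^ 12) * nf (φ a) w) ∧
      (∀ a (x y : M →L[ℂ] M), IsCompactOperator y → φ a (x ⊗ₜ y) = 0) := by
  have := separable_of_basis ε
  obtain ⟨t, φ, h0, h1, h2, h3, h4⟩ := exists_family (H := E) (not_findim ε)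
  refine ⟨t, fun a => (φ a).comp (cmp2 V W), ?_, ?_, ?_, ?_, ?_⟩
  · intro a ζ
    exact R_amp2_le V W (t a) _ (by norm_num) (h0 a) ζ
  · intro a s
    exact transfer_pos e ε V W (φ a) (h1 a) s
  · intro a
    rw [LinearMap.comp_apply, LinearMap.comp_apply, cmp2_one, cmp2_amp2]
    exact h2 a
  · intro a c hac w
    exact transfer_le e ε V W (φ a) (h1 a) (t c) _ (by norm_num) (h3 a c hac) w
  · intro a x y hy
    show φ a (cmp V x ⊗ₜ[ℂ] cmp W y) = 0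
    exact h4 a _ _ (cmp_compact W hy)

end

section

variable {H K : Type} [NormedAddCommGroup H] [InnerProductSpace ℂ H] [CompleteSpace H]
  [NormedAddCommGroup K] [InnerProductSpace ℂ K] [CompleteSpace K]

theorem lower_of {𝒩 : Type} (N : Set (ℕ → Bool) → 𝒩) (hN : Function.Injective N) :
    2 ^ 𝔠 ≤ #𝒩 := by
  rw [← mk_sets]
  exact Cardinal.mk_le_of_injective hN

theorem inj_of_values {D : Type} (N : Set (ℕ → Bool) → D → ℝ) (t : (ℕ → Bool) → D)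
    (h1 : ∀ 𝒢 a, a ∈ 𝒢 → 4 ≤ N 𝒢 (t a)) (h2 : ∀ 𝒢 a, a ∉ 𝒢 → N 𝒢 (t a) ≤ 4 - 1 / 10 ^ 12) :
    Function.Injective N := by
  intro 𝒢 𝒢' h
  ext a
  constructor
  · intro ha
    by_contra ha'
    have h4 := h1 𝒢 a ha
    have h5 := h2 𝒢' a ha'
    rw [h] at h4
    norm_num at h4 h5
    linarith
  · intro ha
    by_contra ha'
    have h4 := h1 𝒢' a ha
    have h5 := h2 𝒢 a ha'
    rw [h] at h5
    norm_num at h4 h5
    linarith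

/-- The embeddings into a common space. -/
theorem exists_embeddings {X Y : Type} [Infinite X] [Infinite Y] (e : HilbertBasis X ℂ H)
    (f : HilbertBasis Y ℂ K) : ∃ (M E : Type) (_ : NormedAddCommGroup M)
    (_ : InnerProductSpace ℂ M) (_ : CompleteSpace M) (_ : NormedAddCommGroup E)
    (_ : InnerProductSpace ℂ E) (_ : CompleteSpace E) (_ : HilbertBasis (X ⊕ Y) ℂ M)
    (_ : HilbertBasis ℕ ℂ E) (_ : H →ₗᵢ[ℂ] M) (_ : K →ₗᵢ[ℂ] M) (_ : E →ₗᵢ[ℂ] H)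
    (_ : E →ₗᵢ[ℂ] K), True := by
  let g : HilbertBasis (X ⊕ Y) ℂ (lp (fun _ : X ⊕ Y => ℂ) 2) := ⟨LinearIsometryEquiv.refl ℂ _⟩
  let ε : HilbertBasis ℕ ℂ (lp (fun _ : ℕ => ℂ) 2) := ⟨LinearIsometryEquiv.refl ℂ _⟩
  obtain ⟨V₁, _⟩ := exists_isom e (w := fun x => g (Sum.inl x))
    (g.orthonormal.comp _ Sum.inl_injective)
  obtain ⟨W₁, _⟩ := exists_isom f (w := fun x => g (Sum.inr x))
    (g.orthonormal.comp _ Sum.inr_injective)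
  obtain ⟨V₀, _⟩ := exists_isom ε (w := fun n => e (Infinite.natEmbedding X n))
    (e.orthonormal.comp _ (Infinite.natEmbedding X).injective)
  obtain ⟨W₀, _⟩ := exists_isom ε (w := fun n => f (Infinite.natEmbedding Y n))
    (f.orthonormal.comp _ (Infinite.natEmbedding Y).injective)
  exact ⟨_, _, _, _, inferInstance, _, _, inferInstance, g, ε, V₁, W₁, V₀, W₀, trivial⟩

theorem amp2_comp {M E : Type} [NormedAddCommGroup M] [InnerProductSpace ℂ M] [CompleteSpace M]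
    [NormedAddCommGroup E] [InnerProductSpace ℂ E] [CompleteSpace E] (V₁ : H →ₗᵢ[ℂ] M)
    (W₁ : K →ₗᵢ[ℂ] M) (V₀ : E →ₗᵢ[ℂ] H) (W₀ : E →ₗᵢ[ℂ] K)
    (t : (E →L[ℂ] E) ⊗[ℂ] (E →L[ℂ] E)) :
    amp2 (V₁.comp V₀) (W₁.comp W₀) t = amp2 V₁ W₁ (amp2 V₀ W₀ t) := by
  induction t using TensorProduct.induction_on with
  | zero => simp
  | add s t hs ht => rw [map_add, map_add, map_add, hs, ht]
  | tmul x y =>
    show amp (V₁.comp V₀) x ⊗ₜ[ℂ] amp (W₁.comp W₀) y =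
      amp V₁ (amp V₀ x) ⊗ₜ[ℂ] amp W₁ (amp W₀ y)
    rw [amp_comp, amp_comp]

theorem lower_BB_aux {M E : Type} [NormedAddCommGroup M] [InnerProductSpace ℂ M] [CompleteSpace M]
    [NormedAddCommGroup E] [InnerProductSpace ℂ E] [CompleteSpace E] {Z : Type} [Infinite Z]
    (g : HilbertBasis Z ℂ M) (ε : HilbertBasis ℕ ℂ E) (V₁ : H →ₗᵢ[ℂ] M)
    (W₁ : K →ₗᵢ[ℂ] M) (V₀ : E →ₗᵢ[ℂ] H) (W₀ : E →ₗᵢ[ℂ] K) :
    2 ^ 𝔠 ≤ #{N : (H →L[ℂ] H) ⊗[ℂ] (K →L[ℂ] K) → ℝ // IsCStarNorm N} := by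
  obtain ⟨t, φ, h0, h1, h2, h3, _⟩ := exists_family2 g ε (V₁.comp V₀) (W₁.comp W₀)
  obtain ⟨t', ht'⟩ : ∃ t' : (ℕ → Bool) → (M →L[ℂ] M) ⊗[ℂ] (M →L[ℂ] M),
      ∀ a, t' a = amp2 (V₁.comp V₀) (W₁.comp W₀) (t a) := ⟨_, fun _ => rfl⟩
  simp only [← ht'] at h0 h2 h3
  obtain ⟨hadm, hlow, hup⟩ := cn_values (Φ₀ := Set.range vf)
    (by rintro _ ⟨ζ, rfl⟩ s; exact vf_pos ζ s) t' φ
    (by
      rintro _ ⟨ζ, rfl⟩ a w
      rw [nf_vf, nf_vf, Pool.Agent.Helper965.CN.R_mul]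
      exact h0 a _) h1 h2 h3
  have hN : ∀ 𝒢 : Set (ℕ → Bool), IsCStarNorm
      (cn (A := (M →L[ℂ] M) ⊗[ℂ] (M →L[ℂ] M)) (Set.range vf ∪ φ '' 𝒢)) := by
    intro 𝒢
    refine cn_isCStarNorm (hadm 𝒢) ⟨vf 0, Or.inl ⟨0, rfl⟩⟩ ?_
    intro s hs
    have h4 : ∃ ζ, R s ζ ≠ 0 := by
      by_contra hcon
      push Not at hcon
      exact hs (R_injective s hcon)
    obtain ⟨ζ, hζ⟩ := h4
    refine ⟨vf ζ, Or.inl ⟨ζ, rfl⟩, 1, ?_⟩
    rw [star_one, one_mul, mul_one, vf_star_mul]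
    have : ‖R s ζ‖ ≠ 0 := norm_ne_zero_iff.2 hζ
    exact_mod_cast pow_ne_zero 2 this
  obtain ⟨N, hNe⟩ : ∃ N : Set (ℕ → Bool) → (H →L[ℂ] H) ⊗[ℂ] (K →L[ℂ] K) → ℝ, ∀ 𝒢 s, N 𝒢 s =
      cn (A := (M →L[ℂ] M) ⊗[ℂ] (M →L[ℂ] M)) (Set.range vf ∪ φ '' 𝒢) (amp2 V₁ W₁ s) :=
    ⟨_, fun _ _ => rfl⟩
  have hN' : ∀ 𝒢 : Set (ℕ → Bool), IsCStarNorm (N 𝒢) := by
    intro 𝒢
    have h4 := norm_pull (C := (H →L[ℂ] H) ⊗[ℂ] (K →L[ℂ] K))
      (D := (M →L[ℂ] M) ⊗[ℂ] (M →L[ℂ] M)) (hN 𝒢) (amp2 V₁ W₁) (amp2_mul V₁ W₁)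
      (amp2_star V₁ W₁) (amp2_injective V₁ W₁)
    have h5 : N 𝒢 = fun x => cn (A := (M →L[ℂ] M) ⊗[ℂ] (M →L[ℂ] M)) (Set.range vf ∪ φ '' 𝒢)
        (amp2 V₁ W₁ x) := funext (hNe 𝒢)
    rw [h5]
    exact h4
  have hval : ∀ 𝒢 a, N 𝒢 (amp2 V₀ W₀ (t a)) =
      cn (A := (M →L[ℂ] M) ⊗[ℂ] (M →L[ℂ] M)) (Set.range vf ∪ φ '' 𝒢) (t' a) := by
    intro 𝒢 a
    rw [hNe, ht', amp2_comp]
  have hinj : Function.Injective N := inj_of_values N (fun a => amp2 V₀ W₀ (t a))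
    (fun 𝒢 a ha => by rw [hval]; exact hlow 𝒢 a ha)
    (fun 𝒢 a ha => by rw [hval]; exact hup 𝒢 a ha)
  refine lower_of (fun 𝒢 => (⟨N 𝒢, hN' 𝒢⟩ :
    {N : (H →L[ℂ] H) ⊗[ℂ] (K →L[ℂ] K) → ℝ // IsCStarNorm N})) ?_
  intro 𝒢 𝒢' h
  exact hinj (congrArg Subtype.val h)

theorem lower_BB {X Y : Type} [Infinite X] [Infinite Y] (e : HilbertBasis X ℂ H)
    (f : HilbertBasis Y ℂ K) :
    2 ^ 𝔠 ≤ #{N : (H →L[ℂ] H) ⊗[ℂ] (K →L[ℂ] K) → ℝ // IsCStarNorm N} := by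
  obtain ⟨M, E, _, _, _, _, _, _, g, ε, V₁, W₁, V₀, W₀, _⟩ := exists_embeddings e f
  exact lower_BB_aux g ε V₁ W₁ V₀ W₀

end

end Pool.Agent.H86.CN
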