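import Pool.Agent.H86.CN.LowerQ
import Pool.Agent.H86.CN.Count

/-!
The number of C*-norms.
-/

set_option autoImplicit false
set_option linter.unusedSectionVars false

open Filter Topology Cardinal
open scoped InnerProductSpace TensorProduct ComplexOrder

namespace Pool.Agent.H86.CN

open Pool.Agent.Helper965.CN

variable {H K : Type} [NormedAddCommGroup H] [InnerProductSpace ℂ H] [CompleteSpace H]
  [NormedAddCommGroup K] [InnerProductSpace ℂ K] [CompleteSpace K]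

theorem semi_upper {X Y : Type} (e : HilbertBasis X ℂ H) (f : HilbertBasis Y ℂ K)
    (α β : Ordinal.{0}) (hX : #X = ℵ_ α) (hY : #Y = ℵ_ β) :
    #{N : (H →L[ℂ] H) ⊗[ℂ] (K →L[ℂ] K) → ℝ // IsCStarSemi N} ≤ (α.card + β.card + 2) ^ 𝔠 := by
  obtain ⟨E, _, _, _, ⟨ε⟩⟩ := exists_model ℕ
  have := separable_of_basis ε
  have : SecondCountableTopology E := UniformSpace.secondCountable_of_separable E
  have hX0 : ℵ₀ ≤ #X := by rw [hX]; exact Cardinal.aleph0_le_aleph α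
  have hY0 : ℵ₀ ≤ #Y := by rw [hY]; exact Cardinal.aleph0_le_aleph β
  have hXm : #X ≤ ℵ_ (max α β) := by
    rw [hX]; exact Cardinal.aleph_le_aleph.2 (le_max_left _ _)
  have hYm : #Y ≤ ℵ_ (max α β) := by
    rw [hY]; exact Cardinal.aleph_le_aleph.2 (le_max_right _ _)
  refine semi_le (Λ := (Order.succ (max α β)).ToType) _ (by simp) ?_
    (fun n => exists_inv e ε (max α β) hX0 hXm n) (fun n => exists_inv f ε (max α β) hY0 hYm n)
  rw [Cardinal.mk_toType, Ordinal.card_succ]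
  have h1 : (max α β).card ≤ α.card + β.card := by
    rcases max_choice α β with h | h
    · rw [h]; exact le_add_right le_rfl
    · rw [h]; exact le_add_left le_rfl
  exact add_le_add h1 one_le_two

theorem norm_semi {A : Type} [Ring A] [StarRing A] [Algebra ℂ A] {N : A → ℝ}
    (hN : IsCStarNorm N) : IsCStarSemi N :=
  ⟨hN.nonneg, hN.add_le, hN.smul, hN.mul_le, hN.norm_star, hN.cstar⟩

theorem norms_le_semi :
    #{N : (H →L[ℂ] H) ⊗[ℂ] (K →L[ℂ] K) → ℝ // IsCStarNorm N} ≤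
      #{N : (H →L[ℂ] H) ⊗[ℂ] (K →L[ℂ] K) → ℝ // IsCStarSemi N} := by
  refine Cardinal.mk_le_of_injective (f := fun N => ⟨N.1, norm_semi N.2⟩) ?_
  intro N N' h
  apply Subtype.ext
  funext s
  exact congrFun (congrArg (fun M : {N : (H →L[ℂ] H) ⊗[ℂ] (K →L[ℂ] K) → ℝ // IsCStarSemi N} =>
    M.1) h) s

theorem norms_le_semiQ :
    #{N : (H →L[ℂ] H) ⊗[ℂ] Calkin K → ℝ // IsCStarNorm N} ≤
      #{N : (H →L[ℂ] H) ⊗[ℂ] (K →L[ℂ] K) → ℝ // IsCStarSemi N} := by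
  refine Cardinal.mk_le_of_injective (f := fun N => ⟨fun s => N.1 (Pi2 s),
    semi_pull (C := (H →L[ℂ] H) ⊗[ℂ] (K →L[ℂ] K)) (D := (H →L[ℂ] H) ⊗[ℂ] Calkin K) N.2 Pi2
      Pi2_mul Pi2_star⟩) ?_
  intro N N' h
  apply Subtype.ext
  funext x
  obtain ⟨s, rfl⟩ := Pi2_surjective x
  exact congrFun (congrArg (fun M : {N : (H →L[ℂ] H) ⊗[ℂ] (K →L[ℂ] K) → ℝ // IsCStarSemi N} =>
    M.1) h) s

theorem infinite_of {X : Type} {α : Ordinal.{0}} (hX : #X = ℵ_ α) : Infinite X := by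
  rw [Cardinal.infinite_iff, hX]
  exact Cardinal.aleph0_le_aleph α

theorem bound_eq {α β : Ordinal.{0}} (hα : α.card ≤ 2 ^ 𝔠) (hβ : β.card ≤ 2 ^ 𝔠) :
    (α.card + β.card + 2) ^ 𝔠 ≤ 2 ^ 𝔠 := by
  have h0 : ℵ₀ ≤ (2 : Cardinal.{0}) ^ 𝔠 :=
    Cardinal.aleph0_le_continuum.trans (Cardinal.cantor 𝔠).le
  have h1 : α.card + β.card + 2 ≤ 2 ^ 𝔠 := by
    calc α.card + β.card + 2 ≤ 2 ^ 𝔠 + 2 ^ 𝔠 + 2 ^ 𝔠 := by
          refine add_le_add (add_le_add hα hβ) ?_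
          exact (Cardinal.natCast_lt_aleph0 (n := 2)).le.trans h0
      _ = 2 ^ 𝔠 := by rw [Cardinal.add_eq_self h0, Cardinal.add_eq_self h0]
  calc (α.card + β.card + 2) ^ 𝔠 ≤ (2 ^ 𝔠) ^ 𝔠 := Cardinal.power_le_power_right h1
    _ = 2 ^ 𝔠 := by rw [← Cardinal.power_mul, Cardinal.continuum_mul_self]

end Pool.Agent.H86.CN
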