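import Pool.Agent.H86.CN.CalkinLev2
import Pool.Agent.H86.CN.Main

/-!
The exact number of C*-norms on `B(H) ⊗ B(K)`.
-/

set_option autoImplicit false
set_option linter.unusedSectionVars false

open Filter Topology Cardinal
open scoped InnerProductSpace TensorProduct ComplexOrder

namespace Pool.Agent.H86.CN

open Pool.Agent.Helper965.CN

theorem card_lower {α β : Ordinal.{0}} {N : Cardinal.{0}} (h0 : 2 ^ 𝔠 ≤ N)
    (h1 : (α.card + 1) ^ 𝔠 ≤ N) (h2 : (β.card + 1) ^ 𝔠 ≤ N) : (α.card + β.card + 2) ^ 𝔠 ≤ N := by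
  rcases lt_or_ge (max α.card β.card) ℵ₀ with hm | hm
  · have hc : ℵ₀ ≤ (2 : Cardinal.{0}) ^ 𝔠 :=
      Cardinal.aleph0_le_continuum.trans (Cardinal.cantor 𝔠).le
    exact (bound_eq (((le_max_left _ _).trans hm.le).trans hc)
      (((le_max_right _ _).trans hm.le).trans hc)).trans h0
  · have h3 : α.card + β.card + 2 ≤ max α.card β.card := by
      calc α.card + β.card + 2 ≤ max α.card β.card + max α.card β.card + max α.card β.card := by
            refine add_le_add (add_le_add (le_max_left _ _) (le_max_right _ _)) ?_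
            exact (Cardinal.natCast_lt_aleph0 (n := 2)).le.trans hm
        _ = max α.card β.card := by rw [Cardinal.add_eq_self hm, Cardinal.add_eq_self hm]
    refine (Cardinal.power_le_power_right h3).trans ?_
    rcases max_choice α.card β.card with h | h
    · rw [h]
      exact (Cardinal.power_le_power_right (le_add_right le_rfl)).trans h1
    · rw [h]
      exact (Cardinal.power_le_power_right (le_add_right le_rfl)).trans h2

variable {H K : Type} [NormedAddCommGroup H] [InnerProductSpace ℂ H] [CompleteSpace H]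
  [NormedAddCommGroup K] [InnerProductSpace ℂ K] [CompleteSpace K]

theorem norms_BB {X Y : Type} (e : HilbertBasis X ℂ H) (f : HilbertBasis Y ℂ K)
    (α β : Ordinal.{0}) (hX : #X = ℵ_ α) (hY : #Y = ℵ_ β) :
    #{N : (H →L[ℂ] H) ⊗[ℂ] (K →L[ℂ] K) → ℝ // IsCStarNorm N} = (α.card + β.card + 2) ^ 𝔠 := by
  have := infinite_of hX
  have := infinite_of hY
  refine le_antisymm (norms_le_semi.trans (semi_upper e f α β hX hY)) ?_
  exact card_lower (lower_BB e f) ((lower_lev_BB f e α hX).trans norms_swap)
    (lower_lev_BB e f β hY)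

theorem norms_BQ {X Y : Type} (e : HilbertBasis X ℂ H) (f : HilbertBasis Y ℂ K)
    (α β : Ordinal.{0}) (hX : #X = ℵ_ α) (hY : #Y = ℵ_ β) :
    #{N : (H →L[ℂ] H) ⊗[ℂ] Calkin K → ℝ // IsCStarNorm N} = (α.card + β.card + 2) ^ 𝔠 := by
  have := infinite_of hX
  have := infinite_of hY
  refine le_antisymm (norms_le_semiQ.trans (semi_upper e f α β hX hY)) ?_
  exact card_lower (lower_BQ e f) (lower_lev_BQ' e f α hX) (lower_lev_BQ e f β hY)

end Pool.Agent.H86.CN
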