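import Pool.Agent.H86.CN.Trans
import Pool.Agent.H86.CN.Semi

/-!
Maps between algebraic tensor products of *-algebras; the Calkin algebra.
-/

set_option autoImplicit false
set_option linter.unusedSectionVars false

open Filter Topology Cardinal
open scoped InnerProductSpace TensorProduct ComplexOrder

namespace Pool.Agent.H86.CN

open Pool.Agent.Helper965.CN

section generic

variable {A A' B B' : Type} [Ring A] [StarRing A] [Algebra ℂ A] [StarModule ℂ A]
  [Ring A'] [StarRing A'] [Algebra ℂ A'] [StarModule ℂ A']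
  [Ring B] [StarRing B] [Algebra ℂ B] [StarModule ℂ B]
  [Ring B'] [StarRing B'] [Algebra ℂ B'] [StarModule ℂ B']

theorem tmap_mul (f : A →ₗ[ℂ] A') (g : B →ₗ[ℂ] B') (hf : ∀ x y, f (x * y) = f x * f y)
    (hg : ∀ x y, g (x * y) = g x * g y) (s t : A ⊗[ℂ] B) :
    TensorProduct.map f g (s * t) = TensorProduct.map f g s * TensorProduct.map f g t := by
  induction s using TensorProduct.induction_on with
  | zero => simp
  | add s s' hs hs' => rw [add_mul, map_add, map_add, hs, hs', add_mul]
  | tmul x y =>
    induction t using TensorProduct.induction_on with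
    | zero => simp
    | add t t' ht ht' => rw [mul_add, map_add, map_add, ht, ht', mul_add]
    | tmul x' y' =>
      rw [Algebra.TensorProduct.tmul_mul_tmul, TensorProduct.map_tmul, TensorProduct.map_tmul,
        TensorProduct.map_tmul, Algebra.TensorProduct.tmul_mul_tmul, hf, hg]

theorem tmap_star (f : A →ₗ[ℂ] A') (g : B →ₗ[ℂ] B') (hf : ∀ x, f (star x) = star (f x))
    (hg : ∀ x, g (star x) = star (g x)) (s : A ⊗[ℂ] B) :
    TensorProduct.map f g (star s) = star (TensorProduct.map f g s) := by
  induction s using TensorProduct.induction_on with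
  | zero => simp
  | add s s' hs hs' => rw [star_add, map_add, map_add, hs, hs', star_add]
  | tmul x y =>
    rw [TensorProduct.star_tmul, TensorProduct.map_tmul, TensorProduct.map_tmul,
      TensorProduct.star_tmul, hf, hg]

/-- pullback of a C*-norm under an injective *-homomorphism -/
theorem norm_pull {C D : Type} [Ring C] [StarRing C] [Algebra ℂ C] [Ring D] [StarRing D]
    [Algebra ℂ D] {N : D → ℝ} (hN : IsCStarNorm N) (j : C →ₗ[ℂ] D)
    (hmul : ∀ x y, j (x * y) = j x * j y) (hstar : ∀ x, j (star x) = star (j x))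
    (hinj : Function.Injective j) : IsCStarNorm (fun x => N (j x)) where
  nonneg x := hN.nonneg _
  eq_zero x hx := hinj (by rw [map_zero]; exact hN.eq_zero _ hx)
  add_le x y := by rw [map_add]; exact hN.add_le _ _
  smul c x := by rw [map_smul]; exact hN.smul _ _
  mul_le x y := by rw [hmul]; exact hN.mul_le _ _
  norm_star x := by rw [hstar]; exact hN.norm_star _
  cstar x := by rw [hmul, hstar]; exact hN.cstar _

/-- pullback of a C*-norm under a *-homomorphism is a C*-seminorm -/
theorem semi_pull {C D : Type} [Ring C] [StarRing C] [Algebra ℂ C] [Ring D] [StarRing D]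
    [Algebra ℂ D] {N : D → ℝ} (hN : IsCStarNorm N) (j : C →ₗ[ℂ] D)
    (hmul : ∀ x y, j (x * y) = j x * j y) (hstar : ∀ x, j (star x) = star (j x)) :
    IsCStarSemi (fun x => N (j x)) where
  nonneg x := hN.nonneg _
  add_le x y := by rw [map_add]; exact hN.add_le _ _
  smul c x := by rw [map_smul]; exact hN.smul _ _
  mul_le x y := by rw [hmul]; exact hN.mul_le _ _
  norm_star x := by rw [hstar]; exact hN.norm_star _
  cstar x := by rw [hmul, hstar]; exact hN.cstar _

end generic

section calkin

variable {K M : Type} [NormedAddCommGroup K] [InnerProductSpace ℂ K] [CompleteSpace K]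
  [NormedAddCommGroup M] [InnerProductSpace ℂ M] [CompleteSpace M]

theorem calkinMk_eq_iff (x y : K →L[ℂ] K) :
    calkinMk K x = calkinMk K y ↔ IsCompactOperator (x - y : K →L[ℂ] K) := by
  rw [← calkinMk_eq_zero, ← sub_eq_zero]
  exact Iff.rfl

theorem amp_compact (W : K →ₗᵢ[ℂ] M) {x : K →L[ℂ] K} (hx : IsCompactOperator x) :
    IsCompactOperator (amp W x) := by
  have h1 : IsCompactOperator (x.comp (adj W)) := hx.comp_clm (adj W)
  exact h1.clm_comp W.toContinuousLinearMap

theorem cmp_compact (W : K →ₗᵢ[ℂ] M) {x : M →L[ℂ] M} (hx : IsCompactOperator x) :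
    IsCompactOperator (cmp W x) := by
  have h1 : IsCompactOperator (x.comp W.toContinuousLinearMap) := hx.comp_clm _
  exact h1.clm_comp (adj W)

theorem exists_calkinAmp (W : K →ₗᵢ[ℂ] M) : ∃ g : Calkin K →ₗ[ℂ] Calkin M,
    ∀ x, g (calkinMk K x) = calkinMk M (amp W x) := by
  have h := (calkinLin_surjective (H := K))
  have hk : LinearMap.ker (calkinLin (H := K)) ≤
      LinearMap.ker ((calkinLin (H := M)).comp (amp W)) := by
    intro x hx
    have h1 : calkinMk K x = 0 := hx
    rw [calkinMk_eq_zero] at h1
    show calkinMk M (amp W x) = 0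
    rw [calkinMk_eq_zero]
    exact amp_compact W h1
  obtain ⟨r, hr⟩ : ∃ r : Calkin K → (K →L[ℂ] K), ∀ z, calkinLin (r z) = z :=
    ⟨Function.surjInv h, Function.surjInv_eq h⟩
  have key : ∀ x y, calkinLin x = calkinLin y →
      calkinLin (H := M) (amp W x) = calkinLin (amp W y) := by
    intro x y hxy
    have h1 : x - y ∈ LinearMap.ker (calkinLin (H := K)) := by
      rw [LinearMap.mem_ker, map_sub, hxy, sub_self]
    have h2 := hk h1
    rw [LinearMap.mem_ker, map_sub, sub_eq_zero] at h2
    exact h2
  refine ⟨{ toFun := fun z => calkinLin (amp W (r z)), map_add' := ?_, map_smul' := ?_ }, ?_⟩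
  · intro z z'
    rw [← map_add, ← map_add]
    apply key
    rw [hr, map_add, hr, hr]
  · intro c z
    rw [RingHom.id_apply, ← map_smul, ← map_smul]
    apply key
    rw [hr, map_smul, hr]
  · intro x
    show calkinLin (amp W (r (calkinMk K x))) = calkinLin (amp W x)
    apply key
    rw [hr]
    rfl

theorem calkinAmp_facts (W : K →ₗᵢ[ℂ] M) (g : Calkin K →ₗ[ℂ] Calkin M)
    (hg : ∀ x, g (calkinMk K x) = calkinMk M (amp W x)) :
    (∀ x y, g (x * y) = g x * g y) ∧ (∀ x, g (star x) = star (g x)) ∧ Function.Injective g := by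
  refine ⟨?_, ?_, ?_⟩
  · intro x y
    obtain ⟨x, rfl⟩ := calkinLin_surjective x
    obtain ⟨y, rfl⟩ := calkinLin_surjective y
    have e : calkinLin x * calkinLin y = calkinMk K (x * y) := rfl
    rw [e, hg, amp_mul]
    show _ = g (calkinMk K x) * g (calkinMk K y)
    rw [hg, hg]
    rfl
  · intro x
    obtain ⟨x, rfl⟩ := calkinLin_surjective x
    have e : star (calkinLin x) = calkinMk K (star x) := rfl
    rw [e, hg, amp_star]
    show _ = star (g (calkinMk K x))
    rw [hg]
    rfl
  · intro x y h
    obtain ⟨x, rfl⟩ := calkinLin_surjective x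
    obtain ⟨y, rfl⟩ := calkinLin_surjective y
    change g (calkinMk K x) = g (calkinMk K y) at h
    show calkinMk K x = calkinMk K y
    rw [hg, hg, calkinMk_eq_iff, ← map_sub] at h
    rw [calkinMk_eq_iff]
    have := cmp_compact W h
    rwa [cmp_amp] at this

end calkin

end Pool.Agent.H86.CN
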