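import Pool.Agent.H86.CN.Frame

/-!
Diagonal operators of slow variation which almost commute with given operators.
-/

set_option autoImplicit false
set_option linter.unusedSectionVars false

open Filter Topology
open scoped InnerProductSpace

namespace Pool.Agent.H86.CN

section

variable {E : Type} [NormedAddCommGroup E] [InnerProductSpace ℂ E] [CompleteSpace E]

theorem star_inner (a : E →L[ℂ] E) (x y : E) : ⟪a x, y⟫_ℂ = ⟪x, star a y⟫_ℂ := by
  rw [ContinuousLinearMap.star_eq_adjoint, ContinuousLinearMap.adjoint_inner_right]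

/-- a self-adjoint idempotent is a contraction -/
theorem proj_le (p : E →L[ℂ] E) (h1 : star p = p) (h2 : p * p = p) (x : E) : ‖p x‖ ≤ ‖x‖ := by
  have h3 : ⟪p x, p x⟫_ℂ = ⟪x, p x⟫_ℂ := by
    rw [star_inner, h1]
    show ⟪x, (p * p) x⟫_ℂ = _
    rw [h2]
  have h4 : ‖p x‖ ^ 2 ≤ ‖x‖ * ‖p x‖ := by
    have h5 : ‖(⟪p x, p x⟫_ℂ : ℂ)‖ = ‖p x‖ ^ 2 := by
      rw [inner_self_eq_norm_sq_to_K]
      simp
    rw [← h5, h3]
    exact norm_inner_le_norm _ _
  rcases (norm_nonneg (p x)).eq_or_lt with h | h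
  · rw [← h]; exact norm_nonneg _
  · nlinarith

theorem block_sum (M : ℕ) (α β : ℕ → E →L[ℂ] E) (hα1 : ∀ r, star (α r) = α r)
    (hα2 : ∀ r s, r ≠ s → α r * α s = 0) (hα3 : ∀ r x, ‖α r x‖ ≤ ‖x‖)
    (hβ1 : ∀ r, star (β r) = β r)
    (hβ2 : ∀ r s, r ≠ s → β r * β s = 0) (hβ3 : ∀ r, β r * β r = β r)
    (t : E →L[ℂ] E) (η : ℝ) (hη : 0 ≤ η) (d : ℕ → ℝ) (hd : ∀ r, |d r| ≤ η) :
    ‖∑ r ∈ Finset.range M, (d r : ℂ) • (α r * t * β r)‖ ≤ η * ‖t‖ := by
  apply ContinuousLinearMap.opNorm_le_bound _ (by positivity)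
  intro x
  have e1 : (∑ r ∈ Finset.range M, (d r : ℂ) • (α r * t * β r)) x =
      ∑ r ∈ Finset.range M, (d r : ℂ) • α r (t (β r x)) := by
    rw [ContinuousLinearMap.sum_apply]
    rfl
  rw [e1]
  have h1 : ‖∑ r ∈ Finset.range M, (d r : ℂ) • α r (t (β r x))‖ ^ 2 =
      ∑ r ∈ Finset.range M, ‖(d r : ℂ) • α r (t (β r x))‖ ^ 2 := by
    apply norm_sum_sq
    intro r _ s _ hrs
    rw [inner_smul_left, inner_smul_right, star_inner, hα1]
    have : α r (α s (t (β s x))) = (α r * α s) (t (β s x)) := rfl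
    rw [this, hα2 r s hrs]
    simp
  have h2 : ‖∑ r ∈ Finset.range M, β r x‖ ^ 2 = ∑ r ∈ Finset.range M, ‖β r x‖ ^ 2 := by
    apply norm_sum_sq
    intro r _ s _ hrs
    rw [star_inner, hβ1]
    have : β r (β s x) = (β r * β s) x := rfl
    rw [this, hβ2 r s hrs]
    simp
  have h3 : ‖∑ r ∈ Finset.range M, β r x‖ ≤ ‖x‖ := by
    have h4 := proj_le (∑ r ∈ Finset.range M, β r) (by
      rw [star_sum]; exact Finset.sum_congr rfl fun r _ => hβ1 r) (by
      rw [Finset.sum_mul]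
      refine Finset.sum_congr rfl fun r hr => ?_
      rw [Finset.mul_sum, Finset.sum_eq_single r, hβ3]
      · intro s _ hs
        exact hβ2 r s (Ne.symm hs)
      · intro h; exact absurd hr h) x
    rwa [ContinuousLinearMap.sum_apply] at h4
  have h5 : ‖∑ r ∈ Finset.range M, (d r : ℂ) • α r (t (β r x))‖ ^ 2 ≤ (η * ‖t‖ * ‖x‖) ^ 2 := by
    calc _ = ∑ r ∈ Finset.range M, ‖(d r : ℂ) • α r (t (β r x))‖ ^ 2 := h1
      _ ≤ ∑ r ∈ Finset.range M, (η * ‖t‖) ^ 2 * ‖β r x‖ ^ 2 := by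
        refine Finset.sum_le_sum fun r _ => ?_
        rw [norm_smul, ← mul_pow]
        apply pow_le_pow_left₀ (by positivity)
        have a1 : ‖((d r : ℝ) : ℂ)‖ ≤ η := by
          rw [Complex.norm_real]; exact hd r
        have a2 : ‖α r (t (β r x))‖ ≤ ‖t‖ * ‖β r x‖ := (hα3 _ _).trans (t.le_opNorm _)
        calc ‖((d r : ℝ) : ℂ)‖ * ‖α r (t (β r x))‖ ≤ η * (‖t‖ * ‖β r x‖) := by gcongr
          _ = _ := by ring
      _ = (η * ‖t‖) ^ 2 * ‖∑ r ∈ Finset.range M, β r x‖ ^ 2 := by rw [h2, Finset.mul_sum]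
      _ ≤ (η * ‖t‖) ^ 2 * ‖x‖ ^ 2 := by gcongr
      _ = _ := by ring
  exact abs_le_of_sq_le_sq' h5 (by positivity) |>.2

/-- Lemma C: almost orthogonality -/
theorem lemmaC (q : ℕ → E →L[ℂ] E) (hq0 : q 0 = 0) (hqs : ∀ r, star (q r) = q r)
    (hq1 : ∀ r s, r ≤ s → q r * q s = q r) (hq2 : ∀ r s, r ≤ s → q s * q r = q r)
    (t : E →L[ℂ] E) (δ : ℝ) (hδ1 : ∀ r, ‖q r * t * (1 - q (r + 1))‖ ≤ δ)
    (hδ2 : ∀ r, ‖(1 - q (r + 1)) * t * q r‖ ≤ δ) (η : ℝ) (hη : 0 ≤ η) (d : ℕ → ℝ)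
    (hd : ∀ r, |d r| ≤ η) (M : ℕ) :
    ‖∑ r ∈ Finset.range M, (d r : ℂ) • (q (r + 1) * t - t * q (r + 1))‖ ≤
      2 * η * ‖t‖ + 4 * M * η * δ := by
  have hδ0 : 0 ≤ δ := (norm_nonneg _).trans (hδ1 0)
  have hqn : ∀ r, ‖q r‖ ≤ 1 := fun r =>
    ContinuousLinearMap.opNorm_le_bound _ zero_le_one fun x => by
      rw [one_mul]; exact proj_le _ (hqs r) (hq1 r r le_rfl) x
  have hmul : ∀ r s, q r * q s = q (min r s) := by
    intro r s
    rcases le_total r s with h | h
    · rw [hq1 r s h, min_eq_left h]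
    · rw [hq2 s r h, min_eq_right h]
  have e : ∀ r, q (r + 1) * t - t * q (r + 1) =
      (q (r + 1) - q r) * t * (q (r + 2) - q (r + 1)) -
        (q (r + 2) - q (r + 1)) * t * (q (r + 1) - q r) +
        (q (r + 1) * t * (1 - q (r + 2)) + q r * t * (1 - q (r + 1)) * q (r + 2) -
          (1 - q (r + 2)) * t * q (r + 1) - q (r + 2) * ((1 - q (r + 1)) * t * q r)) := by
    intro r
    have h1 : q (r + 1) * q (r + 2) = q (r + 1) := hq1 _ _ (by omega)
    have h2 : q (r + 2) * q (r + 1) = q (r + 1) := hq2 _ _ (by omega)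
    have a1 : q r * t * (1 - q (r + 1)) * q (r + 2) = q r * t * (q (r + 2) - q (r + 1)) := by
      rw [mul_assoc (q r * t), sub_mul, one_mul, h1]
    have a2 : q (r + 2) * ((1 - q (r + 1)) * t * q r) = (q (r + 2) - q (r + 1)) * t * q r := by
      rw [← mul_assoc, ← mul_assoc, mul_sub, mul_one, h2]
    rw [a1, a2]
    noncomm_ring
  have key : ∑ r ∈ Finset.range M, (d r : ℂ) • (q (r + 1) * t - t * q (r + 1)) =
      ∑ r ∈ Finset.range M, (d r : ℂ) • ((q (r + 1) - q r) * t * (q (r + 2) - q (r + 1))) -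
      ∑ r ∈ Finset.range M, (d r : ℂ) • ((q (r + 2) - q (r + 1)) * t * (q (r + 1) - q r)) +
      ∑ r ∈ Finset.range M, (d r : ℂ) •
        (q (r + 1) * t * (1 - q (r + 2)) + q r * t * (1 - q (r + 1)) * q (r + 2) -
          (1 - q (r + 2)) * t * q (r + 1) - q (r + 2) * ((1 - q (r + 1)) * t * q r)) := by
    rw [← Finset.sum_sub_distrib, ← Finset.sum_add_distrib]
    refine Finset.sum_congr rfl fun r _ => ?_
    rw [← smul_sub, ← smul_add, ← e r]
  have hds : ∀ r, star (q (r + 1) - q r) = q (r + 1) - q r := fun r => by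
    rw [star_sub, hqs, hqs]
  have hdm : ∀ r s, r < s → (q (r + 1) - q r) * (q (s + 1) - q s) = 0 := by
    intro r s h
    rw [sub_mul, mul_sub, mul_sub, hmul, hmul, hmul, hmul, min_eq_left (by omega),
      min_eq_left (by omega), min_eq_left (by omega), min_eq_left (by omega)]
    simp
  have hdm' : ∀ r s, s < r → (q (r + 1) - q r) * (q (s + 1) - q s) = 0 := by
    intro r s h
    rw [sub_mul, mul_sub, mul_sub, hmul, hmul, hmul, hmul, min_eq_right (by omega),
      min_eq_right (by omega), min_eq_right (by omega), min_eq_right (by omega)]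
    simp
  have hdo : ∀ r s, r ≠ s → (q (r + 1) - q r) * (q (s + 1) - q s) = 0 := by
    intro r s h
    rcases lt_or_gt_of_ne h with h | h
    · exact hdm r s h
    · exact hdm' r s h
  have hdi : ∀ r, (q (r + 1) - q r) * (q (r + 1) - q r) = q (r + 1) - q r := by
    intro r
    rw [sub_mul, mul_sub, mul_sub, hmul, hmul, hmul, hmul, min_self, min_self,
      min_eq_right (by omega), min_eq_left (by omega)]
    simp
  have hdn : ∀ r x, ‖(q (r + 1) - q r) x‖ ≤ ‖x‖ := fun r x => proj_le _ (hds r) (hdi r) x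
  have b1 := block_sum M (fun r => q (r + 1) - q r) (fun r => q (r + 2) - q (r + 1)) hds hdo hdn
    (fun r => hds (r + 1)) (fun r s h => hdo (r + 1) (s + 1) (by omega)) (fun r => hdi (r + 1)) t η hη
    d hd
  have b2 := block_sum M (fun r => q (r + 2) - q (r + 1)) (fun r => q (r + 1) - q r)
    (fun r => hds (r + 1)) (fun r s h => hdo (r + 1) (s + 1) (by omega)) (fun r => hdn (r + 1))
    hds hdo hdi t η hη d hd
  have b3 : ‖∑ r ∈ Finset.range M, (d r : ℂ) •
        (q (r + 1) * t * (1 - q (r + 2)) + q r * t * (1 - q (r + 1)) * q (r + 2) -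
          (1 - q (r + 2)) * t * q (r + 1) - q (r + 2) * ((1 - q (r + 1)) * t * q r))‖ ≤
      4 * M * η * δ := by
    refine (norm_sum_le _ _).trans ?_
    have : ∀ r ∈ Finset.range M, ‖(d r : ℂ) •
        (q (r + 1) * t * (1 - q (r + 2)) + q r * t * (1 - q (r + 1)) * q (r + 2) -
          (1 - q (r + 2)) * t * q (r + 1) - q (r + 2) * ((1 - q (r + 1)) * t * q r))‖ ≤
          η * (4 * δ) := by
      intro r _
      rw [norm_smul]
      have a1 : ‖((d r : ℝ) : ℂ)‖ ≤ η := by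
        rw [Complex.norm_real]; exact hd r
      have c1 := hδ1 (r + 1)
      have c2 : ‖q r * t * (1 - q (r + 1)) * q (r + 2)‖ ≤ δ := by
        refine (norm_mul_le _ _).trans ?_
        have := hδ1 r
        have := hqn (r + 2)
        have := norm_nonneg (q (r + 2))
        have := norm_nonneg (q r * t * (1 - q (r + 1)))
        nlinarith
      have c3 := hδ2 (r + 1)
      have c4 : ‖q (r + 2) * ((1 - q (r + 1)) * t * q r)‖ ≤ δ := by
        refine (norm_mul_le _ _).trans ?_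
        have := hδ2 r
        have := hqn (r + 2)
        have := norm_nonneg (q (r + 2))
        have := norm_nonneg ((1 - q (r + 1)) * t * q r)
        nlinarith
      have c5 : ‖q (r + 1) * t * (1 - q (r + 2)) + q r * t * (1 - q (r + 1)) * q (r + 2) -
          (1 - q (r + 2)) * t * q (r + 1) - q (r + 2) * ((1 - q (r + 1)) * t * q r)‖ ≤ 4 * δ := by
        refine (norm_sub_le _ _).trans ?_
        have f1 := norm_sub_le (q (r + 1) * t * (1 - q (r + 2)) +
          q r * t * (1 - q (r + 1)) * q (r + 2)) ((1 - q (r + 2)) * t * q (r + 1))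
        have f2 := norm_add_le (q (r + 1) * t * (1 - q (r + 2)))
          (q r * t * (1 - q (r + 1)) * q (r + 2))
        linarith
      gcongr
    refine (Finset.sum_le_sum this).trans ?_
    rw [Finset.sum_const, Finset.card_range, nsmul_eq_mul]
    apply le_of_eq
    ring
  rw [key]
  refine (norm_add_le _ _).trans ?_
  have f1 := norm_sub_le
    (∑ r ∈ Finset.range M, (d r : ℂ) • ((q (r + 1) - q r) * t * (q (r + 2) - q (r + 1))))
    (∑ r ∈ Finset.range M, (d r : ℂ) • ((q (r + 2) - q (r + 1)) * t * (q (r + 1) - q r)))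
  have g1 : ‖∑ r ∈ Finset.range M, (d r : ℂ) • ((q (r + 1) - q r) * t * (q (r + 2) - q (r + 1)))‖ ≤
    η * ‖t‖ := b1
  have g2 : ‖∑ r ∈ Finset.range M, (d r : ℂ) • ((q (r + 2) - q (r + 1)) * t * (q (r + 1) - q r))‖ ≤
    η * ‖t‖ := b2
  linarith

end

end Pool.Agent.H86.CN
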