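import Pool.Agent.H86.CN.Diag

/-!
The bound for vector functionals, for amplified elements.
-/

set_option autoImplicit false
set_option linter.unusedSectionVars false

open Filter Topology Cardinal
open scoped InnerProductSpace TensorProduct ComplexOrder

namespace Pool.Agent.H86.CN

open Pool.Agent.Helper965.CN

section

variable {E K M : Type} [NormedAddCommGroup E] [InnerProductSpace ℂ E] [CompleteSpace E]
  [NormedAddCommGroup K] [InnerProductSpace ℂ K] [CompleteSpace K]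
  [NormedAddCommGroup M] [InnerProductSpace ℂ M] [CompleteSpace M]

theorem norm_sum_sq' {N : Type} [NormedAddCommGroup N] [InnerProductSpace ℂ N] {J : Type}
    (s : Finset J) (y : J → N) (h : ∀ i ∈ s, ∀ j ∈ s, i ≠ j → ⟪y i, y j⟫_ℂ = 0) :
    ‖∑ i ∈ s, y i‖ ^ 2 = ∑ i ∈ s, ‖y i‖ ^ 2 := by
  have h1 : ⟪∑ i ∈ s, y i, ∑ i ∈ s, y i⟫_ℂ = ∑ i ∈ s, ⟪y i, y i⟫_ℂ := by
    rw [sum_inner]
    refine Finset.sum_congr rfl fun i hi => ?_
    rw [inner_sum, Finset.sum_eq_single i]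
    · intro j hj hji
      exact h i hi j hj (Ne.symm hji)
    · intro h'
      exact absurd hi h'
  have h2 := congrArg Complex.re h1
  rw [Complex.re_sum] at h2
  have h3 : ∀ x : N, (⟪x, x⟫_ℂ).re = ‖x‖ ^ 2 := fun x => by
    have := inner_self_eq_norm_sq (𝕜 := ℂ) x
    simpa using this
  rw [h3] at h2
  rw [h2]
  exact Finset.sum_congr rfl fun i _ => h3 _

theorem R_inner (a a' : (M →L[ℂ] M) ⊗[ℂ] (M →L[ℂ] M)) (ζ : M ⊗[ℂ] M) :
    inner ℂ (R a ζ) (R a' ζ) = inner ℂ ζ (R (star a * a') ζ) := by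
  rw [R_star, Pool.Agent.Helper965.CN.R_mul]

theorem hasSum_blocks {Y : Type} (g : HilbertBasis (Y × ℕ) ℂ K) (ε : HilbertBasis ℕ ℂ E)
    (W : Y → E →ₗᵢ[ℂ] K) (hW : ∀ y m, W y (ε m) = g (y, m)) (q : K) :
    HasSum (fun y => W y (adj (W y) q)) q := by
  have h1 := g.hasSum_repr q
  refine h1.prod_fiberwise fun y => ?_
  have h2 := (ε.hasSum_repr (adj (W y) q)).mapL (W y).toContinuousLinearMap
  have e : (fun m => g.repr q (y, m) • g (y, m)) =
      fun m => (W y).toContinuousLinearMap (ε.repr (adj (W y) q) m • ε m) := by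
    funext m
    show _ = W y (ε.repr (adj (W y) q) m • ε m)
    rw [map_smul, hW, ε.repr_apply_apply, g.repr_apply_apply, adj_inner, hW]
  rw [e]
  exact h2

variable {Y : Type} (g : HilbertBasis (Y × ℕ) ℂ K) (ε : HilbertBasis ℕ ℂ E)
    (W : Y → E →ₗᵢ[ℂ] K) (hW : ∀ y m, W y (ε m) = g (y, m)) (D : Set Y)
    (G : (E →L[ℂ] E) →ₗ[ℂ] (K →L[ℂ] K)) (hG1 : ∀ x, ∀ y ∈ D, ∀ v, G x (W y v) = W y (x v))
    (hG2 : ∀ x, ∀ y ∉ D, ∀ v, G x (W y v) = 0)
    (V : E →ₗᵢ[ℂ] M) (W₁ : K →ₗᵢ[ℂ] M)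

/-- the finite parts of the unit -/
noncomputable def PF (W : Y → E →ₗᵢ[ℂ] K) (W₁ : K →ₗᵢ[ℂ] M) (F : Finset Y) : M →L[ℂ] M :=
  (1 - amp W₁ 1) + ∑ y ∈ F, amp (W₁.comp (W y)) 1

include hW in
theorem PF_tendsto (q : M) :
    Tendsto (fun F : Finset Y => PF W W₁ F q) atTop (𝓝 q) := by
  have h1 := ((hasSum_blocks g ε W hW (adj W₁ q)).mapL W₁.toContinuousLinearMap)
  have h2 : Tendsto (fun F : Finset Y => (q - W₁ (adj W₁ q)) +
      ∑ y ∈ F, W₁ (W y (adj (W y) (adj W₁ q)))) atTop (𝓝 ((q - W₁ (adj W₁ q)) +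
      W₁ (adj W₁ q))) := tendsto_const_nhds.add h1
  rw [sub_add_cancel] at h2
  refine h2.congr fun F => ?_
  unfold PF
  rw [ContinuousLinearMap.add_apply, ContinuousLinearMap.sum_apply]
  congr 1
  refine Finset.sum_congr rfl fun y _ => ?_
  rw [amp_comp, amp_apply, amp_apply]
  rfl

include hW in
theorem R_PF_tendsto (a : (M →L[ℂ] M) ⊗[ℂ] (M →L[ℂ] M)) (ζ : M ⊗[ℂ] M) :
    Tendsto (fun F : Finset Y => R a (R (1 ⊗ₜ[ℂ] PF W W₁ F) ζ)) atTop (𝓝 (R a ζ)) := by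
  induction a using TensorProduct.induction_on with
  | zero => simp
  | add a a' h h' =>
    simp only [map_add, LinearMap.add_apply]
    exact h.add h'
  | tmul x z =>
    induction ζ using TensorProduct.induction_on with
    | zero => simp
    | add ζ ζ' h h' =>
      simp only [map_add]
      exact h.add h'
    | tmul p q =>
      have h1 : ∀ F : Finset Y, R (x ⊗ₜ[ℂ] z) (R (1 ⊗ₜ[ℂ] PF W W₁ F) (p ⊗ₜ[ℂ] q)) =
          (x p) ⊗ₜ[ℂ] (z (PF W W₁ F q)) := by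
        intro F
        rw [R_tmul, R_tmul]
        rfl
      simp only [h1]
      have h2 : R (x ⊗ₜ[ℂ] z) (p ⊗ₜ[ℂ] q) = (x p) ⊗ₜ[ℂ] (z q) := by
        rw [R_tmul]
        rfl
      rw [h2]
      have h3 := (z.continuous.tendsto q).comp (PF_tendsto g ε W hW W₁ q)
      have h4 : Tendsto (fun F : Finset Y => ((x p, z (PF W W₁ F q)) : M × M)) atTop
          (𝓝 (x p, z q)) := tendsto_const_nhds.prodMk_nhds h3
      exact ((TensorProduct.continuous_tmul (𝕜 := ℂ) (E := M) (F := M)).tendsto _).comp h4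

include hW hG1 hG2 in
theorem diag_t1 (s : (E →L[ℂ] E) ⊗[ℂ] (E →L[ℂ] E)) (y : Y) (hy : y ∈ D) :
    TensorProduct.map (amp V) ((amp W₁).comp G) s * (1 ⊗ₜ[ℂ] amp (W₁.comp (W y)) 1) =
      amp2 V (W₁.comp (W y)) s := by
  induction s using TensorProduct.induction_on with
  | zero => simp
  | add s s' h h' => rw [map_add, add_mul, h, h', map_add]
  | tmul x x' =>
    rw [TensorProduct.map_tmul, Algebra.TensorProduct.tmul_mul_tmul, mul_one,
      LinearMap.comp_apply, amp_comp, ← amp_mul, diag_mul_amp g ε W hW D G hG1 hG2 _ _ y hy,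
      mul_one, ← amp_comp]
    rfl

include hW hG1 hG2 in
theorem diag_t1' (s : (E →L[ℂ] E) ⊗[ℂ] (E →L[ℂ] E)) (y : Y) (hy : y ∉ D) :
    TensorProduct.map (amp V) ((amp W₁).comp G) s * (1 ⊗ₜ[ℂ] amp (W₁.comp (W y)) 1) = 0 := by
  induction s using TensorProduct.induction_on with
  | zero => simp
  | add s s' h h' => rw [map_add, add_mul, h, h', add_zero]
  | tmul x x' =>
    rw [TensorProduct.map_tmul, Algebra.TensorProduct.tmul_mul_tmul, mul_one,
      LinearMap.comp_apply, amp_comp, ← amp_mul, diag_mul_amp' g ε W hW D G hG1 hG2 _ _ y hy,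
      map_zero, TensorProduct.tmul_zero]

theorem diag_tinf (s : (E →L[ℂ] E) ⊗[ℂ] (E →L[ℂ] E)) :
    TensorProduct.map (amp V) ((amp W₁).comp G) s * (1 ⊗ₜ[ℂ] (1 - amp W₁ 1)) = 0 := by
  induction s using TensorProduct.induction_on with
  | zero => simp
  | add s s' h h' => rw [map_add, add_mul, h, h', add_zero]
  | tmul x x' =>
    rw [TensorProduct.map_tmul, Algebra.TensorProduct.tmul_mul_tmul, mul_one,
      LinearMap.comp_apply, mul_sub, mul_one, ← amp_mul, mul_one, sub_self,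
      TensorProduct.tmul_zero]

theorem amp2_P (U : E →ₗᵢ[ℂ] M) (s : (E →L[ℂ] E) ⊗[ℂ] (E →L[ℂ] E)) :
    amp2 V U s * (1 ⊗ₜ[ℂ] amp U 1) = amp2 V U s := by
  induction s using TensorProduct.induction_on with
  | zero => simp
  | add s s' h h' => rw [map_add, add_mul, h, h']
  | tmul x x' =>
    show (amp V x ⊗ₜ[ℂ] amp U x') * (1 ⊗ₜ[ℂ] amp U 1) = amp V x ⊗ₜ[ℂ] amp U x'
    rw [Algebra.TensorProduct.tmul_mul_tmul, mul_one, ← amp_mul, mul_one]

theorem amp2_orth (U U' : E →ₗᵢ[ℂ] M) (h : ∀ x x', ⟪U x, U' x'⟫_ℂ = 0)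
    (s s' : (E →L[ℂ] E) ⊗[ℂ] (E →L[ℂ] E)) : star (amp2 V U s) * amp2 V U' s' = 0 := by
  rw [← amp2_star]
  have h0 : ∀ v, adj U (U' v) = 0 := by
    intro v
    apply ext_inner_left ℂ
    intro u
    rw [adj_inner, h, inner_zero_right]
  induction star s using TensorProduct.induction_on with
  | zero => simp
  | add s s' h h' => rw [map_add, add_mul, h, h', add_zero]
  | tmul x x' =>
    induction s' using TensorProduct.induction_on with
    | zero => simp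
    | add s s' h h' => rw [map_add, mul_add, h, h', add_zero]
    | tmul y y' =>
      show (amp V x ⊗ₜ[ℂ] amp U x') * (amp V y ⊗ₜ[ℂ] amp U' y') = 0
      rw [Algebra.TensorProduct.tmul_mul_tmul]
      have h1 : amp U x' * amp U' y' = 0 := by
        ext v
        show amp U x' (amp U' y' v) = 0
        rw [amp_apply, amp_apply, h0, map_zero, map_zero]
      rw [h1, TensorProduct.tmul_zero]

include hW hG1 hG2 in
theorem R_diag_le (s : (E →L[ℂ] E) ⊗[ℂ] (E →L[ℂ] E)) (C : ℝ) (hC : 0 ≤ C)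
    (hs : ∀ ζ : E ⊗[ℂ] E, ‖R s ζ‖ ≤ C * ‖ζ‖) (ζ : M ⊗[ℂ] M) :
    ‖R (TensorProduct.map (amp V) ((amp W₁).comp G) s) ζ‖ ≤ C * ‖ζ‖ := by
  classical
  have horth := isom_orth g ε W hW
  obtain ⟨t, ht⟩ : ∃ t, t = TensorProduct.map (amp V) ((amp W₁).comp G) s := ⟨_, rfl⟩
  obtain ⟨P, hP⟩ : ∃ P : Y → (M →L[ℂ] M) ⊗[ℂ] (M →L[ℂ] M),
      ∀ y, P y = 1 ⊗ₜ[ℂ] amp (W₁.comp (W y)) 1 := ⟨_, fun _ => rfl⟩
  have t1 : ∀ y ∈ D, t * P y = amp2 V (W₁.comp (W y)) s := by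
    intro y hy
    rw [ht, hP]
    exact diag_t1 g ε W hW D G hG1 hG2 V W₁ s y hy
  have t1' : ∀ y ∉ D, t * P y = 0 := by
    intro y hy
    rw [ht, hP]
    exact diag_t1' g ε W hW D G hG1 hG2 V W₁ s y hy
  have t2 : t * (1 ⊗ₜ[ℂ] (1 - amp W₁ 1)) = 0 := by
    rw [ht]
    exact diag_tinf G V W₁ s
  have horth' : ∀ y y', y ≠ y' → ∀ x x', ⟪(W₁.comp (W y)) x, (W₁.comp (W y')) x'⟫_ℂ = 0 := by
    intro y y' hyy x x'
    show ⟪W₁ (W y x), W₁ (W y' x')⟫_ℂ = 0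
    rw [LinearIsometry.inner_map_map, horth _ _ _ _ hyy]
  have hPs : ∀ y, star (P y) = P y := by
    intro y
    rw [hP, TensorProduct.star_tmul, star_one, ← amp_star, star_one]
  have hPP : ∀ y, P y * P y = P y := by
    intro y
    rw [hP, Algebra.TensorProduct.tmul_mul_tmul, one_mul, ← amp_mul, one_mul]
  have hPP' : ∀ y y', y ≠ y' → P y * P y' = 0 := by
    intro y y' hyy
    rw [hP, hP, Algebra.TensorProduct.tmul_mul_tmul]
    have h1 : amp (W₁.comp (W y)) 1 * amp (W₁.comp (W y')) 1 = 0 := by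
      ext v
      show amp (W₁.comp (W y)) 1 (amp (W₁.comp (W y')) 1 v) = 0
      rw [amp_apply, amp_apply]
      have h0 : adj (W₁.comp (W y)) ((W₁.comp (W y')) ((1 : E →L[ℂ] E)
          (adj (W₁.comp (W y')) v))) = 0 := by
        apply ext_inner_left ℂ
        intro u
        rw [adj_inner, horth' _ _ hyy, inner_zero_right]
      rw [h0, map_zero, map_zero]
    rw [h1, TensorProduct.tmul_zero]
  -- Bessel
  have hbessel : ∀ (F : Finset Y) (η : M ⊗[ℂ] M), ∑ y ∈ F, ‖R (P y) η‖ ^ 2 ≤ ‖η‖ ^ 2 := by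
    intro F η
    have h1 : ‖∑ y ∈ F, R (P y) η‖ ^ 2 = ∑ y ∈ F, ‖R (P y) η‖ ^ 2 := by
      apply norm_sum_sq'
      intro y _ y' _ hyy
      rw [R_inner, hPs, hPP' y y' hyy, map_zero, LinearMap.zero_apply, inner_zero_right]
    have h2 : RCLike.re (inner ℂ (∑ y ∈ F, R (P y) η) η : ℂ) = ∑ y ∈ F, ‖R (P y) η‖ ^ 2 := by
      rw [sum_inner, map_sum]
      refine Finset.sum_congr rfl fun y _ => ?_
      have h3 : (inner ℂ (R (P y) η) η : ℂ) = inner ℂ (R (P y) η) (R (P y) η) := by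
        rw [R_inner, hPs, hPP, R_star, hPs]
      rw [h3]
      exact inner_self_eq_norm_sq (𝕜 := ℂ) (R (P y) η)
    have h3 := @norm_sub_sq ℂ _ _ _ _ (∑ y ∈ F, R (P y) η) η
    rw [h2, h1] at h3
    have h4 := sq_nonneg ‖∑ y ∈ F, R (P y) η - η‖
    linarith
  have hfin : ∀ F : Finset Y, ‖R t (R (1 ⊗ₜ[ℂ] PF W W₁ F) ζ)‖ ≤ C * ‖ζ‖ := by
    intro F
    have e1 : R t (R (1 ⊗ₜ[ℂ] PF W W₁ F) ζ) = ∑ y ∈ F, R (t * P y) ζ := by
      rw [← Pool.Agent.Helper965.CN.R_mul]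
      have e2 : t * (1 ⊗ₜ[ℂ] PF W W₁ F) = ∑ y ∈ F, t * P y := by
        unfold PF
        rw [TensorProduct.tmul_add, mul_add, t2, zero_add, TensorProduct.tmul_sum, Finset.mul_sum]
        refine Finset.sum_congr rfl fun y _ => ?_
        rw [hP]
      rw [e2, map_sum, LinearMap.sum_apply]
    rw [e1]
    have e3 : ‖∑ y ∈ F, R (t * P y) ζ‖ ^ 2 = ∑ y ∈ F, ‖R (t * P y) ζ‖ ^ 2 := by
      apply norm_sum_sq'
      intro y _ y' _ hyy
      by_cases hy : y ∈ D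
      · by_cases hy' : y' ∈ D
        · rw [t1 y hy, t1 y' hy', R_inner, amp2_orth V _ _ (horth' _ _ hyy), map_zero,
            LinearMap.zero_apply, inner_zero_right]
        · rw [t1' y' hy', map_zero, LinearMap.zero_apply, inner_zero_right]
      · rw [t1' y hy, map_zero, LinearMap.zero_apply, inner_zero_left]
    have e4 : ∀ y, ‖R (t * P y) ζ‖ ≤ C * ‖R (P y) ζ‖ := by
      intro y
      by_cases hy : y ∈ D
      · rw [t1 y hy, ← amp2_P, Pool.Agent.Helper965.CN.R_mul, hP]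
        exact R_amp2_le V _ s C hC hs _
      · rw [t1' y hy, map_zero, LinearMap.zero_apply, norm_zero]
        positivity
    have e5 : ‖∑ y ∈ F, R (t * P y) ζ‖ ^ 2 ≤ (C * ‖ζ‖) ^ 2 := by
      rw [e3, mul_pow]
      calc ∑ y ∈ F, ‖R (t * P y) ζ‖ ^ 2 ≤ ∑ y ∈ F, C ^ 2 * ‖R (P y) ζ‖ ^ 2 := by
            refine Finset.sum_le_sum fun y _ => ?_
            rw [← mul_pow]
            exact pow_le_pow_left₀ (norm_nonneg _) (e4 y) 2
        _ = C ^ 2 * ∑ y ∈ F, ‖R (P y) ζ‖ ^ 2 := by rw [Finset.mul_sum]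
        _ ≤ C ^ 2 * ‖ζ‖ ^ 2 := by
            gcongr
            exact hbessel F ζ
    exact abs_le_of_sq_le_sq' e5 (by positivity) |>.2
  rw [← ht]
  exact le_of_tendsto' (R_PF_tendsto g ε W hW W₁ t ζ).norm hfin

end

end Pool.Agent.H86.CN
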