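import Pool.Agent.H86.CN.Cover

/-!
Transfer of the estimates.
-/

set_option autoImplicit false
set_option linter.unusedSectionVars false

open Filter Topology Cardinal
open scoped InnerProductSpace TensorProduct ComplexOrder

namespace Pool.Agent.H86.CN

open Pool.Agent.Helper965.CN

section

variable {E M : Type} [NormedAddCommGroup E] [InnerProductSpace ℂ E] [CompleteSpace E]
  [NormedAddCommGroup M] [InnerProductSpace ℂ M] [CompleteSpace M]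

theorem R_amp2 (V W : E →ₗᵢ[ℂ] M) (t : (E →L[ℂ] E) ⊗[ℂ] (E →L[ℂ] E)) (ζ : M ⊗[ℂ] M) :
    R (amp2 V W t) ζ = TensorProduct.map V.toLinearMap W.toLinearMap
      (R t (TensorProduct.map (adj V : M →ₗ[ℂ] E) (adj W : M →ₗ[ℂ] E) ζ)) := by
  induction t using TensorProduct.induction_on with
  | zero => simp
  | add s t hs ht =>
    rw [map_add, map_add, LinearMap.add_apply, hs, ht, map_add, LinearMap.add_apply, map_add]
  | tmul x y =>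
    induction ζ using TensorProduct.induction_on with
    | zero => simp
    | add ζ ζ' h h' => rw [map_add, h, h', map_add, map_add, map_add]
    | tmul u v =>
      show R (amp V x ⊗ₜ[ℂ] amp W y) (u ⊗ₜ[ℂ] v) = _
      rw [R_tmul, R_tmul]
      rfl

theorem inner_map_adj (V W : E →ₗᵢ[ℂ] M) (η : E ⊗[ℂ] E) (ζ : M ⊗[ℂ] M) :
    inner ℂ (TensorProduct.map V.toLinearMap W.toLinearMap η) ζ =
      inner ℂ η (TensorProduct.map (adj V : M →ₗ[ℂ] E) (adj W : M →ₗ[ℂ] E) ζ) := by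
  induction η using TensorProduct.induction_on with
  | zero => simp
  | add η η' h h' => rw [map_add, inner_add_left, inner_add_left, h, h']
  | tmul x y =>
    induction ζ using TensorProduct.induction_on with
    | zero => simp
    | add ζ ζ' h h' => rw [map_add, inner_add_right, inner_add_right, h, h']
    | tmul u v =>
      rw [TensorProduct.map_tmul, TensorProduct.map_tmul]
      have e1 : (inner ℂ (V.toLinearMap x ⊗ₜ[ℂ] W.toLinearMap y) (u ⊗ₜ[ℂ] v) : ℂ) =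
        inner ℂ (V x) u * inner ℂ (W y) v := TensorProduct.inner_tmul (𝕜 := ℂ) _ _ _ _
      have e2 : (inner ℂ (x ⊗ₜ[ℂ] y) ((adj V : M →ₗ[ℂ] E) u ⊗ₜ[ℂ] (adj W : M →ₗ[ℂ] E) v) : ℂ) =
        inner ℂ x (adj V u) * inner ℂ y (adj W v) := TensorProduct.inner_tmul (𝕜 := ℂ) _ _ _ _
      rw [e1, e2, adj_inner, adj_inner]

theorem norm_map_adj (V W : E →ₗᵢ[ℂ] M) (ζ : M ⊗[ℂ] M) :
    ‖TensorProduct.map (adj V : M →ₗ[ℂ] E) (adj W : M →ₗ[ℂ] E) ζ‖ ≤ ‖ζ‖ := by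
  set η := TensorProduct.map (adj V : M →ₗ[ℂ] E) (adj W : M →ₗ[ℂ] E) ζ with hη
  have h1 := inner_map_adj V W η ζ
  rw [← hη] at h1
  have h2 : ‖(inner ℂ η η : ℂ)‖ = ‖η‖ ^ 2 := by
    rw [inner_self_eq_norm_sq_to_K (𝕜 := ℂ) η]
    simp
  have h3 := norm_inner_le_norm (𝕜 := ℂ) (TensorProduct.map V.toLinearMap W.toLinearMap η) ζ
  rw [h1, h2, TensorProduct.norm_map] at h3
  by_contra hcon
  push Not at hcon
  have h4 := norm_nonneg ζ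
  nlinarith

theorem R_amp2_le (V W : E →ₗᵢ[ℂ] M) (t : (E →L[ℂ] E) ⊗[ℂ] (E →L[ℂ] E)) (C : ℝ) (hC : 0 ≤ C)
    (h : ∀ ζ : E ⊗[ℂ] E, ‖R t ζ‖ ≤ C * ‖ζ‖) (ζ : M ⊗[ℂ] M) : ‖R (amp2 V W t) ζ‖ ≤ C * ‖ζ‖ := by
  rw [R_amp2, TensorProduct.norm_map]
  refine (h _).trans ?_
  gcongr
  exact norm_map_adj V W ζ

theorem transfer_pos {X : Type} [Infinite X] (e : HilbertBasis X ℂ M)
    (ε : HilbertBasis ℕ ℂ E) (V W : E →ₗᵢ[ℂ] M)
    (φ : (E →L[ℂ] E) ⊗[ℂ] (E →L[ℂ] E) →ₗ[ℂ] ℂ) (hφ : ∀ s, 0 ≤ φ (star s * s))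
    (s : (M →L[ℂ] M) ⊗[ℂ] (M →L[ℂ] M)) : 0 ≤ (φ.comp (cmp2 V W)) (star s * s) := by
  obtain ⟨r, hr⟩ := exists_sq e e ε ε V W s
  rw [LinearMap.comp_apply, hr]
  exact hφ r

theorem amp2_one (V W : E →ₗᵢ[ℂ] M) : ∃ u v : (M →L[ℂ] M) ⊗[ℂ] (M →L[ℂ] M),
    1 = amp2 V W 1 + (star u * u + star v * v) := by
  have hp : ∀ V : E →ₗᵢ[ℂ] M, star (amp V 1) = amp V 1 ∧ amp V 1 * amp V 1 = amp V 1 := by
    intro V
    constructor
    · rw [← amp_star, star_one]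
    · rw [← amp_mul, mul_one]
  obtain ⟨h1, h2⟩ := hp V
  obtain ⟨h3, h4⟩ := hp W
  obtain ⟨p, hpe⟩ : ∃ p, p = amp V 1 := ⟨_, rfl⟩
  obtain ⟨q, hqe⟩ : ∃ q, q = amp W 1 := ⟨_, rfl⟩
  rw [← hpe] at h1 h2
  rw [← hqe] at h3 h4
  refine ⟨(1 - p) ⊗ₜ[ℂ] 1, p ⊗ₜ[ℂ] (1 - q), ?_⟩
  have e0 : amp2 V W 1 = p ⊗ₜ[ℂ] q := by
    rw [hpe, hqe]
    rfl
  rw [e0, TensorProduct.star_tmul, TensorProduct.star_tmul, Algebra.TensorProduct.tmul_mul_tmul,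
    Algebra.TensorProduct.tmul_mul_tmul]
  have e1 : star (1 - p) * (1 - p) = 1 - p := by
    rw [star_sub, star_one, h1, mul_sub, mul_one, sub_mul, one_mul, h2, sub_self, sub_zero]
  have e2 : star (1 - q) * (1 - q) = 1 - q := by
    rw [star_sub, star_one, h3, mul_sub, mul_one, sub_mul, one_mul, h4, sub_self, sub_zero]
  rw [e1, e2, h1, h2, star_one, mul_one, TensorProduct.sub_tmul, TensorProduct.tmul_sub]
  rw [Algebra.TensorProduct.one_def]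
  abel

theorem transfer_le {X : Type} [Infinite X] (e : HilbertBasis X ℂ M)
    (ε : HilbertBasis ℕ ℂ E) (V W : E →ₗᵢ[ℂ] M)
    (φ : (E →L[ℂ] E) ⊗[ℂ] (E →L[ℂ] E) →ₗ[ℂ] ℂ) (hφ : ∀ s, 0 ≤ φ (star s * s))
    (t : (E →L[ℂ] E) ⊗[ℂ] (E →L[ℂ] E)) (C : ℝ) (hC : 0 ≤ C)
    (h : ∀ w, nf φ (t * w) ≤ C * nf φ w) (w : (M →L[ℂ] M) ⊗[ℂ] (M →L[ℂ] M)) :
    nf (φ.comp (cmp2 V W)) (amp2 V W t * w) ≤ C * nf (φ.comp (cmp2 V W)) w := by
  have e1 : nf (φ.comp (cmp2 V W)) (amp2 V W t * w) = nf φ (t * cmp2 V W w) := by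
    unfold nf b1q
    rw [LinearMap.comp_apply]
    have e2 : star (amp2 V W t * w) * (amp2 V W t * w) =
        star w * amp2 V W (star t * t) * w := by
      rw [star_mul, amp2_mul, amp2_star]
      simp only [mul_assoc]
    rw [e2, cmp2_mid, cmp2_star, star_mul]
    simp only [mul_assoc]
  have e3 : nf φ (cmp2 V W w) ≤ nf (φ.comp (cmp2 V W)) w := by
    unfold nf
    apply Real.sqrt_le_sqrt
    obtain ⟨u, v, huv⟩ := amp2_one V W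
    have e4 : b1q (φ.comp (cmp2 V W)) w = b1q φ (cmp2 V W w) +
        (b1q (φ.comp (cmp2 V W)) (u * w) + b1q (φ.comp (cmp2 V W)) (v * w)) := by
      unfold b1q
      have e5 : star w * w = star w * amp2 V W 1 * w +
          (star (u * w) * (u * w) + star (v * w) * (v * w)) := by
        rw [star_mul, star_mul]
        have e6 : star w * w = star w * 1 * w := by rw [mul_one]
        rw [e6, huv]
        simp only [mul_add, add_mul, mul_assoc]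
      rw [e5, map_add, map_add, Complex.add_re, Complex.add_re]
      congr 2
      rw [LinearMap.comp_apply, cmp2_mid, cmp2_star, mul_one]
    have h1 := b1_re (transfer_pos e ε V W φ hφ) (u * w)
    have h2 := b1_re (transfer_pos e ε V W φ hφ) (v * w)
    rw [e4]
    linarith
  rw [e1]
  exact (h _).trans (mul_le_mul_of_nonneg_left e3 hC)

end

section values

variable {A B : Type} [CStarAlgebra A] [CStarAlgebra B]

/-- Adding different sets of states to a base set gives seminorms with different values. -/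
theorem cn_values {Φ₀ : Set (A ⊗[ℂ] B →ₗ[ℂ] ℂ)}
    (hpos₀ : ∀ φ ∈ Φ₀, ∀ s, 0 ≤ φ (star s * s))
    (t : (ℕ → Bool) → A ⊗[ℂ] B) (φ : (ℕ → Bool) → (A ⊗[ℂ] B →ₗ[ℂ] ℂ))
    (h₀ : ∀ ψ ∈ Φ₀, ∀ a w, nf ψ (t a * w) ≤ (4 - 1 / 10 ^ 12) * nf ψ w)
    (h1 : ∀ a s, 0 ≤ φ a (star s * s)) (h2 : ∀ a, φ a 1 = 1 ∧ φ a (t a) = 4)
    (h3 : ∀ a c, a ≠ c → ∀ w, nf (φ a) (t c * w) ≤ (4 - 1 / 10 ^ 12) * nf (φ a) w) :
    (∀ 𝒢 : Set (ℕ → Bool), Adm (A := A ⊗[ℂ] B) (Φ₀ ∪ φ '' 𝒢)) ∧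
    (∀ (𝒢 : Set (ℕ → Bool)) a, a ∈ 𝒢 → 4 ≤ cn (A := A ⊗[ℂ] B) (Φ₀ ∪ φ '' 𝒢) (t a)) ∧
    (∀ (𝒢 : Set (ℕ → Bool)) c, c ∉ 𝒢 →
      cn (A := A ⊗[ℂ] B) (Φ₀ ∪ φ '' 𝒢) (t c) ≤ 4 - 1 / 10 ^ 12) := by
  have hadm : ∀ 𝒢 : Set (ℕ → Bool), Adm (A := A ⊗[ℂ] B) (Φ₀ ∪ φ '' 𝒢) := by
    intro 𝒢
    have hp : ∀ ψ ∈ Φ₀ ∪ φ '' 𝒢, ∀ s, 0 ≤ ψ (star s * s) := by
      rintro ψ (hψ | ⟨a, _, rfl⟩) s
      · exact hpos₀ ψ hψ s
      · exact h1 a s
    refine ⟨hp, fun s => ?_⟩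
    obtain ⟨C, hC⟩ := tensor_bdd s
    exact ⟨C, fun ψ hψ w => hC ψ (hp ψ hψ) w⟩
  refine ⟨hadm, ?_, ?_⟩
  · intro 𝒢 a ha
    have h4 := le_cn (hadm 𝒢) (φ := φ a) (Or.inr ⟨a, ha, rfl⟩) (t a) 1
    rw [b1_conv, mul_one] at h4
    have h5 := nf_cs (h1 a) 1 (t a)
    have h6 : nf (φ a) (1 : A ⊗[ℂ] B) = 1 := by
      unfold nf b1q
      rw [star_one, mul_one, (h2 a).1]
      simp
    rw [h6, star_one, one_mul, one_mul, (h2 a).2] at h5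
    have h7 : (4 : ℝ) ≤ nf (φ a) (t a) := by simpa using h5
    have h8 : (φ a (star (1 : A ⊗[ℂ] B) * 1)).re = 1 := by
      rw [star_one, mul_one, (h2 a).1]; simp
    rw [h8, mul_one, ← nf_sq (h1 a)] at h4
    have h9 := b1_nonneg (A := A ⊗[ℂ] B) (Φ₀ ∪ φ '' 𝒢) (t a)
    have h10 := nf_nonneg (φ := φ a) (t a)
    nlinarith
  · intro 𝒢 c hc
    refine cn_le (hadm 𝒢) (t c) _ (by norm_num) ?_
    intro ψ hψ w
    have hp := (hadm 𝒢).pos ψ hψ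
    have h4 : nf ψ (t c * w) ≤ (4 - 1 / 10 ^ 12) * nf ψ w := by
      rcases hψ with hψ | ⟨a, ha, rfl⟩
      · exact h₀ ψ hψ c w
      · exact h3 a c (fun h => hc (h ▸ ha)) w
    rw [b1_conv, ← nf_sq hp]
    have h5 : (ψ (star w * w)).re = nf ψ w ^ 2 := (nf_sq hp w).symm
    rw [h5, ← mul_pow]
    exact pow_le_pow_left₀ (nf_nonneg _) h4 2

end values

end Pool.Agent.H86.CN
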