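import Pool.Graph.R_seed8.Helper965.CN.Family

/-!
A general form of the upper estimate: the second leg is arbitrary.
-/

set_option autoImplicit false
set_option linter.unusedSectionVars false
open scoped TensorProduct ComplexOrder BigOperators Matrix InnerProductSpace
open Filter Topology

namespace Pool.Agent.H86.CN
open Pool.Agent.Helper965.CN

variable {H : Type} [NormedAddCommGroup H] [InnerProductSpace ℂ H] [CompleteSpace H]
variable {A B : Type} [CStarAlgebra A] [CStarAlgebra B]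
variable {k : ℕ → ℕ} (b : HilbertBasis (Σ j, Bl (k j)) ℂ H)

/-- type `U` for functionals on `A ⊗ B`, with respect to `ι : B(H) → A` -/
def UT (k : ℕ → ℕ) (U : Ultrafilter ℕ) (ι : (H →L[ℂ] H) →ₗ[ℂ] A) (φ : A ⊗[ℂ] B →ₗ[ℂ] ℂ) : Prop :=
  ∀ (w : A ⊗[ℂ] B) (ε : ℝ), 0 < ε →
    ∃ (r : ℕ) (C : ℝ) (ζ : ∀ j, Fin r → Bl (k j) → H) (ψ : (H →L[ℂ] H) → ℂ),
      (∀ x, Tendsto (fun j => ∑ a, ∑ t, inner ℂ (ζ j a t) (x (ζ j a t))) (U : Filter ℕ)
        (𝓝 (ψ x))) ∧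
      (∀ x, ‖ψ x - φ (star w * (ι x ⊗ₜ 1) * w)‖ ≤ ε * ‖x‖) ∧
      ∀ j (u : H), ∑ a, ∑ t, ‖(inner ℂ u (ζ j a t) : ℂ)‖ ^ 2 ≤ C * ‖u‖ ^ 2 / (2 * k j + 1)

theorem upper2 (hk : Grow k) (U : Ultrafilter ℕ) (hU : (U : Filter ℕ) ≤ atTop)
    (ι : (H →L[ℂ] H) →ₗ[ℂ] A) (hιm : ∀ x y, ι (x * y) = ι x * ι y)
    (hιs : ∀ x, ι (star x) = star (ι x)) (hιn : ∀ x, ‖ι x‖ ≤ ‖x‖)
    (Q : B) (Z : Fin 3 → B) (hQ : star Q = Q) (hQQ : Q * Q = Q) (hZ : ∀ i, star (Z i) * Z i = Q)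
    (hZQ : ∀ i, Z i * Q = Z i)
    (φ : A ⊗[ℂ] B →ₗ[ℂ] ℂ) (hφ : ∀ s, 0 ≤ φ (star s * s))
    (hφU : UT k U ι φ) (S : Set ℕ) (hS : S ∉ U) (w : A ⊗[ℂ] B) :
    nf φ ((ι (PS b S) ⊗ₜ[ℂ] Q + ∑ i, ι (XS b S i) ⊗ₜ[ℂ] Z i) * w) ≤
      (4 - 1 / 10 ^ 12) * nf φ w := by
  by_contra hcon
  push Not at hcon
  -- the algebraic relations
  obtain ⟨P, hPdef⟩ : ∃ P, P = ι (PS b S) ⊗ₜ[ℂ] Q := ⟨_, rfl⟩
  obtain ⟨X, hXdef⟩ : ∃ X : Fin 3 → A ⊗[ℂ] B,
    X = fun i => ι (XS b S i) ⊗ₜ[ℂ] Z i := ⟨_, rfl⟩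
  have ht : ι (PS b S) ⊗ₜ[ℂ] Q + ∑ i, ι (XS b S i) ⊗ₜ[ℂ] Z i = P + ∑ i, X i := by
    rw [hPdef, hXdef]
  have hP : star P = P := by rw [hPdef, TensorProduct.star_tmul, ← hιs, PS_star, hQ]
  have hPP : P * P = P := by rw [hPdef, Algebra.TensorProduct.tmul_mul_tmul, ← hιm, PS_mul, hQQ]
  have hX : ∀ i, star (X i) * X i = P := by
    intro i
    rw [hXdef, hPdef]
    simp only
    rw [TensorProduct.star_tmul, Algebra.TensorProduct.tmul_mul_tmul, ← hιs, ← hιm, XS_star_mul,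
      hZ]
  have hXP : ∀ i, X i * P = X i := by
    intro i
    rw [hXdef, hPdef]
    simp only
    rw [Algebra.TensorProduct.tmul_mul_tmul, ← hιm, XS_mul_PS, hZQ]
  rw [ht] at hcon
  -- normalise
  have hn0 : 0 < nf φ w := by
    rcases (nf_nonneg (φ := φ) w).eq_or_lt with h0 | h0
    · exfalso
      have h1 : ∀ x : A ⊗[ℂ] B, nf φ (x * w) = 0 := by
        intro x
        obtain ⟨C, hC⟩ := tensor_bdd x
        have h2 := hC φ hφ w
        rw [b1_conv, ← nf_sq hφ] at h2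
        have h3 : (φ (star w * w)).re = nf φ w ^ 2 := (nf_sq hφ w).symm
        rw [h3, ← h0] at h2
        have h4 : nf φ (x * w) ^ 2 ≤ 0 := by simpa using h2
        exact pow_eq_zero_iff (two_ne_zero) |>.1 (le_antisymm h4 (sq_nonneg _))
      rw [h1, ← h0] at hcon
      simp at hcon
    · exact h0
  obtain ⟨v, hv⟩ : ∃ v, v = (((nf φ w)⁻¹ : ℝ) : ℂ) • w := ⟨_, rfl⟩
  have hv1 : nf φ v ≤ 1 := by
    rw [hv, nf_smul, Complex.norm_real, Real.norm_eq_abs, abs_of_pos (inv_pos.2 hn0),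
      inv_mul_cancel₀ hn0.ne']
  have hv2 : 4 - 1 / 10 ^ 12 < nf φ ((P + ∑ i, X i) * v) := by
    rw [hv, mul_smul_comm, nf_smul, Complex.norm_real, Real.norm_eq_abs,
      abs_of_pos (inv_pos.2 hn0), inv_mul_eq_div, lt_div_iff₀ hn0]
    exact hcon
  obtain ⟨hPv1, hPv2, hXv⟩ := almost_inv hφ P X hP hPP hX hXP v hv1 hv2
  obtain ⟨w', hw'⟩ : ∃ w', w' = P * v := ⟨_, rfl⟩
  rw [← hw'] at hPv1 hPv2 hXv
  -- invariance of the left marginal
  have hinv : ∀ (i : Fin 3) (z : H →L[ℂ] H), ‖z‖ ≤ 1 →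
      (φ (star w' * (ι (star (XS b S i) * z * XS b S i) ⊗ₜ 1) * w')).re -
        (φ (star w' * (ι z ⊗ₜ 1) * w')).re ≤ 4 / 10 ^ 6 := by
    intro i z hz
    obtain ⟨D, hD⟩ : ∃ D, D = X i * w' - w' := ⟨_, rfl⟩
    have hD1 : nf φ D ≤ 2 / 10 ^ 6 := by rw [hD]; exact hXv i
    have hXw : X i * w' = w' + D := by rw [hD]; abel
    have hnX : nf φ (X i * w') ≤ 1 := by
      have h1 : nf φ (X i * w') = nf φ w' := by
        unfold nf b1q
        have e1 : star (X i * w') * (X i * w') = star w' * w' := by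
          rw [star_mul, mul_assoc, ← mul_assoc (star (X i)), hX, hw', ← mul_assoc P P v, hPP]
        rw [e1]
      rw [h1]; exact hPv2
    have e1 : star w' * (ι (star (XS b S i) * z * XS b S i) ⊗ₜ 1) * w' =
        star (X i * w') * ((ι z ⊗ₜ 1) * (X i * w')) := by
      have e2 : w' = (1 ⊗ₜ Q) * w' := by
        rw [hw', ← mul_assoc, hPdef, Algebra.TensorProduct.tmul_mul_tmul, one_mul, hQQ]
      have e3 : star (X i) * ((ι z ⊗ₜ 1) * X i) =
          (ι (star (XS b S i) * z * XS b S i) ⊗ₜ 1) * (1 ⊗ₜ Q) := by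
        rw [hXdef]
        simp only
        rw [TensorProduct.star_tmul, Algebra.TensorProduct.tmul_mul_tmul,
          Algebra.TensorProduct.tmul_mul_tmul, Algebra.TensorProduct.tmul_mul_tmul, one_mul,
          hZ, mul_one, one_mul, ← hιs, hιm, hιm, mul_assoc]
      calc star w' * (ι (star (XS b S i) * z * XS b S i) ⊗ₜ 1) * w'
          = star w' * ((ι (star (XS b S i) * z * XS b S i) ⊗ₜ 1) * (1 ⊗ₜ Q)) * w' := by
            conv_lhs => rw [e2]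
            conv_lhs => rw [← e2]
            rw [mul_assoc (star w'), mul_assoc (star w'), mul_assoc (_ ⊗ₜ _) (1 ⊗ₜ Q) w', ← e2]
        _ = star w' * (star (X i) * ((ι z ⊗ₜ 1) * X i)) * w' := by rw [e3]
        _ = star (X i * w') * ((ι z ⊗ₜ 1) * (X i * w')) := by
            rw [star_mul]; simp only [mul_assoc]
    have e2 : star w' * (ι z ⊗ₜ 1) * w' = star w' * ((ι z ⊗ₜ 1) * w') := mul_assoc _ _ _
    rw [e1, e2]
    have e3 : star (X i * w') * ((ι z ⊗ₜ 1) * (X i * w')) =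
        star D * ((ι z ⊗ₜ 1) * (X i * w')) + star w' * ((ι z ⊗ₜ 1) * D) +
          star w' * ((ι z ⊗ₜ 1) * w') := by
      have e4 : star (X i * w') = star w' + star D := by rw [hXw, star_add]
      rw [e4, add_mul]
      conv_lhs => 
        rw [hXw]
      have e5 : X i * w' = w' + D := hXw
      rw [e5]
      rw [mul_add (ι z ⊗ₜ[ℂ] (1 : B)), mul_add, mul_add]
      abel
    rw [e3, map_add, map_add, Complex.add_re, Complex.add_re]
    have hz' : ‖ι z‖ ≤ 1 := (hιn z).trans hz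
    have h1 := nf_cs hφ D ((ι z ⊗ₜ 1) * (X i * w'))
    have h2 := nf_cs hφ w' ((ι z ⊗ₜ 1) * D)
    have h3 := nf_left hφ (ι z) hz' (X i * w')
    have h4 := nf_left hφ (ι z) hz' D
    have h5 := nf_nonneg (φ := φ) D
    have h6 := nf_nonneg (φ := φ) w'
    have h7 := nf_nonneg (φ := φ) (X i * w')
    have h8 : nf φ D * nf φ ((ι z ⊗ₜ 1) * (X i * w')) ≤ nf φ D * 1 :=
      mul_le_mul_of_nonneg_left (h3.trans hnX) h5
    have h9 : nf φ w' * nf φ ((ι z ⊗ₜ 1) * D) ≤ 1 * nf φ D :=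
      mul_le_mul hPv2 h4 (nf_nonneg _) zero_le_one
    linarith
  -- type U
  obtain ⟨r, C, ζ, ψ, hlim, hψ, hbd⟩ := hφU w' (1 / 10 ^ 6) (by norm_num)
  have hψre : ∀ x : H →L[ℂ] H, ‖x‖ ≤ 1 →
      |(ψ x).re - (φ (star w' * (ι x ⊗ₜ 1) * w')).re| ≤ 1 / 10 ^ 6 := by
    intro x hx
    rw [← Complex.sub_re]
    refine (Complex.abs_re_le_norm _).trans ((hψ x).trans ?_)
    nlinarith [norm_nonneg x]
  have hψP : 1 / 2 < (ψ (PS b S)).re := by
    have h1 := hψre (PS b S) (norm_PS_le b S)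
    have e1 : star w' * (ι (PS b S) ⊗ₜ 1) * w' = star w' * w' := by
      rw [mul_assoc]
      congr 1
      rw [hw', ← mul_assoc, hPdef, Algebra.TensorProduct.tmul_mul_tmul, ← hιm, PS_mul, one_mul]
    rw [e1] at h1
    have h2 : (φ (star w' * w')).re = nf φ w' ^ 2 := (nf_sq hφ w').symm
    rw [h2] at h1
    have h3 := abs_le.1 h1
    nlinarith [h3.1]
  obtain ⟨A', hA⟩ : ∃ A : Set ℕ, A = {j | j ∉ S ∧
    1 / 2 ≤ (∑ a, ∑ t, inner ℂ (ζ j a t) (PS b S (ζ j a t))).re} := ⟨_, rfl⟩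
  have hAU : ∀ᶠ j in (U : Filter ℕ), j ∈ A' := by
    have h1 : ∀ᶠ j in (U : Filter ℕ), j ∉ S := by
      have := Ultrafilter.compl_mem_iff_notMem.2 hS
      exact this
    have h2 : ∀ᶠ j in (U : Filter ℕ),
        1 / 2 < (∑ a, ∑ t, inner ℂ (ζ j a t) (PS b S (ζ j a t))).re :=
      ((Complex.continuous_re.tendsto _).comp (hlim (PS b S))).eventually_const_lt hψP
    filter_upwards [h1, h2] with j h1 h2
    rw [hA]
    exact ⟨h1, h2.le⟩
  obtain ⟨z, hz, j₀, hj₀⟩ := minimax_blocks b hk S A'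
    (Set.disjoint_left.2 fun j h1 h2 => by rw [hA] at h2; exact h2.1 h1) r C ζ
    (fun j hj => by rw [hA] at hj; exact hj.2) (fun j _ u => hbd j u)
  -- pass to the limit
  have hlim2 : Tendsto (fun j => (∑ i, ∑ a, ∑ t,
      (inner ℂ (ζ j a t) ((star (XS b S i) * z i * XS b S i) (ζ j a t)) -
        inner ℂ (ζ j a t) (z i (ζ j a t)))).re) (U : Filter ℕ)
      (𝓝 (∑ i, (ψ (star (XS b S i) * z i * XS b S i) - ψ (z i))).re) := by
    refine (Complex.continuous_re.tendsto _).comp ?_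
    refine tendsto_finsetSum _ fun i _ => ?_
    simp only [Finset.sum_sub_distrib]
    exact (hlim _).sub (hlim _)
  have h1 : 1 / 10000 ≤ (∑ i, (ψ (star (XS b S i) * z i * XS b S i) - ψ (z i))).re := by
    refine ge_of_tendsto hlim2 ?_
    have h2 : ∀ᶠ j in (U : Filter ℕ), j₀ ≤ j := hU (eventually_ge_atTop j₀)
    filter_upwards [hAU, h2] with j hj1 hj2
    exact hj₀ j hj1 hj2
  have h2 : (∑ i, (ψ (star (XS b S i) * z i * XS b S i) - ψ (z i))).re ≤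
      ∑ _i : Fin 3, (6 / 10 ^ 6 : ℝ) := by
    rw [Complex.re_sum]
    refine Finset.sum_le_sum fun i _ => ?_
    rw [Complex.sub_re]
    have hn : ‖star (XS b S i) * z i * XS b S i‖ ≤ 1 := by
      have n1 := norm_XS_le b S i
      have n2 : ‖star (XS b S i)‖ ≤ 1 := by rw [norm_star]; exact n1
      calc ‖star (XS b S i) * z i * XS b S i‖ ≤ ‖star (XS b S i) * z i‖ * ‖XS b S i‖ :=
            norm_mul_le _ _
        _ ≤ (‖star (XS b S i)‖ * ‖z i‖) * ‖XS b S i‖ := by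
            gcongr; exact norm_mul_le _ _
        _ ≤ (1 * 1) * 1 := by gcongr; exact hz i
        _ = 1 := by norm_num
    have a1 := abs_le.1 (hψre _ hn)
    have a2 := abs_le.1 (hψre _ (hz i))
    have a3 := hinv i (z i) (hz i)
    have : (6 : ℝ) / 10 ^ 6 = 4 / 10 ^ 6 + 1 / 10 ^ 6 + 1 / 10 ^ 6 := by norm_num
    rw [this]
    linarith [a1.2, a2.1]
  simp only [Finset.sum_const, Finset.card_univ, Fintype.card_fin, nsmul_eq_mul] at h2
  norm_num at h1 h2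
  linarith

end Pool.Agent.H86.CN
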